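import Mathlib

set_option autoImplicit false

/-! # Level data for a branch group of rooted and directed automorphisms -/

namespace Pool.Agent.W5h69.Seg

/-- Level data: groups `G i` acting on finite sets `X i`, quotients of a common group `B`, with
two letters and an involution compatible with everything. -/
structure Fam (B : Type) [Group B] where
  /-- level groups -/
  G : ℕ → Type
  /-- level alphabets -/
  X : ℕ → Type
  instG : ∀ i, Group (G i)
  instA : ∀ i, MulAction (G i) (X i)
  instF : ∀ i, Finite (X i)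
  faith : ∀ i, FaithfulSMul (G i) (X i)
  trans : ∀ i, MulAction.IsPretransitive (G i) (X i)
  /-- reductions -/
  red : ∀ i, B →* G i
  surj : ∀ i, Function.Surjective (red i)
  /-- first letter -/
  o : ∀ i, X i
  /-- second letter -/
  y : ∀ i, X i
  hoy : ∀ i, o i ≠ y i
  b3 : ∀ i, ∃ g : G i, g • y i = y i ∧ g • o i ≠ o i
  b4 : ∀ i (N : Subgroup (G i)), N.Normal → N ≤ ⁅N, ⊤⁆
  /-- involution on `B` -/
  rB : B → B
  /-- involution on `G i` -/
  rG : ∀ i, G i → G i
  /-- involution on `X i` -/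
  rX : ∀ i, Equiv.Perm (X i)
  rX2 : ∀ i x, rX i (rX i x) = x
  rred : ∀ i b, red i (rB b) = rG i (red i b)
  ract : ∀ i g x, rX i (g • x) = rG i g • rX i x
  ro : ∀ i, rX i (o i) = o i
  ry : ∀ i, rX i (y i) = y i

namespace Fam

variable {B : Type} [Group B] (F : Fam B)

attribute [instance] Fam.instG Fam.instA Fam.instF Fam.faith Fam.trans

/-- the shifted family -/
def shift : Fam B where
  G i := F.G (i + 1)
  X i := F.X (i + 1)
  instG i := F.instG (i + 1)
  instA i := F.instA (i + 1)
  instF i := F.instF (i + 1)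
  faith i := F.faith (i + 1)
  trans i := F.trans (i + 1)
  red i := F.red (i + 1)
  surj i := F.surj (i + 1)
  o i := F.o (i + 1)
  y i := F.y (i + 1)
  hoy i := F.hoy (i + 1)
  b3 i := F.b3 (i + 1)
  b4 i := F.b4 (i + 1)
  rB := F.rB
  rG i := F.rG (i + 1)
  rX i := F.rX (i + 1)
  rX2 i := F.rX2 (i + 1)
  rred i := F.rred (i + 1)
  ract i := F.ract (i + 1)
  ro i := F.ro (i + 1)
  ry i := F.ry (i + 1)

/-- infinite words -/
abbrev Xi : Type := ∀ i, F.X i

variable {F}

/-- put a letter in front -/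
def cons (a : F.X 0) (x : F.shift.Xi) : F.Xi := fun i => match i with
  | 0 => a
  | i + 1 => x i

/-- remove the first letter -/
def tl (x : F.Xi) : F.shift.Xi := fun i => x (i + 1)

@[simp] lemma cons_zero (a : F.X 0) (x : F.shift.Xi) : cons a x 0 = a := rfl
@[simp] lemma cons_succ (a : F.X 0) (x : F.shift.Xi) (i : ℕ) : cons a x (i + 1) = x i := rfl
@[simp] lemma tl_cons (a : F.X 0) (x : F.shift.Xi) : tl (cons a x) = x := rfl
@[simp] lemma cons_tl (x : F.Xi) : cons (x 0) (tl x) = x := by
  funext i; cases i <;> rfl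
lemma tl_apply (x : F.Xi) (i : ℕ) : tl x i = x (i + 1) := rfl

lemma cons_inj {a a' : F.X 0} {x x' : F.shift.Xi} (h : cons a x = cons a' x') : a = a' ∧ x = x' :=
  ⟨congrFun h 0, by rw [← tl_cons a x, h, tl_cons]⟩

/-- fibrewise permutations -/
def fib : (F.X 0 → Equiv.Perm F.shift.Xi) →* Equiv.Perm F.Xi where
  toFun f := ⟨fun x => cons (x 0) (f (x 0) (tl x)), fun x => cons (x 0) ((f (x 0))⁻¹ (tl x)),
    fun x => by simp, fun x => by simp⟩
  map_one' := by ext1 x; simp
  map_mul' f g := by ext1 x; simp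

lemma fib_apply (f : F.X 0 → Equiv.Perm F.shift.Xi) (x : F.Xi) :
    fib f x = cons (x 0) (f (x 0) (tl x)) := rfl

/-- rooted permutations -/
def root : F.G 0 →* Equiv.Perm F.Xi where
  toFun g := ⟨fun x => cons (g • x 0) (tl x), fun x => cons (g⁻¹ • x 0) (tl x),
    fun x => by simp, fun x => by simp⟩
  map_one' := by ext1 x; simp
  map_mul' g h := by ext1 x; simp [mul_smul]

lemma root_apply (g : F.G 0) (x : F.Xi) : root g x = cons (g • x 0) (tl x) := rfl

lemma root_inv_apply (g : F.G 0) (x : F.Xi) : (root g)⁻¹ x = cons (g⁻¹ • x 0) (tl x) := rfl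

lemma root_conj (g : F.G 0) (f : F.X 0 → Equiv.Perm F.shift.Xi) :
    root g * fib f * (root g)⁻¹ = fib (fun a => f (g⁻¹ • a)) := by
  ext1 x
  simp [Equiv.Perm.mul_apply, fib_apply, root_apply, root_inv_apply]

lemma fib_root_inj {f f' : F.X 0 → Equiv.Perm F.shift.Xi} {g g' : F.G 0}
    (h : fib f * root g = fib f' * root g') : f = f' ∧ g = g' := by
  have hx : ∀ x : F.Xi, cons (g • x 0) (f (g • x 0) (tl x)) = cons (g' • x 0) (f' (g' • x 0) (tl x)) := by
    intro x
    have := DFunLike.congr_fun h x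
    simpa [Equiv.Perm.mul_apply, fib_apply, root_apply] using this
  have hg : g = g' := by
    apply FaithfulSMul.eq_of_smul_eq_smul (α := F.X 0)
    intro a
    have := (cons_inj (hx (cons a (fun i => F.shift.o i)))).1
    simpa using this
  refine ⟨?_, hg⟩
  subst hg
  funext a
  ext1 x
  have := (cons_inj (hx (cons (g⁻¹ • a) x))).2
  simpa using this

open Classical in
/-- section at a letter -/
noncomputable def sec (a : F.X 0) : Equiv.Perm F.shift.Xi →* Equiv.Perm F.Xi :=
  fib.comp (MonoidHom.mulSingle (fun _ : F.X 0 => Equiv.Perm F.shift.Xi) a)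

open Classical in
lemma sec_def (a : F.X 0) (u : Equiv.Perm F.shift.Xi) : sec a u = fib (Pi.mulSingle a u) := rfl

lemma fib_inj {f f' : F.X 0 → Equiv.Perm F.shift.Xi} (h : fib f = fib f') : f = f' :=
  (fib_root_inj (g := 1) (g' := 1) (by rw [h])).1

lemma sec_inj (a : F.X 0) : Function.Injective (sec a : Equiv.Perm F.shift.Xi → Equiv.Perm F.Xi) := by
  classical
  intro u v h
  rw [sec_def, sec_def] at h
  have := congrFun (fib_inj h) a
  simpa using this

lemma root_conj_sec (g : F.G 0) (a : F.X 0) (u : Equiv.Perm F.shift.Xi) :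
    root g * sec a u * (root g)⁻¹ = sec (g • a) u := by
  classical
  rw [sec_def, root_conj, sec_def]
  congr 1
  funext b
  by_cases h : b = g • a
  · subst h; simp
  · have : g⁻¹ • b ≠ a := fun h2 => h (by rw [← h2, smul_inv_smul])
    simp [h, this]

lemma fib_conj_sec (f : F.X 0 → Equiv.Perm F.shift.Xi) (a : F.X 0) (u : Equiv.Perm F.shift.Xi) :
    fib f * sec a u * (fib f)⁻¹ = sec a (f a * u * (f a)⁻¹) := by
  classical
  rw [sec_def, sec_def, ← map_mul, ← map_inv, ← map_mul]
  congr 1
  funext b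
  by_cases h : b = a
  · subst h; simp
  · simp [h]

lemma sec_comm {a b : F.X 0} (h : a ≠ b) (u v : Equiv.Perm F.shift.Xi) :
    sec a u * sec b v = sec b v * sec a u := by
  classical
  rw [sec_def, sec_def, ← map_mul, ← map_mul]
  congr 1
  funext c
  by_cases h1 : c = a
  · subst h1
    simp [h]
  · simp [h1]

/-- the directed condition -/
def cnd (x : F.Xi) (i : ℕ) : Prop := (∀ j, j < i → x j = F.o j) ∧ x i = F.y i

lemma cnd_uniq {x : F.Xi} {i j : ℕ} (hi : cnd x i) (hj : cnd x j) : i = j := by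
  rcases lt_trichotomy i j with h | h | h
  · exact absurd ((hj.1 i h).symm.trans hi.2) (F.hoy i)
  · exact h
  · exact absurd ((hi.1 j h).symm.trans hj.2) (F.hoy j)

lemma cnd_congr {x x' : F.Xi} {i : ℕ} (h : ∀ j, j ≤ i → x j = x' j) (hx : cnd x i) : cnd x' i :=
  ⟨fun j hj => by rw [← h j hj.le]; exact hx.1 j hj, by rw [← h i le_rfl]; exact hx.2⟩

open Classical in
/-- the directed map -/
noncomputable def ddf (b : B) (x : F.Xi) : F.Xi := fun i => match i with
  | 0 => x 0
  | i + 1 => if cnd x i then F.red (i + 1) b • x (i + 1) else x (i + 1)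

lemma ddf_zero (b : B) (x : F.Xi) : ddf b x 0 = x 0 := rfl
lemma ddf_pos {b : B} {x : F.Xi} {i : ℕ} (h : cnd x i) :
    ddf b x (i + 1) = F.red (i + 1) b • x (i + 1) := by
  simp only [ddf]; rw [if_pos h]
lemma ddf_neg {b : B} {x : F.Xi} {i : ℕ} (h : ¬ cnd x i) : ddf b x (i + 1) = x (i + 1) := by
  simp only [ddf]; rw [if_neg h]

lemma ddf_le {b : B} {x : F.Xi} {i : ℕ} (h : cnd x i) : ∀ j, j ≤ i → ddf b x j = x j := by
  intro j hj
  cases j with
  | zero => rfl
  | succ j =>
    apply ddf_neg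
    intro h2
    have := cnd_uniq h h2
    omega

lemma ddf_cnd {b : B} {x : F.Xi} {i : ℕ} : cnd (ddf b x) i ↔ cnd x i := by
  constructor
  · intro h
    by_cases hex : ∃ k, cnd x k
    · obtain ⟨k, hk⟩ := hex
      have h2 : cnd (ddf b x) k := cnd_congr (fun j hj => (ddf_le hk j hj).symm) hk
      rw [cnd_uniq h h2]; exact hk
    · have h3 : ddf b x = x := by
        funext j
        cases j with
        | zero => rfl
        | succ j => exact ddf_neg (fun h => hex ⟨j, h⟩)
      rwa [h3] at h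
  · intro h
    exact cnd_congr (fun j hj => (ddf_le h j hj).symm) h

lemma ddf_mul (b b' : B) (x : F.Xi) : ddf (b * b') x = ddf b (ddf b' x) := by
  funext i
  cases i with
  | zero => rfl
  | succ i =>
    by_cases h : cnd x i
    · rw [ddf_pos h, ddf_pos (ddf_cnd.2 h), ddf_pos h, map_mul, mul_smul]
    · rw [ddf_neg h, ddf_neg (fun h2 => h (ddf_cnd.1 h2)), ddf_neg h]

lemma ddf_one (x : F.Xi) : ddf 1 x = x := by
  funext i
  cases i with
  | zero => rfl
  | succ i =>
    by_cases h : cnd x i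
    · rw [ddf_pos h, map_one, one_smul]
    · rw [ddf_neg h]

/-- the directed permutations -/
noncomputable def dd : B →* Equiv.Perm F.Xi where
  toFun b := ⟨ddf b, ddf b⁻¹, fun x => by rw [← ddf_mul, inv_mul_cancel, ddf_one],
    fun x => by rw [← ddf_mul, mul_inv_cancel, ddf_one]⟩
  map_one' := by ext1 x; exact ddf_one x
  map_mul' b b' := by ext1 x; exact ddf_mul b b' x

lemma dd_apply (b : B) (x : F.Xi) : dd b x = ddf b x := rfl

open Classical in
/-- the sections of a directed permutation -/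
noncomputable def dsec (b : B) (a : F.X 0) : Equiv.Perm F.shift.Xi :=
  if a = F.o 0 then dd b else if a = F.y 0 then root (F.shift.red 0 b) else 1

lemma dsec_o (b : B) : dsec b (F.o 0) = (dd b : Equiv.Perm F.shift.Xi) := by
  simp [dsec]

lemma dsec_y (b : B) : dsec b (F.y 0) = (root (F.shift.red 0 b) : Equiv.Perm F.shift.Xi) := by
  have := F.hoy 0
  simp [dsec, this.symm]

lemma dsec_ne (b : B) {a : F.X 0} (h : a ≠ F.o 0) (h' : a ≠ F.y 0) : dsec b a = 1 := by
  simp [dsec, h, h']

lemma cnd_zero (x : F.Xi) : cnd x 0 ↔ x 0 = F.y 0 := by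
  simp [cnd]

lemma cnd_succ (x : F.Xi) (i : ℕ) : cnd x (i + 1) ↔ x 0 = F.o 0 ∧ cnd (F := F.shift) (tl x) i := by
  constructor
  · rintro ⟨h1, h2⟩
    exact ⟨h1 0 (Nat.succ_pos i), fun j hj => h1 (j + 1) (Nat.succ_lt_succ hj), h2⟩
  · rintro ⟨h0, h1, h2⟩
    refine ⟨fun j hj => ?_, h2⟩
    cases j with
    | zero => exact h0
    | succ j => exact h1 j (Nat.lt_of_succ_lt_succ hj)

lemma dd_eq (b : B) : (dd b : Equiv.Perm F.Xi) = fib (dsec b) := by
  ext1 x
  rw [dd_apply, fib_apply]
  funext i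
  cases i with
  | zero => rfl
  | succ i =>
    rw [cons_succ]
    by_cases ho : x 0 = F.o 0
    · rw [ho, dsec_o, dd_apply]
      cases i with
      | zero =>
        rw [ddf_neg, ddf_zero]; rfl
        rw [cnd_zero, ho]; exact F.hoy 0
      | succ i =>
        by_cases hc : cnd (F := F.shift) (tl x) i
        · rw [ddf_pos hc, ddf_pos ((cnd_succ x i).2 ⟨ho, hc⟩)]; rfl
        · rw [ddf_neg hc, ddf_neg (fun h => hc ((cnd_succ x i).1 h).2)]; rfl
    · by_cases hy : x 0 = F.y 0
      · rw [hy, dsec_y, root_apply]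
        cases i with
        | zero =>
          rw [ddf_pos ((cnd_zero x).2 hy)]; rfl
        | succ i =>
          rw [ddf_neg (fun h => ho ((cnd_succ x i).1 h).1)]; rfl
      · rw [dsec_ne b ho hy]
        cases i with
        | zero =>
          rw [ddf_neg (fun h => hy ((cnd_zero x).1 h))]; rfl
        | succ i =>
          rw [ddf_neg (fun h => ho ((cnd_succ x i).1 h).1)]; rfl

end Fam

end Pool.Agent.W5h69.Seg
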