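import Mathlib
import Pool.Agent.W5h69.Seg.Fam

set_option autoImplicit false

/-! # The branch group of a family of level data -/

namespace Pool.Agent.W5h69.Seg

open scoped commutatorElement

/-- perfect groups -/
def Perf (B : Type) [Group B] : Prop := ∀ H : Subgroup B, (∀ b b' : B, ⁅b, b'⁆ ∈ H) → H = ⊤

namespace Fam

variable {B : Type} [Group B] {F : Fam B}

variable (F) in
/-- the group generated by rooted and directed permutations -/
noncomputable def Q : Subgroup (Equiv.Perm F.Xi) := (root (F := F)).range ⊔ (dd (F := F)).range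

lemma root_mem (g : F.G 0) : root g ∈ F.Q := (le_sup_left : _ ≤ F.Q) ⟨g, rfl⟩
lemma dd_mem (b : B) : dd b ∈ F.Q := (le_sup_right : _ ≤ F.Q) ⟨b, rfl⟩

lemma sec_y_mem (hB : Perf B) (b : B) :
    sec (F.y 0) (root (F.shift.red 0 b)) ∈ F.Q := by
  classical
  have h : F.Q.comap ((sec (F.y 0)).comp ((root (F := F.shift)).comp (F.shift.red 0))) = ⊤ := by
    apply hB
    intro b b'
    obtain ⟨g, hg, hg'⟩ := F.b3 0
    have e : ⁅(dd b : Equiv.Perm F.Xi), root g * dd b' * (root g)⁻¹⁆ =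
        sec (F.y 0) (root (F.shift.red 0 ⁅b, b'⁆)) := by
      rw [dd_eq, dd_eq, root_conj, sec_def, ← map_commutatorElement]
      congr 1
      funext a
      have e1 : ⁅(dsec b : F.X 0 → Equiv.Perm F.shift.Xi), fun a => dsec b' (g⁻¹ • a)⁆ a =
        ⁅(dsec b a : Equiv.Perm F.shift.Xi), dsec b' (g⁻¹ • a)⁆ := rfl
      rw [e1]
      by_cases hy : a = F.y 0
      · subst hy
        have : g⁻¹ • F.y 0 = F.y 0 := by rw [inv_smul_eq_iff, hg]
        rw [this, dsec_y, dsec_y, Pi.mulSingle_eq_same, ← map_commutatorElement,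
          ← map_commutatorElement]
      · rw [Pi.mulSingle_eq_of_ne hy]
        by_cases ho : a = F.o 0
        · subst ho
          have h1 : g⁻¹ • F.o 0 ≠ F.o 0 := by
            intro h; rw [inv_smul_eq_iff] at h; exact hg' h.symm
          have h2 : g⁻¹ • F.o 0 ≠ F.y 0 := by
            intro h; rw [inv_smul_eq_iff, hg] at h; exact hy h
          rw [dsec_ne b' h1 h2, commutatorElement_one_right]
        · rw [dsec_ne b ho hy, commutatorElement_one_left]
    change sec (F.y 0) (root (F.shift.red 0 ⁅b, b'⁆)) ∈ F.Q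
    rw [← e, commutatorElement_def]
    have m1 : (dd b : Equiv.Perm F.Xi) ∈ F.Q := dd_mem b
    have m2 : root g * dd b' * (root g)⁻¹ ∈ F.Q :=
      F.Q.mul_mem (F.Q.mul_mem (root_mem g) (dd_mem b')) (F.Q.inv_mem (root_mem g))
    exact F.Q.mul_mem (F.Q.mul_mem (F.Q.mul_mem m1 m2) (F.Q.inv_mem m1)) (F.Q.inv_mem m2)
  have h2 : b ∈ F.Q.comap ((sec (F.y 0)).comp ((root (F := F.shift)).comp (F.shift.red 0))) := by
    rw [h]; exact Subgroup.mem_top b
  exact h2

lemma sec_move {N : Subgroup (Equiv.Perm F.Xi)} (hN : ∀ g : F.G 0, ∀ n ∈ N, root g * n * (root g)⁻¹ ∈ N)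
    {a : F.X 0} {u : Equiv.Perm F.shift.Xi} (h : sec a u ∈ N) (a' : F.X 0) : sec a' u ∈ N := by
  obtain ⟨g, rfl⟩ := MulAction.exists_smul_eq (F.G 0) a a'
  rw [← root_conj_sec]
  exact hN g _ h

lemma Q_root_conj (g : F.G 0) (n : Equiv.Perm F.Xi) (hn : n ∈ F.Q) :
    root g * n * (root g)⁻¹ ∈ F.Q :=
  F.Q.mul_mem (F.Q.mul_mem (root_mem g) hn) (F.Q.inv_mem (root_mem g))

lemma sec_mem (hB : Perf B) (a : F.X 0) {u : Equiv.Perm F.shift.Xi}
    (hu : u ∈ F.shift.Q) : sec a u ∈ F.Q := by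
  classical
  have h : F.shift.Q ≤ F.Q.comap (sec a) := by
    apply sup_le
    · rintro _ ⟨g, rfl⟩
      obtain ⟨b, rfl⟩ := F.shift.surj 0 g
      exact sec_move (fun g n hn => Q_root_conj g n hn) (sec_y_mem hB b) a
    · rintro _ ⟨b, rfl⟩
      apply sec_move (fun g n hn => Q_root_conj g n hn) (a := F.o 0)
      have e : sec (F.o 0) (dd b) = (dd b : Equiv.Perm F.Xi) *
          (sec (F.y 0) (root (F.shift.red 0 b)))⁻¹ := by
        rw [dd_eq (F := F), sec_def, sec_def, ← map_inv, ← map_mul]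
        congr 1
        funext c
        by_cases ho : c = F.o 0
        · subst ho
          simp [dsec_o, F.hoy 0]
        · by_cases hy : c = F.y 0
          · subst hy
            simp [dsec_y, ho]
          · simp [dsec_ne b ho hy, ho, hy]
      rw [e]
      exact F.Q.mul_mem (dd_mem b) (F.Q.inv_mem (sec_y_mem hB b))
  exact h hu

lemma fib_mem_of (N : Subgroup (Equiv.Perm F.Xi)) (f : F.X 0 → Equiv.Perm F.shift.Xi)
    (h : ∀ a, sec a (f a) ∈ N) : fib f ∈ N := by
  classical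
  exact Subgroup.pi_mem_of_mulSingle_mem (H := N.comap fib) f (fun a => h a)

lemma fib_mem (hB : Perf B) {f : F.X 0 → Equiv.Perm F.shift.Xi}
    (h : ∀ a, f a ∈ F.shift.Q) : fib f ∈ F.Q :=
  fib_mem_of F.Q f (fun a => sec_mem hB a (h a))

lemma exists_of_mem {q : Equiv.Perm F.Xi} (hq : q ∈ F.Q) :
    ∃ (f : F.X 0 → Equiv.Perm F.shift.Xi) (g : F.G 0), (∀ a, f a ∈ F.shift.Q) ∧
      q = fib f * root g := by
  let P : Subgroup (Equiv.Perm F.Xi) :=
    { carrier := {q | ∃ (f : F.X 0 → Equiv.Perm F.shift.Xi) (g : F.G 0),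
        (∀ a, f a ∈ F.shift.Q) ∧ q = fib f * root g}
      one_mem' := ⟨1, 1, fun a => F.shift.Q.one_mem, by simp⟩
      mul_mem' := by
        rintro _ _ ⟨f, g, hf, rfl⟩ ⟨f', g', hf', rfl⟩
        refine ⟨f * fun a => f' (g⁻¹ • a), g * g',
          fun a => F.shift.Q.mul_mem (hf a) (hf' _), ?_⟩
        rw [map_mul, ← root_conj, map_mul]; group
      inv_mem' := by
        rintro _ ⟨f, g, hf, rfl⟩
        refine ⟨fun a => f⁻¹ (g • a), g⁻¹, fun a => F.shift.Q.inv_mem (hf _), ?_⟩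
        have := root_conj g⁻¹ (f⁻¹)
        rw [inv_inv] at this
        rw [← this, map_inv, map_inv]; group }
  have h : F.Q ≤ P := by
    apply sup_le
    · rintro _ ⟨g, rfl⟩
      exact ⟨1, g, fun a => F.shift.Q.one_mem, by simp⟩
    · rintro _ ⟨b, rfl⟩
      refine ⟨dsec b, 1, fun a => ?_, by rw [map_one, mul_one, dd_eq]⟩
      by_cases ho : a = F.o 0
      · rw [ho, dsec_o]; exact dd_mem b
      · by_cases hy : a = F.y 0
        · rw [hy, dsec_y]; exact root_mem _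
        · rw [dsec_ne b ho hy]; exact F.shift.Q.one_mem
  exact h hq

lemma of_fib_root_mem {f : F.X 0 → Equiv.Perm F.shift.Xi} {g : F.G 0}
    (h : fib f * root g ∈ F.Q) : ∀ a, f a ∈ F.shift.Q := by
  obtain ⟨f', g', hf', e⟩ := exists_of_mem h
  obtain ⟨rfl, rfl⟩ := fib_root_inj e
  exact hf'

lemma of_fib_mem {f : F.X 0 → Equiv.Perm F.shift.Xi} (h : fib f ∈ F.Q) : ∀ a, f a ∈ F.shift.Q :=
  of_fib_root_mem (g := 1) (by rw [map_one, mul_one]; exact h)

lemma Q_perfect (hB : Perf B) : F.Q ≤ ⁅F.Q, F.Q⁆ := by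
  have key : ∀ φ : B →* Equiv.Perm F.Xi, (∀ b, φ b ∈ F.Q) → ∀ b, φ b ∈ ⁅F.Q, F.Q⁆ := by
    intro φ hφ b
    have h : ⁅F.Q, F.Q⁆.comap φ = ⊤ := by
      apply hB
      intro b b'
      rw [Subgroup.mem_comap, map_commutatorElement]
      exact Subgroup.commutator_mem_commutator (hφ b) (hφ b')
    have h2 : b ∈ ⁅F.Q, F.Q⁆.comap φ := by rw [h]; exact Subgroup.mem_top b
    exact h2
  apply sup_le
  · rintro _ ⟨g, rfl⟩
    obtain ⟨b, rfl⟩ := F.surj 0 g
    exact key (root.comp (F.red 0)) (fun b => root_mem _) b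
  · rintro _ ⟨b, rfl⟩
    exact key dd (fun b => dd_mem _) b

variable (F) in
/-- pointwise stabiliser of the first `n` coordinates -/
def stab (n : ℕ) : Subgroup (Equiv.Perm F.Xi) where
  carrier := {q | ∀ x, ∀ i, i < n → q x i = x i}
  one_mem' := fun _ _ _ => rfl
  mul_mem' := by
    intro p q hp hq x i hi
    rw [Equiv.Perm.mul_apply, hp _ i hi, hq _ i hi]
  inv_mem' := by
    intro q hq x i hi
    have := hq (q⁻¹ x) i hi
    have e : q (q⁻¹ x) = x := q.apply_symm_apply x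
    rw [e] at this
    exact this.symm

lemma mem_stab {n : ℕ} {q : Equiv.Perm F.Xi} : q ∈ F.stab n ↔ ∀ x, ∀ i, i < n → q x i = x i :=
  Iff.rfl

lemma stab_mono {m n : ℕ} (h : m ≤ n) : F.stab n ≤ F.stab m :=
  fun _ hq x i hi => hq x i (hi.trans_le h)

lemma fib_mem_stab {n : ℕ} {f : F.X 0 → Equiv.Perm F.shift.Xi} :
    fib f ∈ F.stab (n + 1) ↔ ∀ a, f a ∈ F.shift.stab n := by
  constructor
  · intro h a x i hi
    have := h (cons a x) (i + 1) (Nat.succ_lt_succ hi)
    rw [fib_apply] at this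
    exact this
  · intro h x i hi
    rw [fib_apply]
    cases i with
    | zero => rfl
    | succ i => exact h (x 0) (tl x) i (Nat.lt_of_succ_lt_succ hi)

lemma fib_mem_stab_one (f : F.X 0 → Equiv.Perm F.shift.Xi) : fib f ∈ F.stab 1 := by
  rw [fib_mem_stab]
  intro a x i hi
  exact absurd hi (Nat.not_lt_zero i)

lemma root_eq_one_of_stab {f : F.X 0 → Equiv.Perm F.shift.Xi} {g : F.G 0} {n : ℕ}
    (h : fib f * root g ∈ F.stab (n + 1)) : g = 1 := by
  apply FaithfulSMul.eq_of_smul_eq_smul (α := F.X 0)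
  intro a
  have := h (cons a (fun i => F.shift.o i)) 0 (Nat.succ_pos n)
  rw [Equiv.Perm.mul_apply, root_apply, fib_apply] at this
  simpa using this

lemma exists_of_mem_stab {q : Equiv.Perm F.Xi} (hq : q ∈ F.Q) {n : ℕ} (h : q ∈ F.stab (n + 1)) :
    ∃ f : F.X 0 → Equiv.Perm F.shift.Xi, (∀ a, f a ∈ F.shift.Q) ∧ (∀ a, f a ∈ F.shift.stab n) ∧
      q = fib f := by
  obtain ⟨f, g, hf, rfl⟩ := exists_of_mem hq
  have hg := root_eq_one_of_stab h
  subst hg
  rw [map_one, mul_one] at h ⊢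
  exact ⟨f, hf, fib_mem_stab.1 h, rfl⟩

/-- normal subgroups of `Q`, as subgroups of the permutation group -/
structure Nrm (F : Fam B) (N : Subgroup (Equiv.Perm F.Xi)) : Prop where
  le : N ≤ F.Q
  conj : ∀ q ∈ F.Q, ∀ n ∈ N, q * n * q⁻¹ ∈ N

lemma Nrm.move {N : Subgroup (Equiv.Perm F.Xi)} (hN : Nrm F N)
    {a : F.X 0} {u : Equiv.Perm F.shift.Xi} (h : sec a u ∈ N) (a' : F.X 0) : sec a' u ∈ N :=
  sec_move (fun g n hn => hN.conj _ (root_mem g) n hn) h a'

/-- a normal subgroup moving the first level contains the whole first stabiliser -/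
lemma Nrm.big (hB : Perf B) {N : Subgroup (Equiv.Perm F.Xi)} (hN : Nrm F N)
    {n₀ : Equiv.Perm F.Xi} (h₀ : n₀ ∈ N) (h₁ : n₀ ∉ F.stab 1)
    {f : F.X 0 → Equiv.Perm F.shift.Xi} (hf : ∀ a, f a ∈ F.shift.Q) : fib f ∈ N := by
  obtain ⟨f₀, g₀, hf₀, rfl⟩ := exists_of_mem (hN.le h₀)
  have hg : ∃ a : F.X 0, g₀ • a ≠ a := by
    by_contra hcon
    push Not at hcon
    have hg1 : g₀ = 1 := by
      apply FaithfulSMul.eq_of_smul_eq_smul (α := F.X 0)
      intro a; rw [hcon a, one_smul]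
    apply h₁
    rw [hg1, map_one, mul_one]
    exact fib_mem_stab_one f₀
  obtain ⟨a, ha⟩ := hg
  have key : F.shift.Q ≤ N.comap (sec a) := by
    refine (Q_perfect hB).trans ?_
    rw [Subgroup.commutator_le]
    intro u hu v hv
    rw [Subgroup.mem_comap, map_commutatorElement]
    have e1 : (fib f₀ * root g₀) * (sec a u)⁻¹ * (fib f₀ * root g₀)⁻¹ =
        sec (g₀ • a) (f₀ (g₀ • a) * u⁻¹ * (f₀ (g₀ • a))⁻¹) := by
      rw [← fib_conj_sec, ← root_conj_sec, map_inv]; group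
    set w := sec (g₀ • a) (f₀ (g₀ • a) * u⁻¹ * (f₀ (g₀ • a))⁻¹) with hw
    have m1 : sec a u * w ∈ N := by
      have h2 := N.mul_mem (hN.conj _ (sec_mem hB a hu) _ h₀) (N.inv_mem h₀)
      have e2 : sec a u * (fib f₀ * root g₀) * (sec a u)⁻¹ * (fib f₀ * root g₀)⁻¹ = sec a u * w := by
        rw [← e1]; group
      rwa [e2] at h2
    have m2 : (sec a u * w) * (sec a v * (sec a u * w)⁻¹ * (sec a v)⁻¹) ∈ N :=
      N.mul_mem m1 (hN.conj _ (sec_mem hB a hv) _ (N.inv_mem m1))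
    have e3 : (sec a u * w) * (sec a v * (sec a u * w)⁻¹ * (sec a v)⁻¹) = ⁅sec a u, sec a v⁆ := by
      have c1 : w * sec a v = sec a v * w := sec_comm ha _ _
      rw [commutatorElement_def]
      calc (sec a u * w) * (sec a v * (sec a u * w)⁻¹ * (sec a v)⁻¹)
          = sec a u * (w * sec a v) * w⁻¹ * (sec a u)⁻¹ * (sec a v)⁻¹ := by group
        _ = sec a u * sec a v * (sec a u)⁻¹ * (sec a v)⁻¹ := by rw [c1]; group
    rwa [e3] at m2
  exact fib_mem_of N f (fun b => hN.move (key (hf b)) b)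

variable (F) in
/-- the first-letter section subgroup of a normal subgroup -/
noncomputable def low (N : Subgroup (Equiv.Perm F.Xi)) : Subgroup (Equiv.Perm F.shift.Xi) :=
  N.comap (sec (F.o 0))

variable (F) in
/-- the projection of the first-level stabiliser part of `N` -/
noncomputable def prj (N : Subgroup (Equiv.Perm F.Xi)) (a : F.X 0) :
    Subgroup (Equiv.Perm F.shift.Xi) :=
  (N.comap fib).map (Pi.evalMonoidHom (fun _ : F.X 0 => Equiv.Perm F.shift.Xi) a)

lemma mem_prj {N : Subgroup (Equiv.Perm F.Xi)} {a : F.X 0} {u : Equiv.Perm F.shift.Xi} :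
    u ∈ F.prj N a ↔ ∃ f, fib f ∈ N ∧ f a = u := Iff.rfl

lemma sec_commutator {f : F.X 0 → Equiv.Perm F.shift.Xi} {a : F.X 0} {v : Equiv.Perm F.shift.Xi} :
    sec a ⁅f a, v⁆ = ⁅fib f, sec a v⁆ := by
  rw [commutatorElement_def, commutatorElement_def, fib_conj_sec, ← map_inv, ← map_mul]

lemma Nrm.prj (hB : Perf B) {N : Subgroup (Equiv.Perm F.Xi)} (hN : Nrm F N)
    (a : F.X 0) : Nrm F.shift (F.prj N a) := by
  classical
  constructor
  · rintro _ ⟨f, hf, rfl⟩
    exact of_fib_mem (hN.le hf) a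
  · rintro q hq _ ⟨f, hf, rfl⟩
    have h := hN.conj _ (sec_mem hB a hq) _ hf
    rw [sec_def, ← map_inv, ← map_mul, ← map_mul] at h
    refine ⟨_, h, ?_⟩
    simp

lemma low_of_fib {u : Equiv.Perm F.shift.Xi} {a : F.X 0} (h : sec a u ∈ F.Q) : u ∈ F.shift.Q := by
  classical
  rw [sec_def] at h
  have := of_fib_mem h a
  rwa [Pi.mulSingle_eq_same] at this

lemma Nrm.low (hB : Perf B) {N : Subgroup (Equiv.Perm F.Xi)} (hN : Nrm F N) :
    Nrm F.shift (F.low N) := by
  constructor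
  · intro u hu
    exact low_of_fib (hN.le hu)
  · intro q hq u hu
    change sec (F.o 0) (q * u * q⁻¹) ∈ N
    rw [map_mul, map_mul, map_inv]
    exact hN.conj _ (sec_mem hB _ hq) _ hu

lemma prj_eq {N : Subgroup (Equiv.Perm F.Xi)} (hN : Nrm F N) {a : F.X 0} (b : F.X 0)
    {u : Equiv.Perm F.shift.Xi} (hu : u ∈ F.prj N a) : u ∈ F.prj N b := by
  obtain ⟨f, hf, rfl⟩ := hu
  obtain ⟨g, rfl⟩ := MulAction.exists_smul_eq (F.G 0) a b
  refine ⟨fun c => f (g⁻¹ • c), ?_, ?_⟩
  · have := hN.conj _ (root_mem g) _ hf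
    rwa [root_conj] at this
  · simp

theorem le_comm_aux (hB : Perf B) : ∀ (n : ℕ) (F : Fam B) (N : Subgroup (Equiv.Perm F.Xi)),
    Nrm F N → (∃ n₀ ∈ N, n₀ ∉ F.stab n) → N ≤ ⁅N, F.Q⁆ := by
  intro n
  induction n with
  | zero =>
    rintro F N _ ⟨n₀, _, h⟩
    exact absurd (fun x i hi => absurd hi (Nat.not_lt_zero i)) h
  | succ n ih =>
    rintro F N hN ⟨n₀, hn₀, hn₁⟩
    by_cases h1 : ∃ m ∈ N, m ∉ F.stab 1
    · obtain ⟨m, hm, hm1⟩ := h1
      intro q hq
      obtain ⟨f, g, hf, rfl⟩ := exists_of_mem (hN.le hq)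
      have hfN : ∀ a, ∀ u ∈ F.shift.Q, sec a u ∈ N := by
        classical
        intro a u hu
        rw [sec_def]
        refine hN.big hB hm hm1 (fun b => ?_)
        by_cases hb : b = a
        · subst hb; rw [Pi.mulSingle_eq_same]; exact hu
        · rw [Pi.mulSingle_eq_of_ne hb]; exact F.shift.Q.one_mem
      have hfib : fib f ∈ ⁅N, F.Q⁆ := by
        refine fib_mem_of _ f (fun a => ?_)
        have : F.shift.Q ≤ ⁅N, F.Q⁆.comap (sec a) := by
          refine (Q_perfect hB).trans ?_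
          rw [Subgroup.commutator_le]
          intro u hu v hv
          rw [Subgroup.mem_comap, map_commutatorElement]
          exact Subgroup.commutator_mem_commutator (hfN a u hu) (sec_mem hB a hv)
        exact this (hf a)
      have hroot : root g ∈ N := by
        have := N.mul_mem (N.inv_mem (hN.big hB hm hm1 hf)) hq
        rwa [inv_mul_cancel_left] at this
      have hroot2 : root g ∈ ⁅N, F.Q⁆ := by
        have hnorm : (N.comap (root (F := F))).Normal := by
          constructor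
          intro h hh k
          rw [Subgroup.mem_comap, map_mul, map_mul, map_inv]
          exact hN.conj _ (root_mem k) _ hh
        have h4 := F.b4 0 _ hnorm
        have h5 : ⁅N.comap (root (F := F)), ⊤⁆ ≤ ⁅N, F.Q⁆.comap root := by
          rw [Subgroup.commutator_le]
          intro u hu v _
          rw [Subgroup.mem_comap, map_commutatorElement]
          exact Subgroup.commutator_mem_commutator hu (root_mem v)
        exact h5 (h4 hroot)
      exact Subgroup.mul_mem _ hfib hroot2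
    · push Not at h1
      obtain ⟨f₀, hf₀, _, rfl⟩ := exists_of_mem_stab (hN.le hn₀) (n := 0) (h1 _ hn₀)
      have h2 : ∃ a, f₀ a ∉ F.shift.stab n := by
        by_contra hcon
        push Not at hcon
        exact hn₁ (fib_mem_stab.2 hcon)
      obtain ⟨a₀, ha₀⟩ := h2
      have h3 := ih F.shift (F.prj N a₀) (hN.prj hB a₀) ⟨f₀ a₀, ⟨f₀, hn₀, rfl⟩, ha₀⟩
      have h4 : ∀ a, ∀ u ∈ F.prj N a₀, sec a u ∈ ⁅N, F.Q⁆ := by
        intro a
        have : F.prj N a₀ ≤ ⁅N, F.Q⁆.comap (sec a) := by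
          refine h3.trans ?_
          rw [Subgroup.commutator_le]
          intro u hu v hv
          obtain ⟨f, hf, rfl⟩ := prj_eq hN a hu
          change sec a ⁅f a, v⁆ ∈ ⁅N, F.Q⁆
          rw [sec_commutator]
          exact Subgroup.commutator_mem_commutator hf (sec_mem hB a hv)
        exact this
      intro q hq
      obtain ⟨f, hf, _, rfl⟩ := exists_of_mem_stab (hN.le hq) (n := 0) (h1 _ hq)
      exact fib_mem_of _ f (fun a => h4 a _ (prj_eq hN a₀ ⟨f, hq, rfl⟩))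

lemma exists_not_stab {q : Equiv.Perm F.Xi} (hq : q ≠ 1) : ∃ n, q ∉ F.stab n := by
  by_contra hcon
  push Not at hcon
  apply hq
  ext1 x
  funext i
  exact hcon (i + 1) x i (Nat.lt_succ_self i)

theorem Nrm.le_comm (hB : Perf B) {N : Subgroup (Equiv.Perm F.Xi)} (hN : Nrm F N) :
    N ≤ ⁅N, F.Q⁆ := by
  intro q hq
  by_cases h : q = 1
  · rw [h]; exact Subgroup.one_mem _
  · obtain ⟨n, hn⟩ := exists_not_stab h
    exact le_comm_aux hB n F N hN ⟨q, hq, hn⟩ hq

lemma Nrm.comm_mem {N : Subgroup (Equiv.Perm F.Xi)} (hN : Nrm F N) {u v : Equiv.Perm F.Xi}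
    (hu : u ∈ N) (hv : v ∈ F.Q) : ⁅u, v⁆ ∈ N := by
  rw [commutatorElement_def]
  have := N.mul_mem hu (hN.conj v hv _ (N.inv_mem hu))
  convert this using 1
  group

lemma Nrm.fib_low (hB : Perf B) {N : Subgroup (Equiv.Perm F.Xi)} (hN : Nrm F N)
    {f : F.X 0 → Equiv.Perm F.shift.Xi} : fib f ∈ N ↔ ∀ a, f a ∈ F.low N := by
  constructor
  · intro h a
    have h1 := (hN.prj hB a).le_comm hB
    have h2 : F.prj N a ≤ N.comap (sec a) := by
      refine h1.trans ?_
      rw [Subgroup.commutator_le]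
      rintro _ ⟨f', hf', rfl⟩ v hv
      change sec a ⁅f' a, v⁆ ∈ N
      rw [sec_commutator]
      exact hN.comm_mem hf' (sec_mem hB a hv)
    exact hN.move (h2 ⟨f, h, rfl⟩) _
  · intro h
    exact fib_mem_of N f (fun a => hN.move (h a) a)

lemma low_inj (hB : Perf B) {N N' : Subgroup (Equiv.Perm F.Xi)} (hN : Nrm F N) (hN' : Nrm F N')
    (h1 : N ≤ F.stab 1) (h1' : N' ≤ F.stab 1) (h : F.low N = F.low N') : N = N' := by
  have key : ∀ {N N' : Subgroup (Equiv.Perm F.Xi)}, Nrm F N → Nrm F N' → N ≤ F.stab 1 →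
      F.low N = F.low N' → N ≤ N' := by
    intro N N' hN hN' h1 h q hq
    obtain ⟨f, _, _, rfl⟩ := exists_of_mem_stab (hN.le hq) (n := 0) (h1 hq)
    rw [hN'.fib_low hB, ← h]
    exact (hN.fib_low hB).1 hq
  exact le_antisymm (key hN hN' h1 h) (key hN' hN h1' h.symm)

lemma low_le_stab {N : Subgroup (Equiv.Perm F.Xi)} {n : ℕ} (h : N ≤ F.stab (n + 1)) :
    F.low N ≤ F.shift.stab n := by
  classical
  intro u hu
  have h2 : sec (F.o 0) u ∈ F.stab (n + 1) := h hu
  rw [sec_def, fib_mem_stab] at h2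
  have := h2 (F.o 0)
  rwa [Pi.mulSingle_eq_same] at this

lemma not_low_le_stab (hB : Perf B) {N : Subgroup (Equiv.Perm F.Xi)} (hN : Nrm F N)
    (h1 : N ≤ F.stab 1) {n : ℕ} (h : ¬ N ≤ F.stab (n + 1)) : ¬ F.low N ≤ F.shift.stab n := by
  intro hcon
  apply h
  intro q hq
  obtain ⟨f, _, _, rfl⟩ := exists_of_mem_stab (hN.le hq) (n := 0) (h1 hq)
  rw [fib_mem_stab]
  intro a
  exact hcon ((hN.fib_low hB).1 hq a)

/-! ### The involution -/

variable (F) in
/-- the coordinatewise involution -/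
def rXi : Equiv.Perm F.Xi :=
  ⟨fun x i => F.rX i (x i), fun x i => F.rX i (x i), fun _ => funext fun i => F.rX2 i _,
    fun _ => funext fun i => F.rX2 i _⟩

lemma rXi_apply (x : F.Xi) (i : ℕ) : F.rXi x i = F.rX i (x i) := rfl

lemma rXi_rXi (x : F.Xi) : F.rXi (F.rXi x) = x := funext fun i => F.rX2 i _

lemma rXi_inv : (F.rXi)⁻¹ = F.rXi := rfl

lemma rXi_mul : F.rXi * F.rXi = 1 := by ext1 x; exact rXi_rXi x

lemma rXi_conj_root (g : F.G 0) : F.rXi * root g * F.rXi⁻¹ = root (F.rG 0 g) := by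
  ext1 x
  funext i
  cases i with
  | zero =>
    change F.rX 0 (g • F.rX 0 (x 0)) = F.rG 0 g • x 0
    rw [F.ract, F.rX2]
  | succ i => exact F.rX2 _ _

lemma cnd_rXi (x : F.Xi) (i : ℕ) : cnd (F.rXi x) i ↔ cnd x i := by
  have h1 : ∀ i (a : F.X i), F.rX i a = F.o i ↔ a = F.o i := by
    intro i a
    constructor
    · intro h
      rw [← F.ro i] at h
      exact (F.rX i).injective h
    · rintro rfl; exact F.ro i
  have h2 : ∀ i (a : F.X i), F.rX i a = F.y i ↔ a = F.y i := by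
    intro i a
    constructor
    · intro h
      rw [← F.ry i] at h
      exact (F.rX i).injective h
    · rintro rfl; exact F.ry i
  unfold cnd
  simp only [rXi_apply, h1, h2]

lemma rXi_conj_dd (b : B) : F.rXi * dd b * F.rXi⁻¹ = dd (F.rB b) := by
  ext1 x
  funext i
  change F.rX i (ddf b (F.rXi x) i) = ddf (F.rB b) x i
  cases i with
  | zero => exact F.rX2 _ _
  | succ i =>
    by_cases h : cnd x i
    · rw [ddf_pos h, ddf_pos ((cnd_rXi x i).2 h), F.ract, rXi_apply, F.rX2, F.rred]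
    · rw [ddf_neg h, ddf_neg (fun h2 => h ((cnd_rXi x i).1 h2)), rXi_apply, F.rX2]

lemma rXi_conj_Q {q : Equiv.Perm F.Xi} (hq : q ∈ F.Q) : F.rXi * q * F.rXi⁻¹ ∈ F.Q := by
  have h : F.Q ≤ F.Q.comap (MulAut.conj F.rXi).toMonoidHom := by
    apply sup_le
    · rintro _ ⟨g, rfl⟩
      change F.rXi * root g * F.rXi⁻¹ ∈ F.Q
      rw [rXi_conj_root]; exact root_mem _
    · rintro _ ⟨b, rfl⟩
      change F.rXi * dd b * F.rXi⁻¹ ∈ F.Q
      rw [rXi_conj_dd]; exact dd_mem _
  exact h hq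

lemma rXi_conj_sec (u : Equiv.Perm F.shift.Xi) :
    F.rXi * sec (F.o 0) u * F.rXi⁻¹ = sec (F.o 0) (F.shift.rXi * u * F.shift.rXi⁻¹) := by
  classical
  rw [sec_def, sec_def]
  ext1 x
  change F.rXi (fib (Pi.mulSingle (F.o 0) u) (F.rXi x)) = _
  rw [fib_apply, fib_apply]
  by_cases h : x 0 = F.o 0
  · have h2 : F.rXi x 0 = F.o 0 := by rw [rXi_apply, h, F.ro]
    rw [h, h2, Pi.mulSingle_eq_same, Pi.mulSingle_eq_same]
    funext i
    cases i with
    | zero => exact F.ro 0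
    | succ i => rfl
  · have h2 : F.rXi x 0 ≠ F.o 0 := by
      rw [rXi_apply]
      intro h3
      apply h
      rw [← F.ro 0] at h3
      exact (F.rX 0).injective h3
    rw [Pi.mulSingle_eq_of_ne h, Pi.mulSingle_eq_of_ne h2]
    funext i
    cases i with
    | zero => exact F.rX2 _ _
    | succ i => exact F.rX2 _ _

/-- invariance under the involution -/
def RInv (F : Fam B) (N : Subgroup (Equiv.Perm F.Xi)) : Prop := ∀ n ∈ N, F.rXi * n * F.rXi⁻¹ ∈ N

lemma RInv.low {N : Subgroup (Equiv.Perm F.Xi)} (h : RInv F N) : RInv F.shift (F.low N) := by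
  intro u hu
  change sec (F.o 0) (F.shift.rXi * u * F.shift.rXi⁻¹) ∈ N
  rw [← rXi_conj_sec]
  exact h _ hu

/-- invariant normal subgroups of a level group -/
def lvlInv (F : Fam B) (i : ℕ) : Set (Subgroup (F.G i)) := {N | N.Normal ∧ ∀ g ∈ N, F.rG i g ∈ N}

/-- invariant normal subgroups at a given level -/
def lev (F : Fam B) (n : ℕ) : Set (Subgroup (Equiv.Perm F.Xi)) :=
  {N | Nrm F N ∧ RInv F N ∧ N ≤ F.stab n ∧ ¬ N ≤ F.stab (n + 1)}

theorem count_le (hB : Perf B) : ∀ (n : ℕ) (F : Fam B), (lev F n).encard ≤ (lvlInv F n).encard := by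
  intro n
  induction n with
  | zero =>
    intro F
    refine Set.encard_le_encard_of_injOn (f := fun N => N.comap (root (F := F))) ?_ ?_
    · rintro N ⟨hN, hR, _, _⟩
      refine ⟨⟨fun n hn g => ?_⟩, fun g hg => ?_⟩
      · rw [Subgroup.mem_comap, map_mul, map_mul, map_inv]
        exact hN.conj _ (root_mem g) _ hn
      · rw [Subgroup.mem_comap, ← rXi_conj_root]
        exact hR _ hg
    · have key : ∀ N ∈ lev F 0, ∀ N' ∈ lev F 0, N.comap (root (F := F)) = N'.comap root → N ≤ N' := by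
        rintro N ⟨hN, _, _, h1⟩ N' ⟨hN', _, _, h1'⟩ e q hq
        obtain ⟨m, hm, hm1⟩ := Set.not_subset.1 h1
        obtain ⟨m', hm', hm1'⟩ := Set.not_subset.1 h1'
        obtain ⟨f, g, hf, rfl⟩ := exists_of_mem (hN.le hq)
        have h2 : root g ∈ N := by
          have := N.mul_mem (N.inv_mem (hN.big hB hm hm1 hf)) hq
          rwa [inv_mul_cancel_left] at this
        have h3 : g ∈ N'.comap (root (F := F)) := by rw [← e]; exact h2
        exact N'.mul_mem (hN'.big hB hm' hm1' hf) h3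
      intro N hN N' hN' e
      exact le_antisymm (key N hN N' hN' e) (key N' hN' N hN e.symm)
  | succ n ih =>
    intro F
    refine le_trans ?_ (ih F.shift)
    refine Set.encard_le_encard_of_injOn (f := fun N => F.low N) ?_ ?_
    · rintro N ⟨hN, hR, h1, h2⟩
      refine ⟨hN.low hB, hR.low, low_le_stab h1, not_low_le_stab hB hN (h1.trans (stab_mono (by omega))) h2⟩
    · rintro N ⟨hN, hR, h1, h2⟩ N' ⟨hN', hR', h1', h2'⟩ e
      exact low_inj hB hN hN' (h1.trans (stab_mono (by omega))) (h1'.trans (stab_mono (by omega))) e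

/-- the normal subgroup of `Q` lying over a normal subgroup of the first level group -/
def up0 (F : Fam B) (N : Subgroup (F.G 0)) : Subgroup (Equiv.Perm F.Xi) where
  carrier := {q | q ∈ F.Q ∧ ∃ g ∈ N, ∀ x, q x 0 = g • x 0}
  one_mem' := ⟨F.Q.one_mem, 1, N.one_mem, fun x => by simp⟩
  mul_mem' := by
    rintro p q ⟨hp, g, hg, e⟩ ⟨hq, h, hh, e'⟩
    exact ⟨F.Q.mul_mem hp hq, g * h, N.mul_mem hg hh, fun x => by
      rw [Equiv.Perm.mul_apply, e, e', mul_smul]⟩
  inv_mem' := by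
    rintro q ⟨hq, g, hg, e⟩
    refine ⟨F.Q.inv_mem hq, g⁻¹, N.inv_mem hg, fun x => ?_⟩
    rw [eq_inv_smul_iff, ← e]
    have : q (q⁻¹ x) = x := q.apply_symm_apply x
    rw [this]

lemma up0_nrm {N : Subgroup (F.G 0)} (hN : N.Normal) : Nrm F (up0 F N) := by
  refine ⟨fun q hq => hq.1, ?_⟩
  rintro q hq n ⟨hn, g, hg, e⟩
  refine ⟨F.Q.mul_mem (F.Q.mul_mem hq hn) (F.Q.inv_mem hq), ?_⟩
  obtain ⟨f, h, _, rfl⟩ := exists_of_mem hq
  have e1 : ∀ x : F.Xi, (fib f * root h) x 0 = h • x 0 := fun x => rfl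
  refine ⟨h * g * h⁻¹, hN.conj_mem g hg h, fun x => ?_⟩
  rw [Equiv.Perm.mul_apply, Equiv.Perm.mul_apply, e1, e, mul_smul, mul_smul]
  have h2 : (fib f * root h)⁻¹ x 0 = h⁻¹ • x 0 := by
    rw [eq_inv_smul_iff, ← e1]
    have : (fib f * root h) ((fib f * root h)⁻¹ x) = x := (fib f * root h).apply_symm_apply x
    rw [this]
  rw [h2]

lemma root_mem_up0 {N : Subgroup (F.G 0)} {g : F.G 0} : root g ∈ up0 F N ↔ g ∈ N := by
  constructor
  · rintro ⟨_, h, hh, e⟩
    have : g = h := by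
      apply FaithfulSMul.eq_of_smul_eq_smul (α := F.X 0)
      intro a
      exact e (cons a (fun i => F.shift.o i))
    rwa [this]
  · intro h
    exact ⟨root_mem g, g, h, fun x => rfl⟩

/-- the normal subgroup of `Q` with all first-level sections in `M` -/
def up (F : Fam B) (M : Subgroup (Equiv.Perm F.shift.Xi)) : Subgroup (Equiv.Perm F.Xi) :=
  (Subgroup.pi Set.univ (fun _ : F.X 0 => M)).map fib

lemma mem_up {M : Subgroup (Equiv.Perm F.shift.Xi)} {f : F.X 0 → Equiv.Perm F.shift.Xi} :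
    fib f ∈ up F M ↔ ∀ a, f a ∈ M := by
  constructor
  · rintro ⟨f', hf', e⟩
    rw [← fib_inj e]
    intro a
    exact hf' a (Set.mem_univ a)
  · intro h
    exact ⟨f, fun a _ => h a, rfl⟩

lemma up_nrm (hB : Perf B) {M : Subgroup (Equiv.Perm F.shift.Xi)} (hM : Nrm F.shift M) :
    Nrm F (up F M) := by
  constructor
  · rintro _ ⟨f, hf, rfl⟩
    exact fib_mem hB (fun a => hM.le (hf a (Set.mem_univ a)))
  · rintro q hq _ ⟨f, hf, rfl⟩
    obtain ⟨k, g, hk, rfl⟩ := exists_of_mem hq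
    have e : (fib k * root g) * fib f * (fib k * root g)⁻¹ =
        fib (fun a => k a * f (g⁻¹ • a) * (k a)⁻¹) := by
      have e1 : (fib k * root g) * fib f * (fib k * root g)⁻¹ =
        fib k * (root g * fib f * (root g)⁻¹) * (fib k)⁻¹ := by group
      rw [e1, root_conj, ← map_inv, ← map_mul, ← map_mul]
      rfl
    rw [e, mem_up]
    intro a
    exact hM.conj _ (hk a) _ (hf _ (Set.mem_univ _))

theorem low_bound (hB : Perf B) : ∀ (n : ℕ) (F : Fam B),
    {N : Subgroup (F.G n) | N.Normal}.encard ≤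
      {N : Subgroup (Equiv.Perm F.Xi) | Nrm F N ∧ F.Q ⊓ F.stab (n + 1) ≤ N}.encard := by
  intro n
  induction n with
  | zero =>
    intro F
    refine Set.encard_le_encard_of_injOn (f := fun N => up0 F N) ?_ ?_
    · intro N hN
      refine ⟨up0_nrm hN, ?_⟩
      rintro q ⟨hq, hs⟩
      exact ⟨hq, 1, N.one_mem, fun x => by rw [one_smul]; exact hs x 0 Nat.one_pos⟩
    · intro N _ N' _ e
      have e' : up0 F N = up0 F N' := e
      ext g
      rw [← root_mem_up0, e', root_mem_up0]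
  | succ n ih =>
    intro F
    refine (ih F.shift).trans ?_
    refine Set.encard_le_encard_of_injOn (f := fun M => up F M) ?_ ?_
    · rintro M ⟨hM, hs⟩
      refine ⟨up_nrm hB hM, ?_⟩
      rintro q ⟨hq, hq2⟩
      obtain ⟨f, h1, h2, rfl⟩ := exists_of_mem_stab hq hq2
      rw [mem_up]
      intro a
      exact hs ⟨h1 a, h2 a⟩
    · intro M _ M' _ e
      have e' : up F M = up F M' := e
      ext u
      have h1 : (fib (fun _ : F.X 0 => u) ∈ up F M) ↔ u ∈ M := by
        rw [mem_up]; exact ⟨fun h => h (F.o 0), fun h _ => h⟩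
      have h2 : (fib (fun _ : F.X 0 => u) ∈ up F M') ↔ u ∈ M' := by
        rw [mem_up]; exact ⟨fun h => h (F.o 0), fun h _ => h⟩
      rw [← h1, e', h2]

end Fam

end Pool.Agent.W5h69.Seg
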