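import Mathlib

set_option autoImplicit false

/-! # Restricted permutational wreath products -/

namespace Pool.Agent.W5h69.Seg

open Classical in
/-- The restricted permutational wreath product: finitely supported functions `Ω → S`
together with an element of `G` acting on `Ω`. -/
@[ext] structure Wr (S Ω G : Type) [Group S] [Group G] [MulAction G Ω] where
  /-- the base function -/
  f : Ω → S
  /-- the top element -/
  g : G
  /-- finite support -/
  fin : (Function.mulSupport f).Finite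

namespace Wr

variable {S Ω G : Type} [Group S] [Group G] [MulAction G Ω]

lemma fin_smul {f : Ω → S} (hf : (Function.mulSupport f).Finite) (g : G) :
    (Function.mulSupport (fun ω => f (g • ω))).Finite := by
  have h : Function.mulSupport (fun ω => f (g • ω)) = (fun ω => g • ω) ⁻¹' Function.mulSupport f := by
    ext ω; simp
  rw [h]
  exact hf.preimage ((MulAction.injective g).injOn)

instance : Mul (Wr S Ω G) := ⟨fun a b =>
  ⟨fun ω => a.f ω * b.f (a.g⁻¹ • ω), a.g * b.g, by
    refine (a.fin.union (fin_smul b.fin a.g⁻¹)).subset ?_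
    exact Function.mulSupport_mul _ _⟩⟩

instance : One (Wr S Ω G) := ⟨⟨fun _ => 1, 1, by simp⟩⟩

instance : Inv (Wr S Ω G) := ⟨fun a => ⟨fun ω => (a.f (a.g • ω))⁻¹, a.g⁻¹, by
    have := fin_smul a.fin a.g
    refine this.subset ?_
    intro ω; simp⟩⟩

@[simp] lemma mul_f (a b : Wr S Ω G) (ω : Ω) : (a * b).f ω = a.f ω * b.f (a.g⁻¹ • ω) := rfl
@[simp] lemma mul_g (a b : Wr S Ω G) : (a * b).g = a.g * b.g := rfl
@[simp] lemma one_f (ω : Ω) : (1 : Wr S Ω G).f ω = 1 := rfl
@[simp] lemma one_g : (1 : Wr S Ω G).g = 1 := rfl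
@[simp] lemma inv_f (a : Wr S Ω G) (ω : Ω) : (a⁻¹).f ω = (a.f (a.g • ω))⁻¹ := rfl
@[simp] lemma inv_g (a : Wr S Ω G) : (a⁻¹).g = a.g⁻¹ := rfl

instance : Group (Wr S Ω G) := Group.ofLeftAxioms
  (by
    intro a b c
    ext ω
    · simp [mul_assoc, mul_smul]
    · simp [mul_assoc])
  (by intro a; ext ω <;> simp)
  (by intro a; ext ω <;> simp)

/-- projection to the top group -/
def proj : Wr S Ω G →* G where
  toFun w := w.g
  map_one' := rfl
  map_mul' _ _ := rfl

@[simp] lemma proj_apply (w : Wr S Ω G) : proj w = w.g := rfl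

/-- the top group as a subgroup -/
def lift : G →* Wr S Ω G where
  toFun g := ⟨fun _ => 1, g, by simp⟩
  map_one' := rfl
  map_mul' a b := by ext ω <;> simp

@[simp] lemma lift_f (g : G) (ω : Ω) : (lift g : Wr S Ω G).f ω = 1 := rfl
@[simp] lemma lift_g (g : G) : (lift g : Wr S Ω G).g = g := rfl

lemma lift_injective : Function.Injective (lift : G → Wr S Ω G) := by
  intro a b h
  exact congrArg Wr.g h

lemma proj_surjective : Function.Surjective (proj : Wr S Ω G → G) := fun g => ⟨lift g, rfl⟩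

open Classical in
/-- the coordinate copy of `S` at `ω` -/
noncomputable def sg (ω : Ω) : S →* Wr S Ω G where
  toFun s := ⟨Pi.mulSingle ω s, 1, (Set.finite_singleton ω).subset Pi.mulSupport_mulSingle_subset⟩
  map_one' := by ext η <;> simp
  map_mul' a b := by
    ext η
    · simp [Pi.mulSingle_mul]
    · simp

open Classical in
lemma sg_f (ω : Ω) (s : S) (η : Ω) : (sg ω s : Wr S Ω G).f η = (Pi.mulSingle ω s : Ω → S) η := rfl

@[simp] lemma sg_f_self (ω : Ω) (s : S) : (sg ω s : Wr S Ω G).f ω = s := by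
  classical
  rw [sg_f]; simp

lemma sg_f_ne {ω η : Ω} (h : η ≠ ω) (s : S) : (sg ω s : Wr S Ω G).f η = 1 := by
  classical
  rw [sg_f]; simp [h]

@[simp] lemma sg_g (ω : Ω) (s : S) : (sg ω s : Wr S Ω G).g = 1 := rfl

lemma sg_inj {ω ω' : Ω} {s s' : S} (h : (sg ω s : Wr S Ω G) = sg ω' s') (hs : s ≠ 1) :
    ω = ω' ∧ s = s' := by
  have h1 : (sg ω s : Wr S Ω G).f ω = (sg ω' s' : Wr S Ω G).f ω := by rw [h]
  rw [sg_f_self] at h1
  by_cases hω : ω = ω'
  · subst hω
    rw [sg_f_self] at h1
    exact ⟨rfl, h1⟩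
  · rw [sg_f_ne hω] at h1
    exact absurd h1 hs

lemma sg_ne_one {ω : Ω} {s : S} (hs : s ≠ 1) : (sg ω s : Wr S Ω G) ≠ 1 := by
  intro h
  apply hs
  have := congrArg (fun w : Wr S Ω G => w.f ω) h
  simpa using this

lemma conj_sg (w : Wr S Ω G) (ω : Ω) (s : S) :
    w * sg ω s * w⁻¹ = sg (w.g • ω) (w.f (w.g • ω) * s * (w.f (w.g • ω))⁻¹) := by
  ext η
  · by_cases hη : η = w.g • ω
    · subst hη
      simp
    · rw [sg_f_ne hη]
      have h2 : w.g⁻¹ • η ≠ ω := by
        intro h; apply hη; rw [← h, smul_inv_smul]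
      simp [sg_f_ne h2]
  · simp

/-- Membership of a base element follows from membership of its coordinates. -/
lemma base_mem (N : Subgroup (Wr S Ω G)) (w : Wr S Ω G) (hw : w.g = 1)
    (h : ∀ ω, sg ω (w.f ω) ∈ N) : w ∈ N := by
  classical
  have key : ∀ (t : Finset Ω) (w : Wr S Ω G), w.g = 1 → Function.mulSupport w.f ⊆ t →
      (∀ ω, sg ω (w.f ω) ∈ N) → w ∈ N := by
    intro t
    induction t using Finset.induction_on with
    | empty =>
      intro w hw hs _
      have : w = 1 := by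
        ext ω
        · by_contra hne
          exact absurd (hs hne) (by simp)
        · simp [hw]
      rw [this]; exact N.one_mem
    | insert a t ha ih =>
      intro w hw hs hm
      have h1 : (sg a (w.f a))⁻¹ * w ∈ N := by
        apply ih
        · simp [hw]
        · intro ω hω
          by_cases hωa : ω = a
          · subst hωa
            exfalso
            apply hω
            rw [← map_inv]
            simp
          · have h2 : ((sg a (w.f a))⁻¹ * w).f ω = w.f ω := by
              rw [← map_inv]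
              simp [sg_f_ne hωa]
            have h3 : ω ∈ Function.mulSupport w.f := by
              intro h4; apply hω; rw [h2, h4]
            have := hs h3
            simp only [Finset.coe_insert, Set.mem_insert_iff] at this
            exact this.resolve_left hωa
        · intro ω
          by_cases hωa : ω = a
          · subst hωa
            have : ((sg ω (w.f ω))⁻¹ * w).f ω = 1 := by
              rw [← map_inv]; simp
            rw [this, map_one]; exact N.one_mem
          · have h2 : ((sg a (w.f a))⁻¹ * w).f ω = w.f ω := by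
              rw [← map_inv]
              simp [sg_f_ne hωa]
            rw [h2]; exact hm ω
      have h5 := N.mul_mem (hm a) h1
      rwa [mul_inv_cancel_left] at h5
  exact key w.fin.toFinset w hw (by simp) h

lemma decomp (w : Wr S Ω G) : ∃ b : Wr S Ω G, b.g = 1 ∧ w = b * lift w.g ∧ b.f = w.f := by
  refine ⟨⟨w.f, 1, w.fin⟩, rfl, ?_, rfl⟩
  ext ω <;> simp

section UMN

/-- a nonabelian simple group, in the form we use it -/
structure SimpNA (S : Type) [Group S] : Prop where
  simple : ∀ N : Subgroup S, N.Normal → N ≠ ⊥ → N = ⊤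
  nc : ∀ s : S, s ≠ 1 → ∃ t, s * t * s⁻¹ * t⁻¹ ≠ 1
  ne : ∃ s : S, s ≠ 1

variable (hS : SimpNA S)
include hS

/-- a subgroup normalised by the base and meeting it nontrivially contains a coordinate copy -/
lemma single_le (M : Subgroup (Wr S Ω G))
    (hn : ∀ k : Wr S Ω G, k.g = 1 → ∀ m ∈ M, k * m * k⁻¹ ∈ M)
    {w : Wr S Ω G} (hw : w ∈ M) (hw1 : w.g = 1) {ω : Ω} (hω : w.f ω ≠ 1) :
    ∀ s, sg ω s ∈ M := by
  obtain ⟨t, ht⟩ := hS.nc _ hω
  have h1 : sg ω (w.f ω * t * (w.f ω)⁻¹ * t⁻¹) ∈ M := by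
    have h2 : w * (sg ω t * w⁻¹ * (sg ω t)⁻¹) ∈ M :=
      M.mul_mem hw (hn (sg ω t) (sg_g ω t) _ (M.inv_mem hw))
    have h3 : w * (sg ω t * w⁻¹ * (sg ω t)⁻¹) = sg ω (w.f ω * t * (w.f ω)⁻¹ * t⁻¹) := by
      rw [map_mul (sg ω), map_inv (sg ω)]
      have := conj_sg w ω t
      rw [hw1, one_smul] at this
      rw [← this]; group
    rwa [h3] at h2
  have h4 : (M.comap (sg ω : S →* Wr S Ω G)) = ⊤ := by
    apply hS.simple
    · constructor
      intro n hn' g
      rw [Subgroup.mem_comap, map_mul, map_mul, map_inv]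
      exact hn _ (sg_g ω g) _ hn'
    · intro h5
      have h6 : (w.f ω * t * (w.f ω)⁻¹ * t⁻¹) ∈ (M.comap (sg ω : S →* Wr S Ω G)) := h1
      rw [h5, Subgroup.mem_bot] at h6
      exact ht h6
  intro s
  have : s ∈ (M.comap (sg ω : S →* Wr S Ω G)) := by rw [h4]; exact Subgroup.mem_top s
  exact this

/-- every nontrivial normal subgroup contains the base -/
theorem base_le [MulAction.IsPretransitive G Ω] [FaithfulSMul G Ω]
    (N : Subgroup (Wr S Ω G)) (hN : N.Normal) (hne : N ≠ ⊥) :
    ∀ w : Wr S Ω G, w.g = 1 → w ∈ N := by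
  -- find a nontrivial base element
  have h1 : ∃ w ∈ N, w.g = 1 ∧ ∃ ω, w.f ω ≠ 1 := by
    obtain ⟨w, hw, hw1⟩ : ∃ w, w ∈ N ∧ w ≠ 1 := by
      by_contra hcon
      push Not at hcon
      exact hne ((Subgroup.eq_bot_iff_forall N).2 hcon)
    by_cases hg : w.g = 1
    · refine ⟨w, hw, hg, ?_⟩
      by_contra hcon
      push Not at hcon
      apply hw1
      ext ω
      · simp [hcon ω]
      · simp [hg]
    · have : ∃ ω : Ω, w.g • ω ≠ ω := by
        by_contra hcon
        push Not at hcon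
        apply hg
        apply FaithfulSMul.eq_of_smul_eq_smul (α := Ω)
        intro a; rw [hcon a, one_smul]
      obtain ⟨ω, hω⟩ := this
      obtain ⟨s, hs⟩ := hS.ne
      refine ⟨w * (sg ω s * w⁻¹ * (sg ω s)⁻¹), N.mul_mem hw (hN.conj_mem _ (N.inv_mem hw) _),
        by simp, ω, ?_⟩
      have h3 : w * (sg ω s * w⁻¹ * (sg ω s)⁻¹) = (w * sg ω s * w⁻¹) * sg ω s⁻¹ := by
        rw [map_inv]; group
      rw [h3, conj_sg, mul_f, sg_f_ne (Ne.symm hω)]
      simpa using hs
  obtain ⟨w, hw, hw1, ω, hω⟩ := h1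
  have h2 : ∀ s, sg ω s ∈ N := single_le hS N (fun k _ m hm => hN.conj_mem m hm k) hw hw1 hω
  have h3 : ∀ η s, sg η s ∈ N := by
    intro η s
    obtain ⟨g, rfl⟩ := MulAction.exists_smul_eq G ω η
    have := hN.conj_mem _ (h2 s) (lift g)
    rw [conj_sg] at this
    simpa using this
  intro v hv
  exact base_mem N v hv (fun η => h3 η _)

end UMN

section FG

/-- finite generation -/
theorem fg_wr [Finite S] [MulAction.IsPretransitive G Ω] (ω₀ : Ω) (hG : Group.FG G) :
    Group.FG (Wr S Ω G) := by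
  obtain ⟨T, hT, hTf⟩ := (Group.fg_iff (G := G)).1 hG
  refine (Group.fg_iff).2 ⟨(lift '' T) ∪ Set.range (sg ω₀ : S → Wr S Ω G), ?_,
    (hTf.image _).union (Set.finite_range _)⟩
  set H := Subgroup.closure ((lift '' T) ∪ Set.range (sg ω₀ : S → Wr S Ω G)) with hH
  have h1 : ∀ g : G, lift g ∈ H := by
    intro g
    have h2 : (Subgroup.closure T) ≤ H.comap lift := by
      rw [Subgroup.closure_le]
      intro t ht
      exact Subgroup.subset_closure (Or.inl ⟨t, ht, rfl⟩)
    have h3 : g ∈ Subgroup.closure T := by rw [hT]; exact Subgroup.mem_top g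
    exact h2 h3
  have h2 : ∀ s, sg ω₀ s ∈ H := fun s => Subgroup.subset_closure (Or.inr ⟨s, rfl⟩)
  have h3 : ∀ η s, sg η s ∈ H := by
    intro η s
    obtain ⟨g, rfl⟩ := MulAction.exists_smul_eq G ω₀ η
    have := H.mul_mem (H.mul_mem (h1 g) (h2 s)) (H.inv_mem (h1 g))
    rw [conj_sg] at this
    simpa using this
  rw [eq_top_iff]
  intro w _
  obtain ⟨b, hb, hw, _⟩ := decomp w
  rw [hw]
  exact H.mul_mem (base_mem H b hb (fun η => h3 η _)) (h1 _)

end FG

section Functor

variable {G' Ω' : Type} [Group G'] [MulAction G' Ω']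

/-- functoriality of the wreath product -/
def mapEquiv (α : G ≃* G') (σ : Ω ≃ Ω') (h : ∀ (g : G) (ω : Ω), σ (g • ω) = α g • σ ω) :
    Wr S Ω G ≃* Wr S Ω' G' where
  toFun w := ⟨fun ω => w.f (σ.symm ω), α w.g, by
    have : Function.mulSupport (fun ω => w.f (σ.symm ω)) = σ.symm ⁻¹' Function.mulSupport w.f := rfl
    rw [this]
    exact w.fin.preimage σ.symm.injective.injOn⟩
  invFun w := ⟨fun ω => w.f (σ ω), α.symm w.g, by
    have : Function.mulSupport (fun ω => w.f (σ ω)) = σ ⁻¹' Function.mulSupport w.f := rfl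
    rw [this]
    exact w.fin.preimage σ.injective.injOn⟩
  left_inv w := by ext ω <;> simp
  right_inv w := by ext ω <;> simp
  map_mul' a b := by
    ext ω
    · have h1 : σ.symm ((α a.g)⁻¹ • ω) = a.g⁻¹ • σ.symm ω := by
        rw [Equiv.symm_apply_eq, h, Equiv.apply_symm_apply, map_inv]
      simp [h1]
    · simp

@[simp] lemma mapEquiv_g (α : G ≃* G') (σ : Ω ≃ Ω') (h : ∀ (g : G) (ω : Ω), σ (g • ω) = α g • σ ω)
    (w : Wr S Ω G) : (mapEquiv α σ h w).g = α w.g := rfl

@[simp] lemma mapEquiv_f (α : G ≃* G') (σ : Ω ≃ Ω') (h : ∀ (g : G) (ω : Ω), σ (g • ω) = α g • σ ω)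
    (w : Wr S Ω G) (ω : Ω') : (mapEquiv α σ h w).f ω = w.f (σ.symm ω) := rfl

end Functor

end Wr

end Pool.Agent.W5h69.Seg
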