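import Mathlib
import Pool.Agent.W5h69.Seg.Wr

set_option autoImplicit false

/-! # Automorphisms of restricted permutational wreath products -/

namespace Pool.Agent.W5h69.Seg

/-- `K` is covered by finitely many left cosets of `I`. -/
def Cov {A : Type} [Group A] (I : Subgroup A) (K : Set A) : Prop :=
  ∃ F : Set A, F.Finite ∧ ∀ k ∈ K, ∃ f ∈ F, f⁻¹ * k ∈ I

lemma cov_step {A α : Type} [Group A] (I : Subgroup A) {K K' : Set A} (hK' : Cov I K')
    (c : A → α) (D : Set α) (hD : D.Finite) (hc : ∀ k ∈ K, c k ∈ D)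
    (h : ∀ k₁ ∈ K, ∀ k₂ ∈ K, c k₁ = c k₂ → k₁⁻¹ * k₂ ∈ K') : Cov I K := by
  classical
  obtain ⟨F, hF, hF'⟩ := hK'
  let rep : α → A := fun v => if h : ∃ k ∈ K, c k = v then h.choose else 1
  have hrep : ∀ k ∈ K, rep (c k) ∈ K ∧ c (rep (c k)) = c k := by
    intro k hk
    have hex : ∃ k' ∈ K, c k' = c k := ⟨k, hk, rfl⟩
    have : rep (c k) = hex.choose := by simp only [rep]; rw [dif_pos hex]
    rw [this]; exact hex.choose_spec
  refine ⟨Set.image2 (fun v f => rep v * f) D F, hD.image2 _ hF, ?_⟩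
  intro k hk
  obtain ⟨h1, h2⟩ := hrep k hk
  obtain ⟨f, hf, hf'⟩ := hF' _ (h _ h1 k hk h2)
  refine ⟨rep (c k) * f, Set.mem_image2_of_mem (hc k hk) hf, ?_⟩
  rw [mul_inv_rev, mul_assoc]; exact hf'

lemma cov_mod {A : Type} [Group A] (I : Subgroup A) {K K' : Set A} (hK' : Cov I K')
    (h : ∀ k ∈ K, ∃ i ∈ I, k * i ∈ K') : Cov I K := by
  obtain ⟨F, hF, hF'⟩ := hK'
  refine ⟨F, hF, fun k hk => ?_⟩
  obtain ⟨i, hi, hki⟩ := h k hk
  obtain ⟨f, hf, hf'⟩ := hF' _ hki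
  refine ⟨f, hf, ?_⟩
  have := I.mul_mem hf' (I.inv_mem hi)
  rwa [← mul_assoc, mul_inv_cancel_right] at this

lemma cov_finite {A : Type} [Group A] (I : Subgroup A) (h : Cov I Set.univ) : Finite (A ⧸ I) := by
  obtain ⟨F, hF, hF'⟩ := h
  have : Finite F := hF
  apply Finite.of_surjective (fun f : F => (QuotientGroup.mk (f : A) : A ⧸ I))
  intro q
  obtain ⟨a, rfl⟩ := QuotientGroup.mk_surjective q
  obtain ⟨f, hf, hf'⟩ := hF' a (Set.mem_univ a)
  exact ⟨⟨f, hf⟩, QuotientGroup.eq.2 hf'⟩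

namespace Wr

variable {S Ω G : Type} [Group S] [Group G] [MulAction G Ω] (hS : SimpNA S)
  [MulAction.IsPretransitive G Ω] [FaithfulSMul G Ω]

include hS in
lemma aut_base (θ : MulAut (Wr S Ω G)) {w : Wr S Ω G} (hw : w.g = 1) : (θ w).g = 1 := by
  by_cases hw1 : w = 1
  · rw [hw1, map_one, one_g]
  have hN : ((proj : Wr S Ω G →* G).ker.map (θ⁻¹ : MulAut (Wr S Ω G)).toMonoidHom).Normal :=
    Subgroup.Normal.map inferInstance _ (θ⁻¹ : MulAut (Wr S Ω G)).surjective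
  have h1 := base_le hS _ hN (by
    intro hbot
    have h2 : (θ⁻¹ : MulAut (Wr S Ω G)) w ∈
        ((proj : Wr S Ω G →* G).ker.map (θ⁻¹ : MulAut (Wr S Ω G)).toMonoidHom) :=
      ⟨w, hw, rfl⟩
    rw [hbot, Subgroup.mem_bot] at h2
    apply hw1
    exact (map_eq_one_iff _ (θ⁻¹ : MulAut (Wr S Ω G)).injective).1 h2) w hw
  obtain ⟨w', hw', hww⟩ := h1
  have h3 : θ w = w' := by
    rw [← hww]
    change (θ * θ⁻¹) w' = w'
    rw [mul_inv_cancel]; rfl
  rw [h3]; exact hw'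

include hS in
lemma aut_single_surj (θ : MulAut (Wr S Ω G)) (ω : Ω) :
    ∃ ω' : Ω, ∀ s' : S, ∃ s : S, θ (sg ω s) = sg ω' s' := by
  obtain ⟨s, hs⟩ := hS.ne
  have h1 : θ (sg ω s) ≠ 1 := by
    intro h
    exact sg_ne_one hs ((map_eq_one_iff _ θ.injective).1 h)
  have h2 : (θ (sg ω s)).g = 1 := aut_base hS θ (sg_g ω s)
  obtain ⟨ω', hω'⟩ : ∃ ω', (θ (sg ω s)).f ω' ≠ 1 := by
    by_contra hcon
    push Not at hcon
    apply h1
    ext η
    · simp [hcon η]
    · simp [h2]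
  refine ⟨ω', ?_⟩
  have h3 := single_le hS ((sg ω : S →* Wr S Ω G).range.map θ.toMonoidHom) (by
    rintro k hk m ⟨_, ⟨t, rfl⟩, rfl⟩
    have hk' : (θ⁻¹ k).g = 1 := aut_base hS θ⁻¹ hk
    refine ⟨θ⁻¹ k * sg ω t * (θ⁻¹ k)⁻¹, ?_, ?_⟩
    · rw [conj_sg, hk', one_smul]
      exact ⟨_, rfl⟩
    · simp) (w := θ (sg ω s)) ⟨sg ω s, ⟨s, rfl⟩, rfl⟩ h2 hω'
  intro s'
  obtain ⟨_, ⟨t, rfl⟩, ht⟩ := h3 s'
  exact ⟨t, ht⟩

include hS in
lemma aut_single (θ : MulAut (Wr S Ω G)) (ω : Ω) :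
    ∃ ω' : Ω, ∀ s : S, ∃ s' : S, θ (sg ω s) = sg ω' s' := by
  obtain ⟨ω', h1⟩ := aut_single_surj hS θ ω
  obtain ⟨ω'', h2⟩ := aut_single_surj hS θ⁻¹ ω'
  have key : ∀ w, θ (θ⁻¹ w) = w := by
    intro w
    change (θ * θ⁻¹) w = w
    rw [mul_inv_cancel]; rfl
  have h3 : ω'' = ω := by
    obtain ⟨s'', hs''⟩ := hS.ne
    obtain ⟨s', hs'⟩ := h2 s''
    obtain ⟨s, hs⟩ := h1 s'
    have h4 : (sg ω s : Wr S Ω G) = sg ω'' s'' := by
      apply θ.injective
      rw [hs, ← hs', key]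
    exact (sg_inj h4.symm hs'').1
  subst h3
  refine ⟨ω', fun s => ?_⟩
  obtain ⟨s', hs'⟩ := h2 s
  exact ⟨s', by rw [← hs', key]⟩

/-- the permutation of `Ω` induced by an automorphism -/
noncomputable def permFun (θ : MulAut (Wr S Ω G)) (ω : Ω) : Ω := (aut_single hS θ ω).choose

lemma permFun_spec (θ : MulAut (Wr S Ω G)) (ω : Ω) (s : S) :
    ∃ s', θ (sg ω s) = sg (permFun hS θ ω) s' := (aut_single hS θ ω).choose_spec s

lemma permFun_uniq {θ : MulAut (Wr S Ω G)} {ω η : Ω} {s s' : S} (hs : s ≠ 1)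
    (h : θ (sg ω s) = sg η s') : permFun hS θ ω = η := by
  obtain ⟨s'', hs''⟩ := permFun_spec hS θ ω s
  rw [hs''] at h
  refine (sg_inj h ?_).1
  intro h1
  rw [h1, map_one] at hs''
  exact sg_ne_one hs ((map_eq_one_iff _ θ.injective).1 hs'')

lemma permFun_mul (θ θ' : MulAut (Wr S Ω G)) (ω : Ω) :
    permFun hS (θ * θ') ω = permFun hS θ (permFun hS θ' ω) := by
  obtain ⟨s, hs⟩ := hS.ne
  obtain ⟨s', hs'⟩ := permFun_spec hS θ' ω s
  obtain ⟨s'', hs''⟩ := permFun_spec hS θ (permFun hS θ' ω) s'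
  apply permFun_uniq hS hs (s' := s'')
  rw [MulAut.mul_apply, hs', hs'']

lemma permFun_one (ω : Ω) : permFun hS (1 : MulAut (Wr S Ω G)) ω = ω := by
  obtain ⟨s, hs⟩ := hS.ne
  exact permFun_uniq hS hs (s' := s) rfl

/-- the permutation of `Ω` induced by an automorphism, as a homomorphism -/
noncomputable def sig : MulAut (Wr S Ω G) →* Equiv.Perm Ω where
  toFun θ := ⟨permFun hS θ, permFun hS θ⁻¹,
    fun ω => by rw [← permFun_mul, inv_mul_cancel, permFun_one],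
    fun ω => by rw [← permFun_mul, mul_inv_cancel, permFun_one]⟩
  map_one' := by ext ω; exact permFun_one hS ω
  map_mul' a b := by ext ω; exact permFun_mul hS a b ω

lemma sig_spec (θ : MulAut (Wr S Ω G)) (ω : Ω) (s : S) :
    ∃ s', θ (sg ω s) = sg (sig hS θ ω) s' := permFun_spec hS θ ω s

lemma sig_uniq {θ : MulAut (Wr S Ω G)} {ω η : Ω} {s s' : S} (hs : s ≠ 1)
    (h : θ (sg ω s) = sg η s') : sig hS θ ω = η := permFun_uniq hS hs h

include hS in
lemma aut_g (θ : MulAut (Wr S Ω G)) (w : Wr S Ω G) : (θ w).g = (θ (lift w.g)).g := by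
  obtain ⟨b, hb, hw, _⟩ := decomp w
  have h1 := aut_base hS θ hb
  conv_lhs => rw [hw]
  rw [map_mul, mul_g, h1, one_mul]

/-- the automorphism of the top group induced by an automorphism -/
noncomputable def alp : MulAut (Wr S Ω G) →* MulAut G where
  toFun θ :=
    { toFun := fun g => (θ (lift g)).g
      invFun := fun g => (θ⁻¹ (lift g)).g
      left_inv := by
        intro g
        change (θ⁻¹ (lift (θ (lift g)).g)).g = g
        rw [← aut_g hS]
        change ((θ⁻¹ * θ) (lift g)).g = g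
        rw [inv_mul_cancel]; rfl
      right_inv := by
        intro g
        change (θ (lift (θ⁻¹ (lift g)).g)).g = g
        rw [← aut_g hS]
        change ((θ * θ⁻¹) (lift g)).g = g
        rw [mul_inv_cancel]; rfl
      map_mul' := by intro a b; simp }
  map_one' := by ext g; rfl
  map_mul' a b := by
    ext g
    change (a (b (lift g))).g = (a (lift (b (lift g)).g)).g
    rw [← aut_g hS]

lemma alp_apply (θ : MulAut (Wr S Ω G)) (g : G) : alp hS θ g = (θ (lift g)).g := rfl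

lemma alp_g (θ : MulAut (Wr S Ω G)) (w : Wr S Ω G) : (θ w).g = alp hS θ w.g := aut_g hS θ w

lemma sig_smul (θ : MulAut (Wr S Ω G)) (g : G) (ω : Ω) :
    sig hS θ (g • ω) = alp hS θ g • sig hS θ ω := by
  obtain ⟨s, hs⟩ := hS.ne
  obtain ⟨s', hs'⟩ := sig_spec hS θ ω s
  have h1 : (sg (g • ω) s : Wr S Ω G) = lift g * sg ω s * (lift g)⁻¹ := by
    rw [conj_sg]; simp
  have h2 : θ (sg (g • ω) s) = sg ((θ (lift g)).g • sig hS θ ω)
      ((θ (lift g)).f ((θ (lift g)).g • sig hS θ ω) * s' *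
        ((θ (lift g)).f ((θ (lift g)).g • sig hS θ ω))⁻¹) := by
    rw [h1, map_mul, map_mul, map_inv, hs', conj_sg]
  exact sig_uniq hS hs h2

lemma sig_conj (w : Wr S Ω G) (ω : Ω) : sig hS (MulAut.conj w) ω = w.g • ω := by
  obtain ⟨s, hs⟩ := hS.ne
  apply sig_uniq hS hs
  rw [MulAut.conj_apply, conj_sg]

lemma alp_conj (w : Wr S Ω G) : alp hS (MulAut.conj w) = MulAut.conj w.g := by
  ext g
  rw [alp_apply, MulAut.conj_apply, MulAut.conj_apply]
  simp

omit [MulAction.IsPretransitive G Ω] in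
include hS in
/-- an automorphism fixing every coordinate copy pointwise is trivial -/
lemma rigid (θ : MulAut (Wr S Ω G)) (h : ∀ ω s, θ (sg ω s) = sg ω s) : θ = 1 := by
  ext1 w
  change θ w = w
  set u := w⁻¹ * θ w with hu
  have h1 : ∀ ω s, u * sg ω s * u⁻¹ = sg ω s := by
    intro ω s
    have h2 : θ (w * sg ω s * w⁻¹) = w * sg ω s * w⁻¹ := by rw [conj_sg]; exact h _ _
    rw [map_mul, map_mul, map_inv, h] at h2
    have h3 : θ w * sg ω s * (θ w)⁻¹ = w * sg ω s * w⁻¹ := h2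
    calc u * sg ω s * u⁻¹ = w⁻¹ * (θ w * sg ω s * (θ w)⁻¹) * w := by rw [hu]; group
      _ = sg ω s := by rw [h3]; group
  have h4 : u.g = 1 := by
    apply FaithfulSMul.eq_of_smul_eq_smul (α := Ω)
    intro ω
    obtain ⟨s, hs⟩ := hS.ne
    have := h1 ω s
    rw [conj_sg] at this
    rw [one_smul]
    exact (sg_inj this.symm hs).1.symm
  have h5 : u = 1 := by
    ext ω
    · rw [one_f]
      by_contra hne
      obtain ⟨t, ht⟩ := hS.nc _ hne
      apply ht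
      have := h1 ω t
      rw [conj_sg, h4, one_smul] at this
      have h6 := congrArg (fun v : Wr S Ω G => v.f ω) this
      simp only [sg_f_self] at h6
      rw [h6, mul_inv_cancel]
    · exact h4
  have h6 : w * u = θ w := by rw [hu]; group
  rw [← h6, h5, mul_one]

include hS in
/-- The automorphisms inducing the identity on `Ω` are covered by finitely many cosets of the
inner ones, provided almost invariant functions are finitely many up to finite sets. -/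
theorem cov_ker [Infinite Ω]
    (hE : ∃ E : Set (Ω → (S → S)), E.Finite ∧ ∀ a : Ω → (S → S),
      (∀ g : G, {ω | a (g • ω) ≠ a ω}.Finite) → ∃ e ∈ E, {ω | a ω ≠ e ω}.Finite) :
    Cov (MulAut.conj : Wr S Ω G →* MulAut (Wr S Ω G)).range
      {θ : MulAut (Wr S Ω G) | sig hS θ = 1} := by
  classical
  obtain ⟨E, hEf, hE⟩ := hE
  let loc : MulAut (Wr S Ω G) → Ω → S → S := fun θ ω s => (θ (sg ω s)).f ω
  have hloc : ∀ θ : MulAut (Wr S Ω G), sig hS θ = 1 → ∀ ω s, θ (sg ω s) = sg ω (loc θ ω s) := by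
    intro θ hθ ω s
    obtain ⟨s', hs'⟩ := sig_spec hS θ ω s
    have h1 : sig hS θ ω = ω := by rw [hθ]; rfl
    rw [h1] at hs'
    have h2 : loc θ ω s = s' := by simp only [loc]; rw [hs', sg_f_self]
    rw [h2, hs']
  have halp : ∀ θ : MulAut (Wr S Ω G), sig hS θ = 1 → ∀ g, (θ (lift g)).g = g := by
    intro θ hθ g
    apply FaithfulSMul.eq_of_smul_eq_smul (α := Ω)
    intro ω
    have := sig_smul hS θ g ω
    rw [hθ] at this
    exact this.symm
  have hconj : ∀ θ : MulAut (Wr S Ω G), sig hS θ = 1 → ∀ g ω s, loc θ (g • ω) s =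
      (θ (lift g)).f (g • ω) * loc θ ω s * ((θ (lift g)).f (g • ω))⁻¹ := by
    intro θ hθ g ω s
    have h1 : (sg (g • ω) s : Wr S Ω G) = lift g * sg ω s * (lift g)⁻¹ := by
      rw [conj_sg]; simp
    have h2 := hloc θ hθ (g • ω) s
    rw [h1, map_mul, map_mul, map_inv, hloc θ hθ ω s, conj_sg, halp θ hθ g] at h2
    have h3 := congrArg (fun v : Wr S Ω G => v.f (g • ω)) h2
    simp only [sg_f_self] at h3
    exact h3.symm
  have hai : ∀ θ : MulAut (Wr S Ω G), sig hS θ = 1 → ∀ g : G,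
      {ω | loc θ (g • ω) ≠ loc θ ω}.Finite := by
    intro θ hθ g
    refine (fin_smul (θ (lift g)).fin g).subset ?_
    intro ω hω h1
    apply hω
    ext s
    rw [hconj θ hθ g ω s]
    have h2 : (θ (lift g)).f (g • ω) = 1 := h1
    rw [h2]; simp
  have hsel : ∀ θ : MulAut (Wr S Ω G), ∃ e : Ω → S → S, sig hS θ = 1 →
      (e ∈ E ∧ {ω | loc θ ω ≠ e ω}.Finite) := by
    intro θ
    by_cases hθ : sig hS θ = 1
    · obtain ⟨e, he, he'⟩ := hE (loc θ) (hai θ hθ)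
      exact ⟨e, fun _ => ⟨he, he'⟩⟩
    · exact ⟨fun _ s => s, fun h => absurd h hθ⟩
  choose c hc using hsel
  have hbase : Cov (MulAut.conj : Wr S Ω G →* MulAut (Wr S Ω G)).range
      ((MulAut.conj : Wr S Ω G →* MulAut (Wr S Ω G)).range : Set (MulAut (Wr S Ω G))) :=
    ⟨{1}, Set.finite_singleton 1, fun k hk => ⟨1, rfl, by simpa using hk⟩⟩
  refine cov_step _ hbase c E hEf (fun k hk => (hc k hk).1) ?_
  intro θ₁ h₁ θ₂ h₂ h12
  have hf : {ω | loc θ₁ ω ≠ loc θ₂ ω}.Finite := by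
    refine ((hc θ₁ h₁).2.union (hc θ₂ h₂).2).subset ?_
    intro ω hω
    by_contra hcon
    rw [Set.mem_union, not_or] at hcon
    obtain ⟨ha, hb⟩ := hcon
    simp only [Set.mem_ofPred_eq, not_not] at ha hb
    apply hω
    rw [ha, hb, h12]
  set θ := θ₁⁻¹ * θ₂ with hθdef
  have hθ : sig hS θ = 1 := by
    rw [hθdef, map_mul, map_inv]
    have e1 : sig hS θ₁ = 1 := h₁
    have e2 : sig hS θ₂ = 1 := h₂
    rw [e1, e2]; simp
  have hfix : ∀ ω, loc θ₁ ω = loc θ₂ ω → ∀ s, θ (sg ω s) = sg ω s := by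
    intro ω hω s
    have h3 : θ₂ (sg ω s) = θ₁ (sg ω s) := by
      rw [hloc θ₁ h₁, hloc θ₂ h₂, hω]
    change θ₁⁻¹ (θ₂ (sg ω s)) = sg ω s
    rw [h3]
    change (θ₁⁻¹ * θ₁) (sg ω s) = sg ω s
    rw [inv_mul_cancel]; rfl
  obtain ⟨ω₁, hω₁⟩ : ∃ ω₁, loc θ₁ ω₁ = loc θ₂ ω₁ := by
    by_contra hcon
    push Not at hcon
    have : {ω | loc θ₁ ω ≠ loc θ₂ ω} = Set.univ := by
      ext ω; simp [hcon ω]
    rw [this] at hf
    exact Set.infinite_univ hf
  have hinn : ∀ ω, ∃ h : S, (loc θ₁ ω = loc θ₂ ω → h = 1) ∧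
      ∀ s, θ (sg ω s) = sg ω (h * s * h⁻¹) := by
    intro ω
    by_cases hω : loc θ₁ ω = loc θ₂ ω
    · refine ⟨1, fun _ => rfl, fun s => ?_⟩
      rw [hfix ω hω s]; simp
    · obtain ⟨g, hg⟩ := MulAction.exists_smul_eq G ω₁ ω
      refine ⟨(θ (lift g)).f (g • ω₁), fun h => absurd h hω, fun s => ?_⟩
      have h4 : loc θ ω₁ s = s := by
        simp only [loc]; rw [hfix ω₁ hω₁ s, sg_f_self]
      rw [hloc θ hθ ω s]
      have h5 := hconj θ hθ g ω₁ s
      rw [hg, h4] at h5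
      rw [h5, hg]
  choose hh hh1 hh2 using hinn
  let H : Wr S Ω G := ⟨hh, 1, hf.subset (by
    intro ω hω h1
    exact hω (hh1 ω h1))⟩
  refine ⟨H, ?_⟩
  have h6 : (MulAut.conj H)⁻¹ * θ = 1 := by
    apply rigid hS
    intro ω s
    have h7 : MulAut.conj H (sg ω s) = θ (sg ω s) := by
      rw [MulAut.conj_apply, conj_sg, hh2]
      simp [H]
    change (MulAut.conj H)⁻¹ (θ (sg ω s)) = sg ω s
    rw [← h7]
    change ((MulAut.conj H)⁻¹ * MulAut.conj H) (sg ω s) = sg ω s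
    rw [inv_mul_cancel]; rfl
  have h8 : MulAut.conj H * ((MulAut.conj H)⁻¹ * θ) = MulAut.conj H * 1 := by rw [h6]
  rw [mul_inv_cancel_left, mul_one] at h8
  exact h8.symm

end Wr

end Pool.Agent.W5h69.Seg
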