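import Mathlib
import Pool.Agent.W5h69.Seg.WrAut

set_option autoImplicit false

/-! # Embedding a group as a quotient of a group with finite outer automorphism group -/

namespace Pool.Agent.W5h69.Seg

open Wr

/-- the set on which the second layer acts -/
@[ext] structure Om (Q S : Type) (T : Set Q) : Type where
  /-- position -/
  x : Q
  /-- local state -/
  z : T → S

namespace Om

variable {Q S : Type} [Group Q] [Group S] {T : Set Q}

instance : SMul (Wr S Q Q) (Om Q S T) :=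
  ⟨fun w ω => ⟨w.g * ω.x, fun t => w.f (w.g * ω.x * t) * ω.z t⟩⟩

@[simp] lemma smul_fst (w : Wr S Q Q) (ω : Om Q S T) : (w • ω).x = w.g * ω.x := rfl
@[simp] lemma smul_snd (w : Wr S Q Q) (ω : Om Q S T) (t : T) :
    (w • ω).z t = w.f (w.g * ω.x * t) * ω.z t := rfl

omit [Group Q] [Group S] in
lemma ext' {ω ω' : Om Q S T} (h1 : ω.x = ω'.x) (h2 : ∀ t, ω.z t = ω'.z t) : ω = ω' :=
  Om.ext h1 (funext h2)

instance : MulAction (Wr S Q Q) (Om Q S T) where
  one_smul ω := by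
    apply ext'
    · simp
    · intro t; simp
  mul_smul a b ω := by
    apply ext'
    · simp [mul_assoc]
    · intro t; simp [mul_assoc]

/-- base point -/
def pt : Om Q S T := ⟨1, fun _ => 1⟩

lemma trans_inst (hT : T.Finite) : MulAction.IsPretransitive (Wr S Q Q) (Om Q S T) := by
  classical
  constructor
  rintro ⟨x, z⟩ ⟨x', z'⟩
  refine ⟨⟨fun η => if h : x'⁻¹ * η ∈ T then z' ⟨_, h⟩ * (z ⟨_, h⟩)⁻¹ else 1, x' * x⁻¹, ?_⟩, ?_⟩
  · refine (hT.image (fun t => x' * t)).subset ?_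
    intro η hη
    by_cases h : x'⁻¹ * η ∈ T
    · exact ⟨_, h, by simp⟩
    · exfalso; apply hη; simp [h]
  · apply ext'
    · simp
    · intro t
      simp

lemma faith_inst (h1 : (1 : Q) ∈ T) : FaithfulSMul (Wr S Q Q) (Om Q S T) := by
  constructor
  intro a b h
  have hg : a.g = b.g := by
    have := congrArg Om.x (h (pt : Om Q S T))
    simpa [pt] using this
  ext η
  · have h3 := congrFun (congrArg Om.z (h (⟨a.g⁻¹ * η, fun _ => 1⟩ : Om Q S T))) ⟨1, h1⟩
    have h4 : a.f (a.g * (a.g⁻¹ * η) * 1) * 1 = b.f (b.g * (a.g⁻¹ * η) * 1) * 1 := h3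
    rw [← hg] at h4
    simpa using h4
  · exact hg

lemma touch (hS : SimpNA S) {ω : Om Q S T} {y : Q} :
    (∃ s, (sg y s : Wr S Q Q) • ω ≠ ω) ↔ ∃ t ∈ T, y = ω.x * t := by
  constructor
  · rintro ⟨s, hs⟩
    by_contra hcon
    push Not at hcon
    apply hs
    apply ext'
    · simp
    · intro t
      rw [smul_snd, sg_g, one_mul, sg_f_ne (fun h => hcon t t.2 h.symm), one_mul]
  · rintro ⟨t, ht, rfl⟩
    obtain ⟨s, hs⟩ := hS.ne
    refine ⟨s, fun h => hs ?_⟩
    have h2 : ((sg (ω.x * t) s : Wr S Q Q) • ω).z ⟨t, ht⟩ = ω.z ⟨t, ht⟩ := by rw [h]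
    rw [smul_snd, sg_g, one_mul] at h2
    simpa using h2

end Om

section Main

variable {Q S : Type} [Group Q] [Group S] {T : Set Q}

/-- almost invariant functions on the group are almost constant -/
def OneEnd (Q A : Type) [Group Q] : Prop :=
  ∀ a : Q → A, (∀ g, {x | a (g * x) ≠ a x}.Finite) → ∃ c, {x | a x ≠ c}.Finite

lemma oneEnd_self {A : Type} [Finite A] (hE : OneEnd Q A) :
    ∃ E : Set (Q → A), E.Finite ∧ ∀ a : Q → A,
      (∀ g : Q, {ω | a (g • ω) ≠ a ω}.Finite) → ∃ e ∈ E, {ω | a ω ≠ e ω}.Finite := by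
  refine ⟨Set.range (fun c : A => fun _ : Q => c), Set.finite_range _, fun a ha => ?_⟩
  obtain ⟨c, hc⟩ := hE a ha
  exact ⟨_, ⟨c, rfl⟩, hc⟩

lemma oneEnd_Om {A : Type} [Finite A] [Finite S] (hT : T.Finite) (hE : OneEnd Q A) :
    ∃ E : Set (Om Q S T → A), E.Finite ∧ ∀ a : Om Q S T → A,
      (∀ g : Wr S Q Q, {ω | a (g • ω) ≠ a ω}.Finite) → ∃ e ∈ E, {ω | a ω ≠ e ω}.Finite := by
  have : Finite T := hT
  refine ⟨Set.range (fun c : (T → S) → A => fun ω : Om Q S T => c ω.z), Set.finite_range _,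
    fun a ha => ?_⟩
  have h1 : ∀ z : T → S, ∃ c : A, {x : Q | a (⟨x, z⟩ : Om Q S T) ≠ c}.Finite := by
    intro z
    apply hE (fun x => a (⟨x, z⟩ : Om Q S T))
    intro g
    have h2 := ha (lift g)
    have h3 : {x : Q | a (⟨g * x, z⟩ : Om Q S T) ≠ a (⟨x, z⟩ : Om Q S T)} =
        (fun x : Q => (⟨x, z⟩ : Om Q S T)) ⁻¹' {ω | a ((lift g : Wr S Q Q) • ω) ≠ a ω} := by
      ext x
      have h4 : (lift g : Wr S Q Q) • (⟨x, z⟩ : Om Q S T) = (⟨g * x, z⟩ : Om Q S T) := by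
        apply Om.ext'
        · simp
        · intro t; simp
      simp only [Set.mem_preimage, Set.mem_ofPred_eq, h4]
    rw [h3]
    apply h2.preimage
    intro x _ y _ hxy
    exact congrArg Om.x hxy
  choose c hc using h1
  refine ⟨_, ⟨c, rfl⟩, ?_⟩
  have h5 : (⋃ z : T → S, (fun x : Q => (⟨x, z⟩ : Om Q S T)) '' {x : Q | a (⟨x, z⟩ : Om Q S T) ≠ c z}).Finite :=
    Set.finite_iUnion (fun z => (hc z).image _)
  refine h5.subset ?_
  rintro ⟨x, z⟩ hω
  exact Set.mem_iUnion.2 ⟨z, x, hω, rfl⟩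

/-- the big group -/
abbrev Big (Q S : Type) [Group Q] [Group S] (T : Set Q) : Type := Wr S (Om Q S T) (Wr S Q Q)

theorem out_finite [Infinite Q] [Finite S] (hS : SimpNA S) (hT : T.Finite) (h1 : (1 : Q) ∈ T)
    (hgen : Subgroup.closure T = ⊤) (hE : OneEnd Q (S → S)) :
    Finite (MulAut (Big Q S T) ⧸ (MulAut.conj : Big Q S T →* MulAut (Big Q S T)).range) := by
  have i1 : MulAction.IsPretransitive (Wr S Q Q) (Om Q S T) := Om.trans_inst hT
  have i2 : FaithfulSMul (Wr S Q Q) (Om Q S T) := Om.faith_inst h1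
  have i3 : Infinite (Om Q S T) := Infinite.of_injective (fun x : Q => (⟨x, fun _ => 1⟩ : Om Q S T))
    (fun x y h => congrArg Om.x h)
  have i4 : Finite T := hT
  apply cov_finite
  set I := (MulAut.conj : Big Q S T →* MulAut (Big Q S T)).range with hI
  -- the action on the base points of the second layer
  have hinc : ∀ (θ : MulAut (Big Q S T)) (t : Q), t ∈ T →
      ∃ t' ∈ T, sig hS (alp hS θ) t = (sig hS θ (Om.pt : Om Q S T)).x * t' := by
    intro θ t ht
    apply (Om.touch hS).1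
    obtain ⟨s, hs⟩ := (Om.touch hS (ω := (Om.pt : Om Q S T)) (y := t)).2 ⟨t, ht, by simp [Om.pt]⟩
    obtain ⟨s', hs'⟩ := sig_spec hS (alp hS θ) t s
    refine ⟨s', fun h => hs ?_⟩
    apply (sig hS θ).injective
    rw [sig_smul, hs', h]
  have hgenr : ∀ β : MulAut (Wr S Q Q), sig hS β 1 = 1 → ∀ q, sig hS β q = alp hS β q := by
    intro β hβ q
    have := sig_smul hS β q 1
    rw [hβ] at this
    simpa using this
  have K3 : Cov I {θ : MulAut (Big Q S T) | sig hS θ = 1} := cov_ker hS (oneEnd_Om hT hE)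
  have K2 : Cov I {θ : MulAut (Big Q S T) | alp hS θ = 1} := by
    refine cov_step I K3 (fun θ => sig hS θ (Om.pt : Om Q S T))
      ((fun p : Q × (T → S) => (⟨p.1, p.2⟩ : Om Q S T)) '' (((fun x => x⁻¹) '' T) ×ˢ Set.univ)) ?_ ?_ ?_
    · exact ((hT.image _).prod Set.finite_univ).image _
    · intro θ hθ
      obtain ⟨t', ht', h2⟩ := hinc θ 1 h1
      have h3 : alp hS θ = 1 := hθ
      rw [h3, map_one (sig hS), Equiv.Perm.one_apply] at h2
      refine ⟨((sig hS θ (Om.pt : Om Q S T)).x, (sig hS θ (Om.pt : Om Q S T)).z), ⟨⟨t', ht', ?_⟩, Set.mem_univ _⟩, rfl⟩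
      exact (eq_inv_of_mul_eq_one_left h2.symm).symm
    · intro θ₁ h₁ θ₂ h₂ h12
      have e1 : alp hS θ₁ = 1 := h₁
      have e2 : alp hS θ₂ = 1 := h₂
      have h3 : sig hS θ₁ = sig hS θ₂ := by
        ext1 ω
        obtain ⟨g, rfl⟩ := MulAction.exists_smul_eq (Wr S Q Q) (Om.pt : Om Q S T) ω
        rw [sig_smul, sig_smul, e1, e2, h12]
      change sig hS (θ₁⁻¹ * θ₂) = 1
      rw [map_mul, map_inv, h3, inv_mul_cancel]
  obtain ⟨F, hF, hFc⟩ := cov_ker (S := S) (Ω := Q) (G := Q) hS (oneEnd_self hE)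
  have K1' : Cov I {θ : MulAut (Big Q S T) | alp hS θ ∈ F} := by
    refine cov_step I K2 (fun θ => alp hS θ) F hF (fun θ hθ => hθ) ?_
    intro θ₁ _ θ₂ _ h12
    change alp hS (θ₁⁻¹ * θ₂) = 1
    have h12' : alp hS θ₁ = alp hS θ₂ := h12
    rw [map_mul, map_inv, h12', inv_mul_cancel]
  have K1 : Cov I {θ : MulAut (Big Q S T) | sig hS (alp hS θ) = 1} := by
    refine cov_mod I K1' ?_
    intro θ hθ
    obtain ⟨f, hf, ⟨q, hq⟩⟩ := hFc (alp hS θ) hθ
    refine ⟨MulAut.conj (lift q⁻¹), ⟨_, rfl⟩, ?_⟩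
    change alp hS (θ * MulAut.conj (lift q⁻¹)) ∈ F
    rw [map_mul, alp_conj, lift_g, map_inv, hq, mul_inv_rev, inv_inv, mul_inv_cancel_left]
    exact hf
  have K0' : Cov I {θ : MulAut (Big Q S T) | sig hS (alp hS θ) 1 = 1} := by
    refine cov_step I K1 (fun θ => fun t : T => sig hS (alp hS θ) (t : Q))
      {c : T → Q | ∀ t, c t ∈ Set.image2 (fun a b => a⁻¹ * b) T T} ?_ ?_ ?_
    · exact Set.Finite.pi' (fun _ => hT.image2 _ hT)
    · intro θ hθ t
      obtain ⟨t₁, ht₁, h2⟩ := hinc θ 1 h1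
      have hθ' : sig hS (alp hS θ) 1 = 1 := hθ
      rw [hθ'] at h2
      obtain ⟨t', ht', h3⟩ := hinc θ t t.2
      refine ⟨t₁, ht₁, t', ht', ?_⟩
      change t₁⁻¹ * t' = sig hS (alp hS θ) t
      rw [h3, eq_inv_of_mul_eq_one_left h2.symm]
    · intro θ₁ h₁ θ₂ h₂ h12
      have e1 := hgenr _ h₁
      have e2 := hgenr _ h₂
      have h3 : (alp hS (alp hS θ₁)).toMonoidHom = (alp hS (alp hS θ₂)).toMonoidHom := by
        apply MonoidHom.eq_of_eqOn_dense hgen
        intro t ht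
        have h4 := congrFun h12 ⟨t, ht⟩
        have h5 : sig hS (alp hS θ₁) t = sig hS (alp hS θ₂) t := h4
        rw [e1, e2] at h5
        exact h5
      change sig hS (alp hS (θ₁⁻¹ * θ₂)) = 1
      have h6 : sig hS (alp hS θ₁) = sig hS (alp hS θ₂) := by
        ext q
        rw [e1, e2]
        exact DFunLike.congr_fun h3 q
      rw [map_mul, map_inv, map_mul, map_inv, h6, inv_mul_cancel]
  refine cov_mod I K0' ?_
  intro θ _
  refine ⟨MulAut.conj (lift (lift ((sig hS (alp hS θ))⁻¹ 1))), ⟨_, rfl⟩, ?_⟩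
  change sig hS (alp hS (θ * MulAut.conj (lift (lift ((sig hS (alp hS θ))⁻¹ 1))))) 1 = 1
  rw [map_mul, map_mul, alp_conj, lift_g, Equiv.Perm.mul_apply, sig_conj, lift_g, smul_eq_mul,
    mul_one]
  simp

theorem big_fg [Finite S] (hT : T.Finite) (hQ : Group.FG Q) : Group.FG (Big Q S T) := by
  have i1 : MulAction.IsPretransitive (Wr S Q Q) (Om Q S T) := Om.trans_inst hT
  exact fg_wr (Om.pt) (fg_wr (1 : Q) hQ)

/-- the projection onto `Q` -/
def bigProj : Big Q S T →* Q := (proj : Wr S Q Q →* Q).comp proj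

lemma bigProj_surjective : Function.Surjective (bigProj : Big Q S T → Q) :=
  fun q => ⟨lift (lift q), rfl⟩

theorem big_ker_le [Infinite Q] (hS : SimpNA S) (hT : T.Finite) (h1 : (1 : Q) ∈ T)
    (N : Subgroup (Big Q S T)) (hN : N.Normal) (hfi : N.FiniteIndex) :
    (bigProj : Big Q S T →* Q).ker ≤ N := by
  have i1 : MulAction.IsPretransitive (Wr S Q Q) (Om Q S T) := Om.trans_inst hT
  have i2 : FaithfulSMul (Wr S Q Q) (Om Q S T) := Om.faith_inst h1
  have i5 : Infinite (Wr S Q Q) := Infinite.of_injective _ (lift_injective (S := S) (Ω := Q) (G := Q))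
  have i6 : Infinite (Big Q S T) := Infinite.of_injective _
    (lift_injective (S := S) (Ω := Om Q S T) (G := Wr S Q Q))
  have hne : ∀ (A : Type) (_ : Group A) (_ : Infinite A) (M : Subgroup A), M.FiniteIndex → M ≠ ⊥ := by
    intro A _ _ M hM hb
    subst hb
    have := hM.index_ne_zero
    rw [Subgroup.index_bot] at this
    exact this (Nat.card_eq_zero_of_infinite)
  have b1 := base_le hS N hN (hne _ _ i6 N hfi)
  have b2 := base_le (Ω := Q) hS (N.map (proj : Big Q S T →* Wr S Q Q))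
    (Subgroup.Normal.map hN _ proj_surjective) (hne _ _ i5 _ (by
      constructor
      exact fun h0 => hfi.index_ne_zero (by
        have := Subgroup.index_map_dvd N (f := (proj : Big Q S T →* Wr S Q Q)) proj_surjective
        rw [h0] at this
        exact Nat.eq_zero_of_zero_dvd this)))
  intro w hw
  obtain ⟨n, hn, hnw⟩ := b2 w.g hw
  have h3 : (n⁻¹ * w).g = 1 := by
    have : n.g = w.g := hnw
    simp [this]
  have := N.mul_mem hn (b1 _ h3)
  rwa [mul_inv_cancel_left] at this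

/-- the extension of an involution of `Q` preserving `T` -/
noncomputable def bigRho (ρ : MulAut Q) (hρ : ∀ q, ρ (ρ q) = q) (hT : ∀ t ∈ T, ρ t ∈ T) :
    MulAut (Big Q S T) :=
  mapEquiv (mapEquiv ρ ρ.toEquiv (fun g ω => map_mul ρ g ω))
    (⟨fun ω => ⟨ρ ω.x, fun t => ω.z ⟨ρ t, hT t t.2⟩⟩, fun ω => ⟨ρ ω.x, fun t => ω.z ⟨ρ t, hT t t.2⟩⟩,
      fun ω => Om.ext' (hρ _) (fun t => congrArg ω.z (Subtype.ext (hρ t))),
      fun ω => Om.ext' (hρ _) (fun t => congrArg ω.z (Subtype.ext (hρ t)))⟩ : Om Q S T ≃ Om Q S T)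
    (by
      intro w ω
      have hs : ∀ q, ρ.symm q = ρ q := by
        intro q
        rw [MulEquiv.symm_apply_eq, hρ]
      apply Om.ext'
      · exact map_mul ρ _ _
      · intro t
        change w.f (w.g * ω.x * ρ t) * ω.z ⟨ρ t, _⟩ =
          w.f (ρ.symm (ρ w.g * ρ ω.x * t)) * ω.z ⟨ρ t, _⟩
        rw [← map_mul, map_mul ρ.symm, MulEquiv.symm_apply_apply, hs t])

lemma bigRho_proj (ρ : MulAut Q) (hρ : ∀ q, ρ (ρ q) = q) (hT : ∀ t ∈ T, ρ t ∈ T)
    (w : Big Q S T) : bigProj (bigRho ρ hρ hT w) = ρ (bigProj w) := rfl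

/-- The embedding theorem. -/
theorem embed {Q : Type} [Group Q] [Infinite Q] (hfg : Group.FG Q)
    {S : Type} [Group S] [Finite S] (hS : SimpNA S)
    (hE : OneEnd Q (S → S)) (ρ : MulAut Q) (hρ : ∀ q, ρ (ρ q) = q) :
    ∃ (Γ : Type) (_ : Group Γ) (π : Γ →* Q) (ρ' : MulAut Γ), Group.FG Γ ∧
      Finite (MulAut Γ ⧸ (MulAut.conj : Γ →* MulAut Γ).range) ∧ Function.Surjective π ∧
      (∀ N : Subgroup Γ, N.Normal → N.FiniteIndex → π.ker ≤ N) ∧ ∀ g, π (ρ' g) = ρ (π g) := by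
  obtain ⟨T₀, hT₀, hT₀f⟩ := (Group.fg_iff (G := Q)).1 hfg
  set T : Set Q := insert 1 (T₀ ∪ ρ '' T₀) with hTdef
  have hT : T.Finite := (hT₀f.union (hT₀f.image _)).insert _
  have h1 : (1 : Q) ∈ T := Set.mem_insert _ _
  have hgen : Subgroup.closure T = ⊤ := by
    rw [eq_top_iff, ← hT₀]
    apply Subgroup.closure_mono
    intro x hx
    exact Or.inr (Or.inl hx)
  have hρT : ∀ t ∈ T, ρ t ∈ T := by
    rintro t (rfl | ht | ⟨x, hx, rfl⟩)
    · rw [map_one]; exact h1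
    · exact Or.inr (Or.inr ⟨t, ht, rfl⟩)
    · rw [hρ]; exact Or.inr (Or.inl hx)
  refine ⟨Big Q S T, inferInstance, bigProj, bigRho ρ hρ hρT, big_fg hT hfg,
    out_finite hS hT h1 hgen hE, bigProj_surjective, fun N hN hfi => big_ker_le hS hT h1 N hN hfi,
    fun g => rfl⟩

end Main

end Pool.Agent.W5h69.Seg
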