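import Mathlib
import Pool.Agent.W5h69.Seg.Embed

set_option autoImplicit false

/-! # A criterion for one-endedness -/

namespace Pool.Agent.W5h69.Seg

section
variable {Q A : Type} [Group Q]

/-- the value `c` is generic for `a` on the coset `R y` -/
def Gen (a : Q → A) (R : Subgroup Q) (y : Q) (c : A) : Prop := {r : Q | r ∈ R ∧ a (r * y) ≠ c}.Finite

lemma bad_finite (a : Q → A) (ha : ∀ g, {x | a (g * x) ≠ a x}.Finite) (R : Subgroup Q) (hR : R.FG) :
    ∃ D : Set Q, D.Finite ∧ ∀ y, (∀ r ∈ R, r * y ∉ D) → ∀ r ∈ R, a (r * y) = a y := by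
  obtain ⟨T, hT⟩ := hR
  refine ⟨⋃ g ∈ T, {x | a (g * x) ≠ a x}, Set.Finite.biUnion T.finite_toSet (fun g _ => ha g), ?_⟩
  intro y hy r hr
  have key : ∀ r, r ∈ Subgroup.closure (T : Set Q) → ∀ s ∈ R, a (r * (s * y)) = a (s * y) := by
    intro r hr
    induction hr using Subgroup.closure_induction with
    | mem x hx =>
      intro s hs
      by_contra hcon
      apply hy s hs
      simp only [Set.mem_iUnion]
      exact ⟨x, hx, hcon⟩
    | one => intro s _; rw [one_mul]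
    | mul x x' hx hx' ih ih' =>
      intro s hs
      rw [mul_assoc, ← mul_assoc x' s y, ih (x' * s) (R.mul_mem (hT ▸ hx') hs), mul_assoc, ih' s hs]
    | inv x hx ih =>
      intro s hs
      have := ih (x⁻¹ * s) (R.mul_mem (R.inv_mem (hT ▸ hx)) hs)
      rw [mul_assoc x⁻¹ s y, mul_inv_cancel_left] at this
      exact this.symm
  have := key r (by rw [hT]; exact hr) 1 R.one_mem
  simpa using this

lemma gen_uniq {a : Q → A} {R : Subgroup Q} (hinf : Infinite R) {y : Q} {c c' : A}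
    (h : Gen a R y c) (h' : Gen a R y c') : c = c' := by
  by_contra hne
  have h1 : ((R : Set Q)).Finite := by
    refine (h.union h').subset ?_
    intro r hr
    by_cases h2 : a (r * y) = c
    · right; exact ⟨hr, by rw [h2]; exact hne⟩
    · left; exact ⟨hr, h2⟩
  have h2 : Finite R := h1
  exact hinf.not_finite h2

lemma gen_pair (a : Q → A) (ha : ∀ g, {x | a (g * x) ≠ a x}.Finite) {R₁ R₂ : Subgroup Q}
    (f₁ : R₁.FG) (f₂ : R₂.FG) (i₁ : Infinite R₁) (i₂ : Infinite R₂)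
    (hc : ∀ u ∈ R₁, ∀ v ∈ R₂, u * v = v * u) (hd : ∀ u, u ∈ R₁ → u ∈ R₂ → u = 1) (y : Q) :
    ∃ c, Gen a R₁ y c ∧ Gen a R₂ y c := by
  obtain ⟨D₁, hD₁, h₁⟩ := bad_finite a ha R₁ f₁
  obtain ⟨D₂, hD₂, h₂⟩ := bad_finite a ha R₂ f₂
  -- bad columns
  have b₂ : {v : Q | v ∈ R₂ ∧ ¬ ∀ u ∈ R₁, a (u * (v * y)) = a (v * y)}.Finite := by
    have h3 : ∀ v ∈ {v : Q | v ∈ R₂ ∧ ¬ ∀ u ∈ R₁, a (u * (v * y)) = a (v * y)},
        ∃ d ∈ D₁, ∃ u ∈ R₁, u * (v * y) = d := by
      rintro v ⟨_, hv⟩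
      by_contra hcon
      push Not at hcon
      exact hv (h₁ (v * y) (fun u hu hmem => hcon _ hmem u hu rfl))
    choose! d hd1 hd2 using h3
    refine Set.Finite.of_finite_image (f := d) (hD₁.subset ?_) ?_
    · rintro _ ⟨v, hv, rfl⟩; exact hd1 v hv
    · intro v hv v' hv' hvv
      obtain ⟨u, hu, e⟩ := hd2 v hv
      obtain ⟨u', hu', e'⟩ := hd2 v' hv'
      rw [← hvv, ← e] at e'
      have e2 : u' * v' = u * v := by
        have := e'
        rw [← mul_assoc, ← mul_assoc] at this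
        exact mul_right_cancel this
      have e3 : u⁻¹ * u' = v * v'⁻¹ := by
        rw [inv_mul_eq_iff_eq_mul, ← mul_assoc, ← e2, mul_inv_cancel_right]
      have e4 := hd (u⁻¹ * u') (R₁.mul_mem (R₁.inv_mem hu) hu')
        (by rw [e3]; exact R₂.mul_mem hv.1 (R₂.inv_mem hv'.1))
      rw [e3] at e4
      exact mul_inv_eq_one.1 e4
  have b₁ : {u : Q | u ∈ R₁ ∧ ¬ ∀ v ∈ R₂, a (v * (u * y)) = a (u * y)}.Finite := by
    have h3 : ∀ u ∈ {u : Q | u ∈ R₁ ∧ ¬ ∀ v ∈ R₂, a (v * (u * y)) = a (u * y)},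
        ∃ d ∈ D₂, ∃ v ∈ R₂, v * (u * y) = d := by
      rintro u ⟨_, hu⟩
      by_contra hcon
      push Not at hcon
      exact hu (h₂ (u * y) (fun v hv hmem => hcon _ hmem v hv rfl))
    choose! d hd1 hd2 using h3
    refine Set.Finite.of_finite_image (f := d) (hD₂.subset ?_) ?_
    · rintro _ ⟨u, hu, rfl⟩; exact hd1 u hu
    · intro u hu u' hu' huu
      obtain ⟨v, hv, e⟩ := hd2 u hu
      obtain ⟨v', hv', e'⟩ := hd2 u' hu'
      rw [← huu, ← e] at e'
      have e2 : v' * u' = v * u := by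
        have := e'
        rw [← mul_assoc, ← mul_assoc] at this
        exact mul_right_cancel this
      have e3 : v⁻¹ * v' = u * u'⁻¹ := by
        rw [inv_mul_eq_iff_eq_mul, ← mul_assoc, ← e2, mul_inv_cancel_right]
      have e4 := hd (v⁻¹ * v') (by rw [e3]; exact R₁.mul_mem hu.1 (R₁.inv_mem hu'.1))
        (R₂.mul_mem (R₂.inv_mem hv) hv')
      rw [e3] at e4
      exact mul_inv_eq_one.1 e4
  have ex₁ : ∃ u ∈ R₁, ∀ v ∈ R₂, a (v * (u * y)) = a (u * y) := by
    by_contra hcon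
    push Not at hcon
    have : ((R₁ : Set Q)).Finite := by
      refine b₁.subset ?_
      intro u hu
      refine ⟨hu, ?_⟩
      push Not
      exact hcon u hu
    exact i₁.not_finite this
  have ex₂ : ∃ v ∈ R₂, ∀ u ∈ R₁, a (u * (v * y)) = a (v * y) := by
    by_contra hcon
    push Not at hcon
    have : ((R₂ : Set Q)).Finite := by
      refine b₂.subset ?_
      intro v hv
      refine ⟨hv, ?_⟩
      push Not
      exact hcon v hv
    exact i₂.not_finite this
  obtain ⟨u₀, hu₀, g₁⟩ := ex₁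
  obtain ⟨v₀, hv₀, g₂⟩ := ex₂
  have comm : ∀ u ∈ R₁, ∀ v ∈ R₂, u * (v * y) = v * (u * y) := by
    intro u hu v hv
    rw [← mul_assoc, hc u hu v hv, mul_assoc]
  have e0 : a (u₀ * y) = a (v₀ * y) := by
    rw [← g₁ v₀ hv₀, ← comm u₀ hu₀ v₀ hv₀, g₂ u₀ hu₀]
  refine ⟨a (u₀ * y), ?_, ?_⟩
  · refine b₁.subset ?_
    rintro u ⟨hu, hne⟩
    refine ⟨hu, fun h => hne ?_⟩
    rw [← h v₀ hv₀, ← comm u hu v₀ hv₀, g₂ u hu, e0]
  · refine b₂.subset ?_
    rintro v ⟨hv, hne⟩
    refine ⟨hv, fun h => hne ?_⟩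
    rw [← h u₀ hu₀, comm u₀ hu₀ v hv, g₁ v hv]

/-- The criterion. -/
theorem oneEnd_of_family {X : Type} (R : X → Subgroup Q) {x₀ x₁ : X} (h01 : x₀ ≠ x₁)
    (hfg : ∀ x, (R x).FG) (hinf : ∀ x, Infinite (R x))
    (hcomm : ∀ x x', x ≠ x' → ∀ u ∈ R x, ∀ v ∈ R x', u * v = v * u)
    (hdisj : ∀ x x', x ≠ x' → ∀ u, u ∈ R x → u ∈ R x' → u = 1)
    (hconj : ∀ (q : Q) (x : X), ∃ x', ∀ r ∈ R x, q * r * q⁻¹ ∈ R x') : OneEnd Q A := by
  intro a ha
  have pair : ∀ x x', x ≠ x' → ∀ y, ∃ c, Gen a (R x) y c ∧ Gen a (R x') y c := fun x x' h y =>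
    gen_pair a ha (hfg x) (hfg x') (hinf x) (hinf x') (hcomm x x' h) (hdisj x x' h) y
  have all : ∀ y, ∃ c, ∀ x, Gen a (R x) y c := by
    intro y
    obtain ⟨c, hc0, hc1⟩ := pair x₀ x₁ h01 y
    refine ⟨c, fun x => ?_⟩
    by_cases hx : x = x₀
    · rw [hx]; exact hc0
    · obtain ⟨c', hc', hc0'⟩ := pair x x₀ hx y
      rw [gen_uniq (hinf x₀) hc0 hc0']; exact hc'
  choose c hc using all
  have hinv : ∀ g y, c (g * y) = c y := by
    intro g y
    obtain ⟨x', hx'⟩ := hconj g x₀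
    by_contra hne
    have f1 : {r : Q | r ∈ R x₀ ∧ a (r * y) ≠ c y}.Finite := hc y x₀
    have f2 : {r : Q | a (g * (r * y)) ≠ a (r * y)}.Finite := by
      have := ha g
      refine this.preimage (f := fun r : Q => r * y) ?_
      intro r _ r' _ h
      exact mul_right_cancel h
    have f3 : {r : Q | r ∈ R x₀ ∧ a ((g * r * g⁻¹) * (g * y)) ≠ c (g * y)}.Finite := by
      have := (hc (g * y) x')
      have h4 := this.preimage (f := fun r : Q => g * r * g⁻¹) (by
        intro r _ r' _ h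
        exact mul_left_cancel (mul_right_cancel h))
      refine h4.subset ?_
      rintro r ⟨hr, hr'⟩
      exact ⟨hx' r hr, hr'⟩
    have : ((R x₀ : Set Q)).Finite := by
      refine ((f1.union f2).union f3).subset ?_
      intro r hr
      by_contra hcon
      simp only [Set.mem_union, Set.mem_ofPred_eq, not_or, not_and, not_not] at hcon
      obtain ⟨⟨k1, k2⟩, k3⟩ := hcon
      apply hne
      rw [← k3 hr, ← k1 hr, ← k2]
      congr 1
      group
    exact (hinf x₀).not_finite this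
  have hconst : ∀ y, c y = c 1 := by
    intro y
    have := hinv y 1
    rwa [mul_one] at this
  refine ⟨c 1, ?_⟩
  obtain ⟨D, hD, hD'⟩ := bad_finite a ha (R x₀) (hfg x₀)
  have hfin : (⋃ d ∈ D, (fun r => r * d) '' {r : Q | r ∈ R x₀ ∧ a (r * d) ≠ c 1}).Finite := by
    refine hD.biUnion (fun d _ => ?_)
    apply Set.Finite.image
    have := hc d x₀
    rw [hconst d] at this
    exact this
  refine hfin.subset ?_
  intro y hy
  have hex : ∃ r ∈ R x₀, r * y ∈ D := by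
    by_contra hcon
    push Not at hcon
    have h1 := hD' y hcon
    have h2 := hc y x₀
    rw [hconst y] at h2
    have : ((R x₀ : Set Q)).Finite := by
      refine h2.subset ?_
      intro r hr
      exact ⟨hr, by rw [h1 r hr]; exact hy⟩
    exact (hinf x₀).not_finite this
  obtain ⟨r, hr, hrd⟩ := hex
  simp only [Set.mem_iUnion]
  refine ⟨r * y, hrd, r⁻¹, ⟨(R x₀).inv_mem hr, ?_⟩, ?_⟩
  · rw [inv_mul_cancel_left]; exact hy
  · simp

end

end Pool.Agent.W5h69.Seg
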