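import Mathlib
import Pool.Agent.W5h69.Seg.Branch
import Pool.Agent.W5h69.Seg.Ends

set_option autoImplicit false

/-! # Indices, finite generation and one-endedness of the branch group -/

namespace Pool.Agent.W5h69.Seg

open scoped commutatorElement

namespace Fam

variable {B : Type} [Group B] {F : Fam B}

variable (F) in
/-- permutations preserving agreement of prefixes -/
def tree : Subgroup (Equiv.Perm F.Xi) where
  carrier := {q | ∀ (n : ℕ) (x x' : F.Xi), (∀ i, i < n → x i = x' i) ↔ (∀ i, i < n → q x i = q x' i)}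
  one_mem' := fun _ _ _ => Iff.rfl
  mul_mem' := by
    intro p q hp hq n x x'
    rw [hq n x x', hp n (q x) (q x')]
    rfl
  inv_mem' := by
    intro q hq n x x'
    rw [hq n (q⁻¹ x) (q⁻¹ x')]
    have e : ∀ x, q (q⁻¹ x) = x := fun x => q.apply_symm_apply x
    rw [e, e]

lemma root_tree (g : F.G 0) : root g ∈ F.tree := by
  have key : ∀ (g : F.G 0) (n : ℕ) (x x' : F.Xi), (∀ i, i < n → x i = x' i) →
      (∀ i, i < n → root g x i = root g x' i) := by
    intro g n x x' h i hi
    rw [root_apply, root_apply]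
    cases i with
    | zero => rw [cons_zero, cons_zero, h 0 hi]
    | succ i => exact h (i + 1) hi
  intro n x x'
  refine ⟨key g n x x', fun h => ?_⟩
  have h2 := key g⁻¹ n _ _ h
  have e : ∀ x : F.Xi, root g⁻¹ (root g x) = x := by
    intro x
    rw [← Equiv.Perm.mul_apply, ← map_mul, inv_mul_cancel, map_one]; rfl
  rwa [e, e] at h2

lemma dd_tree (b : B) : (dd b : Equiv.Perm F.Xi) ∈ F.tree := by
  have key : ∀ (b : B) (n : ℕ) (x x' : F.Xi), (∀ i, i < n → x i = x' i) →
      (∀ i, i < n → ddf b x i = ddf b x' i) := by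
    intro b n x x' h i hi
    cases i with
    | zero => exact h 0 hi
    | succ i =>
      have h1 : cnd x i ↔ cnd x' i :=
        ⟨cnd_congr (fun j hj => h j (by omega)), cnd_congr (fun j hj => (h j (by omega)).symm)⟩
      by_cases hc : cnd x i
      · rw [ddf_pos hc, ddf_pos (h1.1 hc), h (i + 1) hi]
      · rw [ddf_neg hc, ddf_neg (fun h2 => hc (h1.2 h2)), h (i + 1) hi]
  intro n x x'
  refine ⟨key b n x x', fun h => ?_⟩
  have h2 := key b⁻¹ n _ _ h
  have e : ∀ x : F.Xi, ddf b⁻¹ ((dd b : Equiv.Perm F.Xi) x) = x := by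
    intro x
    rw [dd_apply, ← ddf_mul, inv_mul_cancel, ddf_one]
  rwa [e, e] at h2

lemma Q_tree : F.Q ≤ F.tree := by
  apply sup_le
  · rintro _ ⟨g, rfl⟩; exact root_tree g
  · rintro _ ⟨b, rfl⟩; exact dd_tree b

variable (F) in
/-- the stabiliser as a subgroup of `Q` -/
noncomputable def st (n : ℕ) : Subgroup F.Q := (F.stab n).subgroupOf F.Q

open Classical in
/-- extension of a prefix -/
noncomputable def ext (F : Fam B) (n : ℕ) (w : ∀ i : Fin n, F.X i) : F.Xi :=
  fun i => if h : i < n then w ⟨i, h⟩ else F.o i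

lemma ext_apply {n : ℕ} (w : ∀ i : Fin n, F.X i) {i : ℕ} (h : i < n) : ext F n w i = w ⟨i, h⟩ := by
  simp [ext, h]

theorem st_finite (n : ℕ) : Finite (F.Q ⧸ F.st n) := by
  apply cov_finite
  have h0 : Cov (F.st n) ((F.st n : Subgroup F.Q) : Set F.Q) :=
    ⟨{1}, Set.finite_singleton 1, fun k hk => ⟨1, rfl, by simpa using hk⟩⟩
  refine cov_step _ h0 (fun q : F.Q => fun w : (∀ i : Fin n, F.X i) =>
    fun i : Fin n => (q : Equiv.Perm F.Xi) (ext F n w) i) Set.univ Set.finite_univ
    (fun _ _ => Set.mem_univ _) ?_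
  rintro ⟨q, hq⟩ _ ⟨q', hq'⟩ _ h
  change q⁻¹ * q' ∈ F.stab n
  intro x i hi
  have h1 : ∀ i, i < n → q x i = q' x i := by
    intro i hi
    have e1 : ∀ j, j < n → x j = ext F n (fun i : Fin n => x i) j := by
      intro j hj; rw [ext_apply _ hj]
    have e2 := (Q_tree hq n x (ext F n (fun i : Fin n => x i))).1 e1 i hi
    have e3 := (Q_tree hq' n x (ext F n (fun i : Fin n => x i))).1 e1 i hi
    have e4 := congrFun (congrFun h (fun i : Fin n => x i)) ⟨i, hi⟩
    rw [e2, e3]; exact e4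
  have h2 := (Q_tree hq n ((q⁻¹ * q') x) x).2 (by
    intro j hj
    have e : q ((q⁻¹ * q') x) = q' x := q.apply_symm_apply _
    rw [e, h1 j hj])
  exact h2 i hi

lemma st_index_ne (n : ℕ) : (F.st n).index ≠ 0 := by
  have := st_finite (F := F) n
  rw [Subgroup.index]
  exact Nat.card_pos.ne'

lemma exists_level (hB : Perf B) : ∀ (n : ℕ) (F : Fam B), ∃ q ∈ F.Q, q ∈ F.stab n ∧ q ∉ F.stab (n + 1) := by
  intro n
  induction n with
  | zero =>
    intro F
    obtain ⟨g, _, hg⟩ := F.b3 0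
    refine ⟨root g, root_mem g, fun x i hi => absurd hi (Nat.not_lt_zero i), fun h => hg ?_⟩
    have := h (fun i => F.o i) 0 Nat.one_pos
    exact this
  | succ n ih =>
    classical
    intro F
    obtain ⟨q, hq, h1, h2⟩ := ih F.shift
    refine ⟨sec (F.o 0) q, sec_mem hB _ hq, ?_, ?_⟩
    · rw [sec_def, fib_mem_stab]
      intro a
      by_cases ha : a = F.o 0
      · subst ha; rw [Pi.mulSingle_eq_same]; exact h1
      · rw [Pi.mulSingle_eq_of_ne ha]; exact Subgroup.one_mem _
    · rw [sec_def, fib_mem_stab]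
      intro h
      have := h (F.o 0)
      rw [Pi.mulSingle_eq_same] at this
      exact h2 this

lemma st_anti {m n : ℕ} (h : m ≤ n) : F.st n ≤ F.st m := fun _ hq => stab_mono h hq

lemma st_index_succ (hB : Perf B) (n : ℕ) : 2 * (F.st n).index ≤ (F.st (n + 1)).index := by
  have h1 := Subgroup.relIndex_mul_index (st_anti (F := F) (Nat.le_succ n))
  have h2 := st_index_ne (F := F) (n + 1)
  have h3 : (F.st (n + 1)).relIndex (F.st n) ≠ 0 := by
    intro h; rw [Nat.succ_eq_add_one] at h1; rw [h, zero_mul] at h1; exact h2 h1.symm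
  have h4 : (F.st (n + 1)).relIndex (F.st n) ≠ 1 := by
    intro h
    rw [Subgroup.relIndex_eq_one] at h
    obtain ⟨q, hq, hq1, hq2⟩ := exists_level hB n F
    have h5 : (⟨q, hq⟩ : F.Q) ∈ F.st n := hq1
    exact hq2 (h h5)
  rw [← h1]
  apply Nat.mul_le_mul_right
  change 2 ≤ (F.st (n + 1)).relIndex (F.st n)
  omega

lemma st_index_ge (hB : Perf B) (n : ℕ) : 2 ^ n ≤ (F.st n).index := by
  induction n with
  | zero =>
    have := st_index_ne (F := F) 0
    rw [pow_zero]; omega
  | succ n ih =>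
    have := st_index_succ (F := F) hB n
    rw [pow_succ]; omega

theorem Q_infinite (hB : Perf B) : Infinite F.Q := by
  by_contra h
  rw [not_infinite_iff_finite] at h
  have h1 := st_index_ge (F := F) hB (Nat.card F.Q)
  have h2 : (F.st (Nat.card F.Q)).index ≤ Nat.card F.Q :=
    Nat.le_of_dvd Nat.card_pos (Subgroup.index_dvd_card _)
  have h3 : Nat.card F.Q < 2 ^ Nat.card F.Q := Nat.lt_two_pow_self
  omega

instance instFinG (i : ℕ) : Finite (F.G i) := by
  apply Finite.of_injective (fun g : F.G i => fun x : F.X i => g • x)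
  intro g h e
  apply FaithfulSMul.eq_of_smul_eq_smul (α := F.X i)
  intro a
  exact congrFun e a

theorem Q_fg (hfg : Group.FG B) : Group.FG F.Q := by
  rw [Group.fg_iff_subgroup_fg]
  obtain ⟨T, hT, hTf⟩ := (Group.fg_iff (G := B)).1 hfg
  refine (Subgroup.fg_iff _).2 ⟨Set.range (root (F := F)) ∪ dd '' T, ?_,
    (Set.finite_range _).union (hTf.image _)⟩
  rw [Subgroup.closure_union]
  congr 1
  · rw [← MonoidHom.coe_range, Subgroup.closure_eq]
  · rw [← MonoidHom.map_closure, hT, MonoidHom.range_eq_map]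

/-- sections as homomorphisms into `Q` -/
noncomputable def secQ (hB : Perf B) (a : F.X 0) : F.shift.Q →* F.Q :=
  ((sec a).comp F.shift.Q.subtype).codRestrict F.Q (fun u => sec_mem hB a u.2)

lemma secQ_coe (hB : Perf B) (a : F.X 0) (u : F.shift.Q) :
    ((secQ hB a u : F.Q) : Equiv.Perm F.Xi) = sec a (u : Equiv.Perm F.shift.Xi) := rfl

lemma secQ_inj (hB : Perf B) (a : F.X 0) : Function.Injective (secQ (F := F) hB a) := by
  intro u v h
  apply Subtype.ext
  apply sec_inj a
  exact congrArg Subtype.val h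

theorem Q_oneEnd (hB : Perf B) (hfg : Group.FG B) (A : Type) : OneEnd F.Q A := by
  refine oneEnd_of_family (fun a : F.X 0 => (secQ (F := F) hB a).range) (F.hoy 0) ?_ ?_ ?_ ?_ ?_
  · intro a
    rw [← Group.fg_iff_subgroup_fg]
    have := Q_fg (F := F.shift) hfg
    exact Group.fg_range _
  · intro a
    have := Q_infinite (F := F.shift) hB
    apply Infinite.of_injective (fun u : F.shift.Q => (⟨secQ hB a u, ⟨u, rfl⟩⟩ : (secQ (F := F) hB a).range))
    intro u v h
    exact secQ_inj hB a (congrArg Subtype.val h)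
  · rintro a a' h _ ⟨u, rfl⟩ _ ⟨v, rfl⟩
    apply Subtype.ext
    exact sec_comm h _ _
  · classical
    rintro a a' h _ ⟨u, rfl⟩ ⟨v, hv⟩
    have h1 : sec a' (v : Equiv.Perm F.shift.Xi) = sec a (u : Equiv.Perm F.shift.Xi) :=
      congrArg Subtype.val hv
    rw [sec_def, sec_def] at h1
    have h2 := congrFun (fib_inj h1) a
    rw [Pi.mulSingle_eq_same, Pi.mulSingle_eq_of_ne h] at h2
    have h3 : u = 1 := Subtype.ext h2.symm
    rw [h3, map_one]
  · rintro ⟨q, hq⟩ a
    obtain ⟨f, g, hf, rfl⟩ := exists_of_mem hq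
    refine ⟨g • a, ?_⟩
    rintro _ ⟨u, rfl⟩
    refine ⟨⟨f (g • a) * u * (f (g • a))⁻¹, F.shift.Q.mul_mem (F.shift.Q.mul_mem (hf _) u.2)
      (F.shift.Q.inv_mem (hf _))⟩, ?_⟩
    apply Subtype.ext
    change sec (g • a) (f (g • a) * u * (f (g • a))⁻¹) =
      (fib f * root g) * sec a (u : Equiv.Perm F.shift.Xi) * (fib f * root g)⁻¹
    rw [← fib_conj_sec, ← root_conj_sec]; group

end Fam

end Pool.Agent.W5h69.Seg
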