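import Mathlib
import Pool.Agent.W5h69.Seg.Index

set_option autoImplicit false

/-! # The level groups: zero-sum vectors extended by the alternating group of degree five -/

namespace Pool.Agent.W5h69.Seg

open scoped commutatorElement
open Wr

/-- the alternating group of degree five -/
abbrev A5 : Type := alternatingGroup (Fin 5)

/-- zero-sum functions `Fin 5 → A` extended by the alternating group -/
@[ext] structure GG (A : Type) [AddCommGroup A] where
  /-- translation part -/
  t : Fin 5 → A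
  /-- permutation part -/
  k : A5
  /-- zero sum -/
  ht : ∑ i, t i = 0

namespace GG

variable {A : Type} [AddCommGroup A]

lemma sum_smul (k : A5) (t : Fin 5 → A) : ∑ i, t (k • i) = ∑ i, t i :=
  Equiv.sum_comp (MulAction.toPerm k) t

instance : Mul (GG A) := ⟨fun a b => ⟨fun i => a.t i + b.t (a.k⁻¹ • i), a.k * b.k, by
  rw [Finset.sum_add_distrib, sum_smul, a.ht, b.ht, add_zero]⟩⟩
instance : One (GG A) := ⟨⟨fun _ => 0, 1, by simp⟩⟩
instance : Inv (GG A) := ⟨fun a => ⟨fun i => - a.t (a.k • i), a.k⁻¹, by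
  rw [Finset.sum_neg_distrib, sum_smul, a.ht, neg_zero]⟩⟩

@[simp] lemma mul_t (a b : GG A) (i : Fin 5) : (a * b).t i = a.t i + b.t (a.k⁻¹ • i) := rfl
@[simp] lemma mul_k (a b : GG A) : (a * b).k = a.k * b.k := rfl
@[simp] lemma one_t (i : Fin 5) : (1 : GG A).t i = 0 := rfl
@[simp] lemma one_k : (1 : GG A).k = 1 := rfl
@[simp] lemma inv_t (a : GG A) (i : Fin 5) : (a⁻¹).t i = - a.t (a.k • i) := rfl
@[simp] lemma inv_k (a : GG A) : (a⁻¹).k = a.k⁻¹ := rfl

lemma ext' {a b : GG A} (h1 : ∀ i, a.t i = b.t i) (h2 : a.k = b.k) : a = b :=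
  GG.ext (funext h1) h2

instance : Group (GG A) := Group.ofLeftAxioms
  (by
    intro a b c
    apply ext'
    · intro i; simp [add_assoc, mul_smul]
    · simp [mul_assoc])
  (by
    intro a
    apply ext'
    · intro i; simp
    · simp)
  (by
    intro a
    apply ext'
    · intro i; simp
    · simp)

/-- the complement -/
def kap : A5 →* GG A where
  toFun k := ⟨fun _ => 0, k, by simp⟩
  map_one' := rfl
  map_mul' a b := by
    apply ext'
    · intro i; simp
    · simp

@[simp] lemma kap_t (k : A5) (i : Fin 5) : (kap k : GG A).t i = 0 := rfl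
@[simp] lemma kap_k (k : A5) : (kap k : GG A).k = k := rfl

/-- projection to the permutation part -/
def prk : GG A →* A5 where
  toFun w := w.k
  map_one' := rfl
  map_mul' _ _ := rfl

/-- translations -/
def tr (t : Fin 5 → A) (ht : ∑ i, t i = 0) : GG A := ⟨t, 1, ht⟩

/-- elementary translations -/
def u (i j : Fin 5) (a : A) : GG A :=
  ⟨fun l => (Pi.single i a : Fin 5 → A) l - (Pi.single j a : Fin 5 → A) l, 1, by
    rw [Finset.sum_sub_distrib]; simp⟩

lemma u_t (i j : Fin 5) (a : A) (l : Fin 5) :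
    (u i j a).t l = (Pi.single i a : Fin 5 → A) l - (Pi.single j a : Fin 5 → A) l := rfl
@[simp] lemma u_k (i j : Fin 5) (a : A) : (u i j a).k = 1 := rfl

lemma u_add (i j : Fin 5) (a b : A) : u i j (a + b) = u i j a * u i j b := by
  apply ext'
  · intro l
    simp only [mul_t, u_t, u_k, inv_one, one_smul, Pi.single_add, Pi.add_apply]
    abel
  · simp

lemma u_zero (i j : Fin 5) : u i j (0 : A) = 1 := by
  apply ext'
  · intro l; simp [u_t]
  · simp

lemma u_neg (i j : Fin 5) (a : A) : u i j (-a) = (u i j a)⁻¹ := by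
  rw [eq_inv_iff_mul_eq_one, ← u_add, neg_add_cancel, u_zero]

lemma u_self (i : Fin 5) (a : A) : u i i a = 1 := by
  apply ext'
  · intro l; simp [u_t]
  · simp

/-- the additive subgroup of those `a` with `u i j a ∈ H` -/
def wt (H : Subgroup (GG A)) (i j : Fin 5) : AddSubgroup A where
  carrier := {a | u i j a ∈ H}
  zero_mem' := by
    change u i j 0 ∈ H
    rw [u_zero]; exact H.one_mem
  add_mem' := by
    intro a b ha hb
    change u i j (a + b) ∈ H
    rw [u_add]; exact H.mul_mem ha hb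
  neg_mem' := by
    intro a ha
    change u i j (-a) ∈ H
    rw [u_neg]; exact H.inv_mem ha

lemma mem_wt {H : Subgroup (GG A)} {i j : Fin 5} {a : A} : a ∈ wt H i j ↔ u i j a ∈ H := Iff.rfl

lemma smul_single (k : A5) (i : Fin 5) (a : A) (l : Fin 5) :
    (Pi.single i a : Fin 5 → A) (k⁻¹ • l) = (Pi.single (k • i) a : Fin 5 → A) l := by
  by_cases h : l = k • i
  · subst h; simp
  · have : k⁻¹ • l ≠ i := fun h2 => h (by rw [← h2, smul_inv_smul])
    simp [h, this]

lemma conj_u (w : GG A) (i j : Fin 5) (a : A) : w * u i j a * w⁻¹ = u (w.k • i) (w.k • j) a := by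
  apply ext'
  · intro l
    simp only [mul_t, mul_k, u_t, u_k, inv_t, mul_one, smul_single, smul_inv_smul]
    abel
  · simp

lemma conj_tr (k : A5) (t : Fin 5 → A) (ht : ∑ i, t i = 0) (ht' : ∑ i, t (k⁻¹ • i) = 0) :
    kap k * tr t ht * (kap k)⁻¹ = tr (fun i => t (k⁻¹ • i)) ht' := by
  apply ext'
  · intro l
    simp [tr]
  · simp [tr]

lemma tr_mem (H : Subgroup (GG A)) (t : Fin 5 → A) (ht : ∑ i, t i = 0)
    (h : ∀ i, i ≠ 0 → u i 0 (t i) ∈ H) : tr t ht ∈ H := by
  have e : tr t ht = u 1 0 (t 1) * u 2 0 (t 2) * u 3 0 (t 3) * u 4 0 (t 4) := by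
    apply ext'
    · intro l
      have h5 := ht
      rw [Fin.sum_univ_five] at h5
      have h6 : t 0 = -(t 1 + t 2 + t 3 + t 4) := by
        rw [eq_neg_iff_add_eq_zero, ← h5]; abel
      fin_cases l
      · simp [u_t, tr, h6]; abel
      all_goals simp [u_t, tr]
    · simp [tr]
  rw [e]
  exact H.mul_mem (H.mul_mem (H.mul_mem (h 1 (by decide)) (h 2 (by decide))) (h 3 (by decide)))
    (h 4 (by decide))

lemma eq_tr_mul (w : GG A) : w = tr w.t w.ht * kap w.k := by
  apply ext'
  · intro l; simp [tr]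
  · simp [tr]

/-- three-cycles -/
def cyc (i l m : Fin 5) (h1 : i ≠ l) (h2 : l ≠ m) : A5 :=
  ⟨Equiv.swap i l * Equiv.swap l m, by
    rw [Equiv.Perm.mem_alternatingGroup, Equiv.Perm.sign_mul, Equiv.Perm.sign_swap h1,
      Equiv.Perm.sign_swap h2]; rfl⟩

lemma cyc_smul (i l m : Fin 5) (h1 : i ≠ l) (h2 : l ≠ m) (x : Fin 5) :
    cyc i l m h1 h2 • x = Equiv.swap i l (Equiv.swap l m x) := rfl

lemma cyc_inv_smul (i l m : Fin 5) (h1 : i ≠ l) (h2 : l ≠ m) (x : Fin 5) :
    (cyc i l m h1 h2)⁻¹ • x = Equiv.swap l m (Equiv.swap i l x) := by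
  rw [inv_smul_eq_iff, cyc_smul]; simp

lemma ex_third : ∀ i l j : Fin 5, ∃ m : Fin 5, m ≠ i ∧ m ≠ l ∧ m ≠ j := by decide

lemma ex_move (i l j : Fin 5) (h1 : i ≠ l) (h2 : j ≠ i) (h3 : j ≠ l) :
    ∃ k : A5, k • i = l ∧ k • j = j := by
  obtain ⟨m, hm1, hm2, hm3⟩ := ex_third i l j
  refine ⟨cyc i l m h1 hm2.symm, ?_, ?_⟩
  · rw [cyc_smul, Equiv.swap_apply_of_ne_of_ne h1 hm1.symm, Equiv.swap_apply_left]
  · rw [cyc_smul, Equiv.swap_apply_of_ne_of_ne h3 hm3.symm, Equiv.swap_apply_of_ne_of_ne h2 h3]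

/-- the key commutator identity -/
lemma u_comm {w : GG A} {i l j : Fin 5} (hi : w.k • i = l) (hj : w.k • j = j) (a : A) :
    w * u i j a * w⁻¹ * (u i j a)⁻¹ = u l i a := by
  rw [conj_u, hi, hj]
  apply ext'
  · intro x
    simp only [mul_t, u_t, u_k, inv_t, inv_one, one_smul]
    abel
  · simp

theorem simpNA_A5 : SimpNA A5 := by
  have hs : IsSimpleGroup A5 := alternatingGroup.isSimpleGroup (by simp)
  have hne : ∃ a b : A5, a * b ≠ b * a := by
    refine ⟨cyc 0 1 2 (by decide) (by decide), cyc 1 2 3 (by decide) (by decide), ?_⟩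
    intro h
    have := congrArg (fun k : A5 => k • (0 : Fin 5)) h
    revert this
    decide
  have hc : Subgroup.center A5 = ⊥ := by
    rcases (inferInstance : (Subgroup.center A5).Normal).eq_bot_or_eq_top with h | h
    · exact h
    · exfalso
      obtain ⟨a, b, hab⟩ := hne
      apply hab
      have : b ∈ Subgroup.center A5 := by rw [h]; exact Subgroup.mem_top b
      exact (Subgroup.mem_center_iff.1 this) a
  refine ⟨fun N hN hne => hN.eq_bot_or_eq_top.resolve_left hne, fun s hs => ?_, ?_⟩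
  · by_contra hcon
    push Not at hcon
    apply hs
    rw [← Subgroup.mem_bot, ← hc, Subgroup.mem_center_iff]
    intro t
    have := hcon t
    rw [mul_inv_eq_one, mul_inv_eq_iff_eq_mul] at this
    exact this.symm
  · obtain ⟨a, b, hab⟩ := hne
    refine ⟨a, fun h => hab ?_⟩
    rw [h]; simp

theorem perf_A5 : Perf A5 := by
  intro H hH
  apply simpNA_A5.simple
  · constructor
    intro n hn g
    have : g * n * g⁻¹ = ⁅g, n⁆ * n := by rw [commutatorElement_def]; group
    rw [this]; exact H.mul_mem (hH _ _) hn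
  · intro hb
    obtain ⟨s, hs⟩ := simpNA_A5.ne
    obtain ⟨t, ht⟩ := simpNA_A5.nc s hs
    have := hH s t
    rw [hb, Subgroup.mem_bot] at this
    exact ht this

lemma top_of {H : Subgroup (GG A)} (h1 : ∀ k, kap k ∈ H) (h2 : ∀ i j, i ≠ j → ∀ a, u i j a ∈ H) :
    H = ⊤ := by
  rw [eq_top_iff]
  intro w _
  rw [eq_tr_mul w]
  exact H.mul_mem (tr_mem H _ _ (fun i hi => h2 i 0 hi _)) (h1 _)

lemma ex_two (i l : Fin 5) : ∃ j : Fin 5, j ≠ i ∧ j ≠ l := by
  obtain ⟨m, h1, h2, _⟩ := ex_third i l l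
  exact ⟨m, h1, h2⟩

theorem perf_GG : Perf (GG A) := by
  intro H hH
  apply top_of
  · intro k
    have : H.comap kap = ⊤ := by
      apply perf_A5
      intro b b'
      rw [Subgroup.mem_comap, map_commutatorElement]
      exact hH _ _
    have h2 : k ∈ H.comap (kap : A5 →* GG A) := by rw [this]; exact Subgroup.mem_top k
    exact h2
  · intro l i hli a
    obtain ⟨j, hj1, hj2⟩ := ex_two i l
    obtain ⟨k, hk1, hk2⟩ := ex_move i l j hli.symm hj1 hj2
    have := hH (kap k) (u i j a)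
    rw [commutatorElement_def, u_comm (w := kap k) hk1 hk2] at this
    exact this

section map

variable {A' : Type} [AddCommGroup A'] (φ : A →+ A')

/-- functoriality in the coefficients -/
def map : GG A →* GG A' where
  toFun w := ⟨fun i => φ (w.t i), w.k, by rw [← map_sum, w.ht, map_zero]⟩
  map_one' := by
    apply ext'
    · intro i; simp
    · rfl
  map_mul' a b := by
    apply ext'
    · intro i; simp
    · rfl

@[simp] lemma map_t (w : GG A) (i : Fin 5) : (map φ w).t i = φ (w.t i) := rfl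
@[simp] lemma map_k (w : GG A) : (map φ w).k = w.k := rfl

lemma map_u (i j : Fin 5) (a : A) : map φ (u i j a) = u i j (φ a) := by
  apply ext'
  · intro l
    simp only [map_t, u_t, map_sub]
    congr 1
    · by_cases h : l = i
      · subst h; simp
      · simp [h]
    · by_cases h : l = j
      · subst h; simp
      · simp [h]
  · rfl

lemma map_surj (h : Function.Surjective φ) : Function.Surjective (map φ) := by
  rw [← MonoidHom.range_eq_top]
  apply top_of
  · intro k
    refine ⟨kap k, ?_⟩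
    apply ext'
    · intro i; simp
    · rfl
  · intro i j _ a
    obtain ⟨b, rfl⟩ := h a
    exact ⟨u i j b, map_u φ i j b⟩

end map

theorem fg_ZZ : Group.FG (GG (ℤ × ℤ)) := by
  rw [Group.fg_iff]
  refine ⟨Set.range (kap : A5 → GG (ℤ × ℤ)) ∪
    Set.range (fun q : Fin 5 × Fin 5 × Bool => u q.1 q.2.1 (if q.2.2 then ((1, 0) : ℤ × ℤ) else (0, 1))),
    ?_, (Set.finite_range _).union (Set.finite_range _)⟩
  set H := Subgroup.closure (Set.range (kap : A5 → GG (ℤ × ℤ)) ∪
    Set.range (fun q : Fin 5 × Fin 5 × Bool => u q.1 q.2.1 (if q.2.2 then ((1, 0) : ℤ × ℤ) else (0, 1))))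
    with hH
  apply top_of
  · intro k
    exact Subgroup.subset_closure (Or.inl ⟨k, rfl⟩)
  · intro i j _ a
    have h1 : ((1, 0) : ℤ × ℤ) ∈ wt H i j :=
      Subgroup.subset_closure (Or.inr ⟨(i, j, true), by simp⟩)
    have h2 : ((0, 1) : ℤ × ℤ) ∈ wt H i j :=
      Subgroup.subset_closure (Or.inr ⟨(i, j, false), by simp⟩)
    have h3 : a = a.1 • ((1, 0) : ℤ × ℤ) + a.2 • ((0, 1) : ℤ × ℤ) := by
      ext <;> simp
    change a ∈ wt H i j
    rw [h3]
    exact (wt H i j).add_mem ((wt H i j).zsmul_mem h1 _) ((wt H i j).zsmul_mem h2 _)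

/-- points on which the level groups act -/
@[ext] structure Pt (A : Type) where
  /-- fibre index -/
  i : Fin 5
  /-- position in the fibre -/
  v : A

instance [Finite A] : Finite (Pt A) :=
  Finite.of_injective (fun x : Pt A => (x.i, x.v)) (fun x y h => by
    ext
    · exact congrArg (fun z => (z.1 : ℕ)) h
    · exact congrArg Prod.snd h)

instance : MulAction (GG A) (Pt A) where
  smul w x := ⟨w.k • x.i, w.t (w.k • x.i) + x.v⟩
  one_smul x := by
    change (⟨(1 : A5) • x.i, (1 : GG A).t ((1 : A5) • x.i) + x.v⟩ : Pt A) = x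
    simp
  mul_smul a b x := by
    change (⟨(a.k * b.k) • x.i, (a * b).t ((a.k * b.k) • x.i) + x.v⟩ : Pt A) =
      ⟨a.k • (b.k • x.i), a.t (a.k • (b.k • x.i)) + (b.t (b.k • x.i) + x.v)⟩
    simp [mul_smul, add_assoc]

lemma smul_def (w : GG A) (x : Pt A) : w • x = ⟨w.k • x.i, w.t (w.k • x.i) + x.v⟩ := rfl

instance : FaithfulSMul (GG A) (Pt A) := by
  constructor
  intro a b h
  have hk : a.k = b.k := by
    apply Subtype.ext
    ext1 i
    have := congrArg Pt.i (h ⟨i, 0⟩)
    exact this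
  apply ext'
  · intro i
    have := congrArg Pt.v (h ⟨a.k⁻¹ • i, 0⟩)
    rw [smul_def, smul_def, ← hk] at this
    simpa using this
  · exact hk

lemma ex_trans (i j : Fin 5) : ∃ k : A5, k • i = j := by
  by_cases h : i = j
  · exact ⟨1, by rw [h, one_smul]⟩
  · obtain ⟨l, h1, h2⟩ := ex_two i j
    obtain ⟨k, hk, _⟩ := ex_move i j l h h1 h2
    exact ⟨k, hk⟩

instance : MulAction.IsPretransitive (GG A) (Pt A) := by
  constructor
  rintro ⟨i, v⟩ ⟨j, w⟩
  obtain ⟨k, hk⟩ := ex_trans i j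
  obtain ⟨l, h1, _⟩ := ex_two j j
  refine ⟨u j l (w - v) * kap k, ?_⟩
  rw [smul_def]
  ext
  · simp [hk]
  · simp [hk, u_t, h1.symm]

end GG

end Pool.Agent.W5h69.Seg
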