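import Mathlib
import Pool.Agent.W5h69.Seg.GG

set_option autoImplicit false

/-! # Normal subgroups of the level groups -/

namespace Pool.Agent.W5h69.Seg

open scoped commutatorElement
open Wr

namespace GG

section gen

variable {A : Type} [AddCommGroup A] {N : Subgroup (GG A)}

/-- a normal subgroup with nontrivial permutation part is everything -/
theorem eq_top_of (hN : N.Normal) {w : GG A} (hw : w ∈ N) (hk : w.k ≠ 1) : N = ⊤ := by
  have h1 : N.map prk = ⊤ := by
    apply simpNA_A5.simple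
    · exact Subgroup.Normal.map hN _ (fun k => ⟨kap k, rfl⟩)
    · intro hb
      apply hk
      rw [← Subgroup.mem_bot, ← hb]
      exact ⟨w, hw, rfl⟩
  have h2 : ∀ k : A5, ∃ w ∈ N, w.k = k := by
    intro k
    have : k ∈ N.map prk := by rw [h1]; exact Subgroup.mem_top k
    exact this
  have h3 : ∀ l i, l ≠ i → ∀ a, u l i a ∈ N := by
    intro l i hli a
    obtain ⟨j, hj1, hj2⟩ := ex_two i l
    obtain ⟨k, hk1, hk2⟩ := ex_move i l j hli.symm hj1 hj2
    obtain ⟨w, hw, rfl⟩ := h2 k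
    rw [← u_comm hk1 hk2 a]
    have := N.mul_mem hw (hN.conj_mem _ (N.inv_mem hw) (u i j a))
    convert this using 1
    group
  apply top_of _ h3
  intro k
  obtain ⟨w, hw, rfl⟩ := h2 k
  have := N.mul_mem (N.inv_mem (tr_mem N w.t w.ht (fun i hi => h3 i 0 hi _))) hw
  have e2 : (tr w.t w.ht)⁻¹ * w = kap w.k := by
    rw [inv_mul_eq_iff_eq_mul]; exact eq_tr_mul w
  rwa [e2] at this

lemma ex_pair (m l i j : Fin 5) (h1 : m ≠ l) (h2 : i ≠ j) : ∃ k : A5, k • m = i ∧ k • l = j := by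
  obtain ⟨k1, hk1⟩ := ex_trans m i
  by_cases h3 : k1 • l = j
  · exact ⟨k1, hk1, h3⟩
  · have h4 : i ≠ k1 • l := by
      intro h; rw [← hk1] at h
      exact h1 (MulAction.injective k1 h)
    obtain ⟨k2, hk2, hk3⟩ := ex_move (k1 • l) j i h3 h4 h2
    refine ⟨k2 * k1, ?_, ?_⟩
    · rw [mul_smul, hk1, hk3]
    · rw [mul_smul, hk2]

lemma u_move (hN : N.Normal) {m l : Fin 5} (h1 : m ≠ l) {a : A} (h : u m l a ∈ N) {i j : Fin 5}
    (h2 : i ≠ j) : u i j a ∈ N := by
  obtain ⟨k, hk1, hk2⟩ := ex_pair m l i j h1 h2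
  have := hN.conj_mem _ h (kap k)
  rwa [conj_u, kap_k, hk1, hk2] at this

lemma ex_rest : ∀ i j l : Fin 5, i ≠ j → i ≠ l → j ≠ l →
    ∃ m m' : Fin 5, m ≠ i ∧ m ≠ j ∧ m ≠ l ∧ m' ≠ i ∧ m' ≠ j ∧ m' ≠ l ∧ m ≠ m' := by decide

lemma kap_comm (k : A5) (t : GG A) (ht : t.k = 1) :
    ∃ (h : ∑ i, (t.t (k⁻¹ • i) - t.t i) = 0),
      kap k * t * (kap k)⁻¹ * t⁻¹ = tr (fun i => t.t (k⁻¹ • i) - t.t i) h := by
  refine ⟨?_, ?_⟩
  · rw [Finset.sum_sub_distrib, sum_smul, t.ht, sub_zero]
  · apply ext'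
    · intro i
      simp [tr, ht, sub_eq_add_neg]
    · simp [tr, ht]

/-- differences of coordinates are weights -/
theorem diff_mem (hN : N.Normal) {w : GG A} (hw : w ∈ N) (hk : w.k = 1) {j l : Fin 5} (hjl : j ≠ l)
    {i' j' : Fin 5} (h2 : i' ≠ j') : u i' j' (w.t j - w.t l) ∈ N := by
  obtain ⟨i, hi1, hi2⟩ := ex_two j l
  obtain ⟨m, m', hm1, hm2, hm3, hm1', hm2', hm3', hmm⟩ := ex_rest i j l hi1 hi2 hjl
  -- first commutator
  obtain ⟨s1, e1⟩ := kap_comm (cyc i j l hi1 hjl) w hk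
  have m1 : tr (fun x => w.t ((cyc i j l hi1 hjl)⁻¹ • x) - w.t x) s1 ∈ N := by
    rw [← e1]
    exact N.mul_mem (hN.conj_mem _ hw _) (N.inv_mem hw)
  set v := tr (fun x => w.t ((cyc i j l hi1 hjl)⁻¹ • x) - w.t x) s1 with hv
  have v1 : ∀ x, x ≠ i → x ≠ j → x ≠ l → v.t x = 0 := by
    intro x h1 h2 h3
    change w.t ((cyc i j l hi1 hjl)⁻¹ • x) - w.t x = 0
    rw [cyc_inv_smul, Equiv.swap_apply_of_ne_of_ne h1 h2, Equiv.swap_apply_of_ne_of_ne h2 h3,
      sub_self]
  have v2 : v.t l = w.t j - w.t l := by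
    change w.t ((cyc i j l hi1 hjl)⁻¹ • l) - w.t l = _
    rw [cyc_inv_smul, Equiv.swap_apply_of_ne_of_ne hi2.symm hjl.symm, Equiv.swap_apply_right]
  obtain ⟨s2, e2⟩ := kap_comm (cyc l m m' hm3.symm hmm) v rfl
  have m2 : tr (fun x => v.t ((cyc l m m' hm3.symm hmm)⁻¹ • x) - v.t x) s2 ∈ N := by
    rw [← e2]
    exact N.mul_mem (hN.conj_mem _ m1 _) (N.inv_mem m1)
  have e3 : tr (fun x => v.t ((cyc l m m' hm3.symm hmm)⁻¹ • x) - v.t x) s2 =
      u m l (w.t j - w.t l) := by
    apply ext'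
    · intro x
      change v.t ((cyc l m m' hm3.symm hmm)⁻¹ • x) - v.t x = _
      rw [cyc_inv_smul, u_t]
      by_cases xl : x = l
      · subst xl
        rw [Equiv.swap_apply_left, Equiv.swap_apply_left, v1 m' hm1' hm2' hm3', v2]
        simp [hm3.symm]
      · by_cases xm : x = m
        · subst xm
          rw [Equiv.swap_apply_right, Equiv.swap_apply_of_ne_of_ne hm3.symm hm3'.symm, v2,
            v1 x hm1 hm2 hm3]
          simp [hm3]
        · rw [Equiv.swap_apply_of_ne_of_ne xl xm]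
          by_cases xm' : x = m'
          · subst xm'
            rw [Equiv.swap_apply_right, v1 m hm1 hm2 hm3, v1 x hm1' hm2' hm3']
            simp [xl, xm]
          · rw [Equiv.swap_apply_of_ne_of_ne xm xm', sub_self]
            simp [xl, xm]
    · rfl
  rw [e3] at m2
  exact u_move hN hm3 m2 h2

/-- coordinates are weights when five is invertible -/
theorem coord_mem (hN : N.Normal) (n : ℕ) (hn : ∀ a : A, n • (5 : ℕ) • a = a) {w : GG A}
    (hw : w ∈ N) (hk : w.k = 1) (l : Fin 5) {i' j' : Fin 5} (h2 : i' ≠ j') :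
    u i' j' (w.t l) ∈ N := by
  have h1 : ∀ j, w.t l - w.t j ∈ wt N i' j' := by
    intro j
    by_cases h : l = j
    · subst h; rw [sub_self]; exact AddSubgroup.zero_mem _
    · exact diff_mem hN hw hk h h2
  have h3 : (5 : ℕ) • w.t l = ∑ j, (w.t l - w.t j) := by
    rw [Finset.sum_sub_distrib, w.ht, sub_zero, Finset.sum_const, Finset.card_univ, Fintype.card_fin]
  have h4 : (5 : ℕ) • w.t l ∈ wt N i' j' := by
    rw [h3]; exact AddSubgroup.sum_mem _ (fun j _ => h1 j)
  have h5 := AddSubgroup.nsmul_mem _ h4 n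
  rw [hn] at h5
  exact h5

theorem mem_iff_coord (hN : N.Normal) (n : ℕ) (hn : ∀ a : A, n • (5 : ℕ) • a = a) {w : GG A}
    (hk : w.k = 1) : w ∈ N ↔ ∀ l, w.t l ∈ wt N 0 1 := by
  constructor
  · intro hw l
    exact coord_mem hN n hn hw hk l (by decide)
  · intro h
    have e : w = tr w.t w.ht := by
      apply ext'
      · intro i; rfl
      · exact hk
    rw [e]
    exact tr_mem N _ _ (fun i hi => u_move hN (by decide) (h i) hi)

/-- normal subgroups are not shrunk by commutation with the whole group -/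
theorem le_comm (hN : N.Normal) (n : ℕ) (hn : ∀ a : A, n • (5 : ℕ) • a = a) :
    N ≤ ⁅N, (⊤ : Subgroup (GG A))⁆ := by
  by_cases h : ∃ w ∈ N, w.k ≠ 1
  · obtain ⟨w, hw, hk⟩ := h
    rw [eq_top_of hN hw hk]
    have : ⁅(⊤ : Subgroup (GG A)), (⊤ : Subgroup (GG A))⁆ = ⊤ := by
      apply perf_GG
      intro b b'
      exact Subgroup.commutator_mem_commutator (Subgroup.mem_top b) (Subgroup.mem_top b')
    rw [this]
  · push Not at h
    intro w hw
    have e : w = tr w.t w.ht := by
      apply ext'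
      · intro i; rfl
      · exact h w hw
    rw [e]
    apply tr_mem
    intro l hl
    obtain ⟨j, hj1, hj2⟩ := ex_two 0 l
    obtain ⟨k, hk1, hk2⟩ := ex_move 0 l j hl.symm hj1 hj2
    have h1 : u 0 j (w.t l) ∈ N := coord_mem hN n hn hw (h w hw) l hj1.symm
    have h2 := Subgroup.commutator_mem_commutator h1 (Subgroup.mem_top (kap k : GG A))
    have h3 := Subgroup.inv_mem _ h2
    rw [commutatorElement_inv, commutatorElement_def, u_comm (w := kap k) hk1 hk2] at h3
    exact h3

end gen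

section prime

/-- the sign change of the second coordinate -/
def sgn (R : Type) [Ring R] : R × R →+ R × R :=
  AddMonoidHom.prodMap (AddMonoidHom.id R) (-AddMonoidHom.id R)

@[simp] lemma sgn_apply (R : Type) [Ring R] (a : R × R) : sgn R a = (a.1, -a.2) := rfl

lemma sgn_sgn (R : Type) [Ring R] (a : R × R) : sgn R (sgn R a) = a := by
  ext <;> simp

variable (p : ℕ) [hp : Fact p.Prime]

/-- coefficients -/
abbrev Ap : Type := ZMod p × ZMod p

variable {p} in
lemma mul_mem_add (W : AddSubgroup (Ap p)) {a : Ap p} (ha : a ∈ W) (c : ZMod p) :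
    (c * a.1, c * a.2) ∈ W := by
  have h : ((c.val : ℕ) • a) ∈ W := W.nsmul_mem ha _
  have e : ((c.val : ℕ) • a) = (c * a.1, c * a.2) := by
    ext <;> simp
  rwa [e] at h

lemma five_inv (h5 : 5 < p) : ∃ n : ℕ, ∀ a : Ap p, n • (5 : ℕ) • a = a := by
  have h : ((5 : ℕ) : ZMod p) ≠ 0 := by
    intro h0
    rw [ZMod.natCast_eq_zero_iff] at h0
    have := Nat.le_of_dvd (by norm_num) h0
    omega
  refine ⟨(((5 : ℕ) : ZMod p)⁻¹).val, fun a => ?_⟩
  have key : ∀ x : ZMod p, (((5 : ℕ) : ZMod p)⁻¹).val • (5 : ℕ) • x = x := by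
    intro x
    rw [nsmul_eq_mul, nsmul_eq_mul, ZMod.natCast_val, ZMod.cast_id', id, ← mul_assoc,
      inv_mul_cancel₀ h, one_mul]
  ext
  · exact key a.1
  · exact key a.2

/-- a sign-invariant subgroup of `F_p²` is determined by which axes it contains -/
lemma inv_mem_iff (h2 : 2 < p) (W : AddSubgroup (Ap p)) (hW : ∀ a ∈ W, sgn (ZMod p) a ∈ W)
    (a : Ap p) : a ∈ W ↔ (a.1 ≠ 0 → ((1, 0) : Ap p) ∈ W) ∧ (a.2 ≠ 0 → ((0, 1) : Ap p) ∈ W) := by
  have h : (2 : ZMod p) ≠ 0 := by
    intro h0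
    have h0' : ((2 : ℕ) : ZMod p) = 0 := by exact_mod_cast h0
    rw [ZMod.natCast_eq_zero_iff] at h0'
    have := Nat.le_of_dvd (by norm_num) h0'
    omega
  constructor
  · intro ha
    have hs := hW a ha
    constructor
    · intro h1
      have h3 := mul_mem_add W (W.add_mem ha hs) ((2 * a.1)⁻¹)
      have e : (((2 * a.1)⁻¹ * (a + sgn (ZMod p) a).1, (2 * a.1)⁻¹ * (a + sgn (ZMod p) a).2) : Ap p) = (1, 0) := by
        ext
        · have : a.1 + a.1 = 2 * a.1 := by ring
          simp only [Prod.fst_add, sgn_apply]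
          rw [this, inv_mul_cancel₀ (mul_ne_zero h h1)]
        · simp
      rwa [e] at h3
    · intro h1
      have h3 := mul_mem_add W (W.sub_mem ha hs) ((2 * a.2)⁻¹)
      have e : (((2 * a.2)⁻¹ * (a - sgn (ZMod p) a).1, (2 * a.2)⁻¹ * (a - sgn (ZMod p) a).2) : Ap p) = (0, 1) := by
        ext
        · simp
        · have : a.2 + a.2 = 2 * a.2 := by ring
          simp only [Prod.snd_sub, sgn_apply, sub_neg_eq_add]
          rw [this, inv_mul_cancel₀ (mul_ne_zero h h1)]
      rwa [e] at h3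
  · rintro ⟨h1, h3⟩
    have e : a = (a.1 * 1, a.1 * 0) + (a.2 * 0, a.2 * 1) := by
      ext <;> simp
    rw [e]
    apply W.add_mem
    · by_cases h4 : a.1 = 0
      · have e0 : ((a.1 * 1, a.1 * 0) : Ap p) = 0 := by ext <;> simp [h4]
        rw [e0]; exact W.zero_mem
      · exact mul_mem_add W (h1 h4) a.1
    · by_cases h4 : a.2 = 0
      · have e0 : ((a.2 * 0, a.2 * 1) : Ap p) = 0 := by ext <;> simp [h4]
        rw [e0]; exact W.zero_mem
      · exact mul_mem_add W (h3 h4) a.2

lemma wt_inv {N : Subgroup (GG (Ap p))} (hN : ∀ g ∈ N, GG.map (sgn (ZMod p)) g ∈ N) :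
    ∀ a ∈ wt N 0 1, sgn (ZMod p) a ∈ wt N 0 1 := by
  intro a ha
  have := hN _ ha
  rwa [map_u] at this

/-- there are at most five sign-invariant normal subgroups -/
theorem inv_count (h5 : 5 < p) :
    {N : Subgroup (GG (Ap p)) | N.Normal ∧ ∀ g ∈ N, GG.map (sgn (ZMod p)) g ∈ N}.encard ≤ 5 := by
  classical
  obtain ⟨n, hn⟩ := five_inv p h5
  have h1 : {N : Subgroup (GG (Ap p)) | N.Normal ∧ ∀ g ∈ N, GG.map (sgn (ZMod p)) g ∈ N}.encard ≤
      (Set.univ : Set (Option (Bool × Bool))).encard := by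
    refine Set.encard_le_encard_of_injOn (f := fun N => if N = ⊤ then none else
      some (decide (((1, 0) : Ap p) ∈ wt N 0 1), decide (((0, 1) : Ap p) ∈ wt N 0 1)))
      (fun _ _ => Set.mem_univ _) ?_
    rintro N ⟨hN, hi⟩ N' ⟨hN', hi'⟩ e
    by_cases t : N = ⊤
    · by_cases t' : N' = ⊤
      · rw [t, t']
      · simp [t, t'] at e
    · by_cases t' : N' = ⊤
      · simp [t, t'] at e
      · simp only [t, t', if_false, Option.some.injEq, Prod.mk.injEq, decide_eq_decide] at e
        obtain ⟨e1, e2⟩ := e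
        have hw : ∀ a, a ∈ wt N 0 1 ↔ a ∈ wt N' 0 1 := by
          intro a
          rw [inv_mem_iff p (by omega) _ (wt_inv p hi), inv_mem_iff p (by omega) _ (wt_inv p hi'),
            e1, e2]
        have hk : ∀ w ∈ N, w.k = 1 := by
          intro w hw
          by_contra hk
          exact t (eq_top_of hN hw hk)
        have hk' : ∀ w ∈ N', w.k = 1 := by
          intro w hw
          by_contra hk
          exact t' (eq_top_of hN' hw hk)
        ext w
        constructor
        · intro h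
          rw [mem_iff_coord hN' n hn (hk w h)]
          intro l
          rw [← hw]
          exact (mem_iff_coord hN n hn (hk w h)).1 h l
        · intro h
          rw [mem_iff_coord hN n hn (hk' w h)]
          intro l
          rw [hw]
          exact (mem_iff_coord hN' n hn (hk' w h)).1 h l
  refine h1.trans ?_
  rw [Set.encard_univ]
  simp [ENat.card_eq_coe_fintype_card]

/-- the normal subgroup attached to a slope -/
def slope (c : ZMod p) : Subgroup (GG (Ap p)) where
  carrier := {w | w.k = 1 ∧ ∀ i, (w.t i).2 = c * (w.t i).1}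
  one_mem' := ⟨rfl, fun i => by simp⟩
  mul_mem' := by
    rintro a b ⟨ha, ha'⟩ ⟨hb, hb'⟩
    refine ⟨by simp [ha, hb], fun i => ?_⟩
    simp only [mul_t, Prod.fst_add, Prod.snd_add, ha', hb']
    ring
  inv_mem' := by
    rintro a ⟨ha, ha'⟩
    refine ⟨by simp [ha], fun i => ?_⟩
    simp only [inv_t, Prod.fst_neg, Prod.snd_neg, ha']
    ring

lemma slope_normal (c : ZMod p) : (slope p c).Normal := by
  constructor
  rintro n ⟨hn, hn'⟩ g
  refine ⟨by simp [hn], fun i => ?_⟩
  simp only [mul_t, mul_k, inv_t, hn, mul_one, Prod.fst_add, Prod.snd_add, Prod.fst_neg,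
    Prod.snd_neg, hn', smul_inv_smul]
  ring

/-- there are at least `p` normal subgroups -/
theorem normal_count : (p : ℕ∞) ≤ {N : Subgroup (GG (Ap p)) | N.Normal}.encard := by
  have h1 : (Set.univ : Set (ZMod p)).encard ≤ {N : Subgroup (GG (Ap p)) | N.Normal}.encard := by
    refine Set.encard_le_encard_of_injOn (f := fun c => slope p c) (fun c _ => slope_normal p c) ?_
    intro c _ c' _ e
    have e' : slope p c = slope p c' := e
    have h2 : u 0 1 ((1, c) : Ap p) ∈ slope p c := by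
      refine ⟨rfl, fun i => ?_⟩
      rw [u_t]
      by_cases h0 : i = 0
      · subst h0; simp
      · by_cases h1 : i = 1
        · subst h1; simp
        · simp [h0, h1]
    rw [e'] at h2
    have h3 := h2.2 0
    rw [u_t] at h3
    simpa using h3
  refine le_trans ?_ h1
  rw [Set.encard_univ, ENat.card_eq_coe_fintype_card, ZMod.card]

end prime

/-- the family of level data attached to a sequence of primes -/
def theFam (p : ℕ → ℕ) (hp : ∀ i, (p i).Prime) (h5 : ∀ i, 5 < p i) : Fam (GG (ℤ × ℤ)) where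
  G i := GG (Ap (p i))
  X i := Pt (Ap (p i))
  instG i := inferInstance
  instA i := inferInstance
  instF i := by
    have : Fact (p i).Prime := ⟨hp i⟩
    infer_instance
  faith i := inferInstance
  trans i := inferInstance
  red i := GG.map (AddMonoidHom.prodMap (Int.castAddHom (ZMod (p i))) (Int.castAddHom (ZMod (p i))))
  surj i := by
    apply map_surj
    rintro ⟨a, b⟩
    obtain ⟨a', rfl⟩ := ZMod.intCast_surjective a
    obtain ⟨b', rfl⟩ := ZMod.intCast_surjective b
    exact ⟨(a', b'), rfl⟩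
  o i := ⟨0, 0⟩
  y i := ⟨1, 0⟩
  hoy i := by
    intro h
    have h2 : (0 : Fin 5) = 1 := congrArg Pt.i h
    exact absurd h2 (by decide)
  b3 i := by
    refine ⟨kap (cyc 0 2 3 (by decide) (by decide)), ?_, ?_⟩
    · rw [smul_def]
      ext
      · simp only [kap_k, cyc_smul]; decide
      · simp
      · simp
    · rw [smul_def]
      intro h
      have := congrArg Pt.i h
      simp only [kap_k, cyc_smul] at this
      revert this
      decide
  b4 i N hN := by
    have : Fact (p i).Prime := ⟨hp i⟩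
    obtain ⟨n, hn⟩ := five_inv (p i) (h5 i)
    exact GG.le_comm hN n hn
  rB := GG.map (sgn ℤ)
  rG i := GG.map (sgn (ZMod (p i)))
  rX i := ⟨fun x => ⟨x.i, sgn (ZMod (p i)) x.v⟩, fun x => ⟨x.i, sgn (ZMod (p i)) x.v⟩,
    fun x => Pt.ext rfl (sgn_sgn _ _), fun x => Pt.ext rfl (sgn_sgn _ _)⟩
  rX2 i x := Pt.ext rfl (sgn_sgn _ _)
  rred i b := by
    apply ext'
    · intro j
      ext
      · simp
      · simp
    · rfl
  ract i g x := by
    change (⟨(g • x).i, sgn (ZMod (p i)) (g • x).v⟩ : Pt (Ap (p i))) = _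
    rw [smul_def, smul_def]
    apply Pt.ext
    · rfl
    · change sgn (ZMod (p i)) (g.t (g.k • x.i) + x.v) = sgn (ZMod (p i)) (g.t (g.k • x.i)) + sgn (ZMod (p i)) x.v
      rw [map_add]
  ro i := Pt.ext rfl (map_zero _)
  ry i := Pt.ext rfl (map_zero _)

end GG

end Pool.Agent.W5h69.Seg
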