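import Mathlib
import Pool.Agent.W5h69.Seg.Level

set_option autoImplicit false

/-! # Assembling the example -/

namespace Pool.Agent.W5h69.Seg

open Wr Fam GG

/-- a finitely generated group has finitely many homomorphisms to a finite group -/
lemma finite_hom {Γ H : Type} [Group Γ] [Group H] [Finite H] (h : Group.FG Γ) : Finite (Γ →* H) := by
  obtain ⟨T, hT, hTf⟩ := (Group.fg_iff (G := Γ)).1 h
  have : Finite T := hTf
  apply Finite.of_injective (fun (φ : Γ →* H) (t : T) => φ t)
  intro φ ψ e
  apply MonoidHom.eq_of_eqOn_dense hT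
  intro t ht
  exact congrFun e ⟨t, ht⟩

/-- a finitely generated group has finitely many normal subgroups of bounded index -/
theorem finite_normal {Γ : Type} [Group Γ] (h : Group.FG Γ) (m : ℕ) :
    {N : Subgroup Γ | N.Normal ∧ N.index ≠ 0 ∧ N.index ≤ m}.Finite := by
  have h1 : (⋃ j ∈ Set.Iic m, Set.range (fun φ : Γ →* Equiv.Perm (Fin j) => φ.ker)).Finite := by
    refine (Set.finite_Iic m).biUnion (fun j _ => ?_)
    have := finite_hom (H := Equiv.Perm (Fin j)) h
    exact Set.finite_range _
  refine h1.subset ?_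
  rintro N ⟨hN, h0, hm⟩
  simp only [Set.mem_iUnion]
  refine ⟨N.index, hm, ?_⟩
  have hf : Finite (Γ ⧸ N) := by
    rw [Subgroup.index] at h0
    exact Nat.finite_of_card_ne_zero h0
  have e : (Γ ⧸ N) ≃ Fin N.index := Finite.equivFin _
  refine ⟨(e.permCongrHom.toMonoidHom).comp (MulAction.toPermHom Γ (Γ ⧸ N)), ?_⟩
  ext g
  rw [MonoidHom.mem_ker, MonoidHom.comp_apply]
  have h2 : (e.permCongrHom.toMonoidHom) (MulAction.toPermHom Γ (Γ ⧸ N) g) = 1 ↔
      MulAction.toPermHom Γ (Γ ⧸ N) g = 1 := map_eq_one_iff _ (e.permCongrHom).injective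
  rw [h2, ← MonoidHom.mem_ker, ← Subgroup.normalCore_eq_ker, Subgroup.normalCore_eq_self]

section

variable {B : Type} [Group B] {F : Fam B}

/-- the involution on the branch group -/
noncomputable def rhoQ (F : Fam B) : MulAut F.Q where
  toFun q := ⟨F.rXi * q * F.rXi⁻¹, rXi_conj_Q q.2⟩
  invFun q := ⟨F.rXi * q * F.rXi⁻¹, rXi_conj_Q q.2⟩
  left_inv q := by
    apply Subtype.ext
    change F.rXi * (F.rXi * q * F.rXi⁻¹) * F.rXi⁻¹ = q
    rw [rXi_inv]
    calc F.rXi * (F.rXi * (q : Equiv.Perm F.Xi) * F.rXi) * F.rXi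
        = (F.rXi * F.rXi) * q * (F.rXi * F.rXi) := by group
      _ = q := by rw [rXi_mul]; group
  right_inv q := by
    apply Subtype.ext
    change F.rXi * (F.rXi * q * F.rXi⁻¹) * F.rXi⁻¹ = q
    rw [rXi_inv]
    calc F.rXi * (F.rXi * (q : Equiv.Perm F.Xi) * F.rXi) * F.rXi
        = (F.rXi * F.rXi) * q * (F.rXi * F.rXi) := by group
      _ = q := by rw [rXi_mul]; group
  map_mul' a b := by
    apply Subtype.ext
    change F.rXi * ((a : Equiv.Perm F.Xi) * b) * F.rXi⁻¹ =
      (F.rXi * a * F.rXi⁻¹) * (F.rXi * b * F.rXi⁻¹)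
    group

lemma rhoQ_rhoQ (q : F.Q) : rhoQ F (rhoQ F q) = q := (rhoQ F).left_inv q

lemma nrm_of_normal {N : Subgroup F.Q} (hN : N.Normal) : Nrm F (N.map F.Q.subtype) := by
  constructor
  · rintro _ ⟨n, _, rfl⟩; exact n.2
  · rintro q hq _ ⟨n, hn, rfl⟩
    exact ⟨⟨q, hq⟩ * n * ⟨q, hq⟩⁻¹, hN.conj_mem n hn _, rfl⟩

lemma normal_of_nrm {N : Subgroup (Equiv.Perm F.Xi)} (hN : Nrm F N) : (N.subgroupOf F.Q).Normal := by
  constructor
  intro n hn g
  exact hN.conj g g.2 n hn

/-- the level counter -/
noncomputable def kk (F : Fam B) (m : ℕ) : ℕ :=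
  open Classical in Nat.findGreatest (fun k => (F.st k).index ≤ m) m

lemma le_kk (hB : Perf B) {m n : ℕ} (h : (F.st n).index ≤ m) : n ≤ kk F m := by
  classical
  have h1 := st_index_ge (F := F) hB n
  have h2 : n < 2 ^ n := Nat.lt_two_pow_self
  exact Nat.le_findGreatest (by omega) h

lemma kk_spec (hB : Perf B) {m : ℕ} (h : (F.st 1).index ≤ m) :
    (F.st (kk F m)).index ≤ m ∧ 1 ≤ kk F m := by
  classical
  have h1 := st_index_ge (F := F) hB 1
  refine ⟨?_, le_kk hB h⟩
  exact Nat.findGreatest_spec (P := fun k => (F.st k).index ≤ m) (n := m) (m := 1) (by omega) h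

end

/-- The example in quantitative form. -/
theorem main : ∃ (Γ : Type) (_ : Group Γ), Group.FG Γ ∧
    Finite (MulAut Γ ⧸ (MulAut.conj : Γ →* MulAut Γ).range) ∧
    ∃ κ : ℕ → ℕ, Filter.Tendsto κ Filter.atTop Filter.atTop ∧
      ∀ᶠ m in Filter.atTop,
        {N : Subgroup Γ | N.Characteristic ∧ N.index ≠ 0 ∧ N.index ≤ m}.ncard ≤ 5 * (κ m + 2) ∧
        2 ^ κ m ≤ {N : Subgroup Γ | N.Normal ∧ N.index ≠ 0 ∧ N.index ≤ m}.ncard := by
  classical
  have hex : ∀ i : ℕ, ∃ q, 2 ^ i + 5 < q ∧ q.Prime := by
    intro i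
    obtain ⟨q, h1, h2⟩ := Nat.exists_infinite_primes (2 ^ i + 6)
    exact ⟨q, by omega, h2⟩
  choose p hp1 hp2 using hex
  have h5 : ∀ i, 5 < p i := fun i => by
    have h1 := hp1 i
    have h2 : 0 < 2 ^ i := by positivity
    omega
  set F := theFam p hp2 h5 with hF
  have hB : Perf (GG (ℤ × ℤ)) := perf_GG
  have hfB : Group.FG (GG (ℤ × ℤ)) := fg_ZZ
  have : Infinite F.Q := Q_infinite hB
  obtain ⟨Γ, iΓ, π, ρ', hfg, hout, hsurj, hker, hρ'⟩ :=
    embed (Q := F.Q) (Q_fg hfB) simpNA_A5 (Q_oneEnd hB hfB _) (rhoQ F) rhoQ_rhoQ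
  refine ⟨Γ, iΓ, hfg, hout, fun m => kk F m - 1, ?_, ?_⟩
  · rw [Filter.tendsto_atTop_atTop]
    intro K
    refine ⟨(F.st (K + 1)).index, fun m hm => ?_⟩
    have := le_kk hB hm
    omega
  · rw [Filter.eventually_atTop]
    refine ⟨(F.st 1).index, fun m hm => ?_⟩
    obtain ⟨hk1, hk2⟩ := kk_spec hB hm
    have hkk : kk F m - 1 + 2 = kk F m + 1 := by omega
    have hkk2 : kk F m - 1 + 1 = kk F m := by omega
    -- common facts
    have hmap : ∀ M : Subgroup Γ, M.Normal → M.index ≠ 0 → π.ker ≤ M := by
      intro M hM h0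
      exact hker M hM ⟨h0⟩
    have hidx : ∀ M : Subgroup Γ, M.Normal → M.index ≠ 0 → (M.map π).index = M.index := by
      intro M hM h0
      rw [Subgroup.index_map, sup_eq_left.2 (hmap M hM h0), MonoidHom.range_eq_top.2 hsurj,
        Subgroup.index_top, mul_one]
    constructor
    · -- upper bound
      have h1 : {N : Subgroup Γ | N.Characteristic ∧ N.index ≠ 0 ∧ N.index ≤ m}.encard ≤
          (⋃ n ∈ Finset.range (kk F m + 1), lev F n).encard := by
        refine Set.encard_le_encard_of_injOn
          (f := fun M => (M.map π).map F.Q.subtype) ?_ ?_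
        · rintro M ⟨hM, h0, hm'⟩
          have hMn : M.Normal := by have := hM; infer_instance
          have hNn : (M.map π).Normal := Subgroup.Normal.map hMn _ hsurj
          have hNrm := nrm_of_normal hNn
          have hRI : RInv F ((M.map π).map F.Q.subtype) := by
            rintro _ ⟨_, ⟨g, hg, rfl⟩, rfl⟩
            refine ⟨rhoQ F (π g), ⟨ρ' g, ?_, hρ' g⟩, rfl⟩
            have := (Subgroup.characteristic_iff_map_eq.1 hM) ρ'
            rw [← this]
            exact ⟨g, hg, rfl⟩
          have hne : ∃ n, ¬ (M.map π).map F.Q.subtype ≤ F.stab n := by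
            by_contra hcon
            push Not at hcon
            have hbot : M.map π = ⊥ := by
              rw [eq_bot_iff]
              intro q hq
              rw [Subgroup.mem_bot]
              by_contra hq1
              obtain ⟨n, hn⟩ := exists_not_stab (F := F) (q := (q : Equiv.Perm F.Xi))
                (fun h => hq1 (Subtype.ext h))
              exact hn (hcon n ⟨q, hq, rfl⟩)
            have h3 := hidx M hMn h0
            rw [hbot, Subgroup.index_bot, Nat.card_eq_zero_of_infinite] at h3
            exact h0 h3.symm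
          have hmin := Nat.find_spec hne
          have hpos : Nat.find hne ≠ 0 := by
            intro h
            rw [h] at hmin
            exact hmin (fun q _ x i hi => absurd hi (Nat.not_lt_zero i))
          obtain ⟨n, hn⟩ := Nat.exists_eq_succ_of_ne_zero hpos
          have hle : (M.map π).map F.Q.subtype ≤ F.stab n := by
            by_contra hcon
            have := Nat.find_min' hne hcon
            omega
          rw [hn] at hmin
          simp only [Set.mem_iUnion, Finset.mem_range]
          refine ⟨n, ?_, hNrm, hRI, hle, hmin⟩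
          have h4 : M.map π ≤ F.st n := by
            intro q hq
            exact hle ⟨q, hq, rfl⟩
          have h5 := Subgroup.index_dvd_of_le h4
          have h6 := hidx M hMn h0
          have h7 : (F.st n).index ≤ m := by
            refine (Nat.le_of_dvd ?_ h5).trans ?_
            · rw [h6]; omega
            · rw [h6]; exact hm'
          have := le_kk hB h7
          omega
        · rintro M ⟨hM, h0, _⟩ M' ⟨hM', h0', _⟩ e
          have hMn : M.Normal := by have := hM; infer_instance
          have hMn' : M'.Normal := by have := hM'; infer_instance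
          have e1 : M.map π = M'.map π := Subgroup.map_injective F.Q.subtype_injective e
          have e2 := congrArg (Subgroup.comap π) e1
          rwa [Subgroup.comap_map_eq, Subgroup.comap_map_eq, sup_eq_left.2 (hmap M hMn h0),
            sup_eq_left.2 (hmap M' hMn' h0')] at e2
      have h2 : (⋃ n ∈ Finset.range (kk F m + 1), lev F n).encard ≤
          ((5 * (kk F m + 1) : ℕ) : ℕ∞) := by
        refine (Finset.set_encard_biUnion_le _ _).trans ?_
        have h3 : ∀ n ∈ Finset.range (kk F m + 1), (lev F n).encard ≤ 5 := by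
          intro n _
          refine (count_le hB n F).trans ?_
          have : Fact (p n).Prime := ⟨hp2 n⟩
          exact inv_count (p n) (h5 n)
        refine (Finset.sum_le_sum h3).trans ?_
        rw [Finset.sum_const, Finset.card_range, nsmul_eq_mul, mul_comm]
        push_cast
        exact le_rfl
      have h3 := (Set.ncard_le_encard _).trans (h1.trans h2)
      rw [hkk]
      exact_mod_cast h3
    · -- lower bound
      set n := kk F m - 1 with hn
      have hidx2 : (F.st (n + 1)).index ≤ m := by rw [hkk2]; exact hk1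
      have : Fact (p n).Prime := ⟨hp2 n⟩
      have h1 : ((p n : ℕ) : ℕ∞) ≤ {N : Subgroup (F.G n) | N.Normal}.encard := normal_count (p n)
      have h2 := low_bound hB n F
      have h3 : {N : Subgroup (Equiv.Perm F.Xi) | Nrm F N ∧ F.Q ⊓ F.stab (n + 1) ≤ N}.encard ≤
          {N : Subgroup Γ | N.Normal ∧ N.index ≠ 0 ∧ N.index ≤ m}.encard := by
        refine Set.encard_le_encard_of_injOn
          (f := fun N => (N.subgroupOf F.Q).comap π) ?_ ?_
        · rintro N ⟨hN, hs⟩
          have h4 : F.st (n + 1) ≤ N.subgroupOf F.Q := by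
            intro q hq
            exact hs ⟨q.2, hq⟩
          have h5 := Subgroup.index_dvd_of_le h4
          have h6 := st_index_ne (F := F) (n + 1)
          have h7 : ((N.subgroupOf F.Q).comap π).index = (N.subgroupOf F.Q).index :=
            Subgroup.index_comap_of_surjective _ hsurj
          have h8 : (N.subgroupOf F.Q).index ≠ 0 := by
            intro h0
            rw [h0] at h5
            exact h6 (Nat.eq_zero_of_zero_dvd h5)
          refine ⟨(normal_of_nrm hN).comap π, ?_, ?_⟩
          · rw [h7]; exact h8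
          · rw [h7]
            exact (Nat.le_of_dvd (Nat.pos_of_ne_zero h6) h5).trans hidx2
        · rintro N ⟨hN, _⟩ N' ⟨hN', _⟩ e
          have e1 : N.subgroupOf F.Q = N'.subgroupOf F.Q :=
            Subgroup.comap_injective hsurj e
          have e2 := Subgroup.subgroupOf_inj.1 e1
          rwa [inf_eq_left.2 hN.le, inf_eq_left.2 hN'.le] at e2
      have h4 := h1.trans (h2.trans h3)
      rw [← (finite_normal hfg m).cast_ncard_eq] at h4
      have h5 : p n ≤ {N : Subgroup Γ | N.Normal ∧ N.index ≠ 0 ∧ N.index ≤ m}.ncard := by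
        exact_mod_cast h4
      have h6 := hp1 n
      have h7 : 2 ^ n ≤ {N : Subgroup Γ | N.Normal ∧ N.index ≠ 0 ∧ N.index ≤ m}.ncard := by omega
      exact h7

end Pool.Agent.W5h69.Seg
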