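import Mathlib
import Pool.Agent.W5h69.Seg.Final

/-!
# Characteristic versus normal subgroup growth for groups with finite `Out`

There is a finitely generated group `Γ` with `Out(Γ)` finite whose characteristic and normal
subgroup growth types differ: no single function is a growth type of both.

The construction.  `Q` is a branch group of automorphisms of a rooted tree, generated by rooted and
directed automorphisms, with level groups `(F_p² ⊗ V) ⋊ A₅` for a sequence of fast growing primes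
`p`, where `V` is the zero-sum permutation module.  All its nontrivial normal subgroups are
determined by a level and a normal subgroup of the level group, so there are at least `p` of them
at each level but at most five which are invariant under the sign change of the second coordinate.
`Γ` is a two-step restricted wreath product with top group `Q`, built from `A₅` and a finite
generating set of `Q` invariant under the sign change; the wreath layers remember the generating
set up to inner automorphisms, which makes `Out(Γ)` finite, and they lie in every normal subgroup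
of finite index.
-/

open Filter Topology

namespace Pool.Agent.W5h69.Seg.FiniteOutGrowthGap

/-- The number of normal subgroups of index at most `n`. -/
noncomputable def sNormal (Γ : Type) [Group Γ] (n : ℕ) : ℕ :=
  {N : Subgroup Γ | N.Normal ∧ N.index ≠ 0 ∧ N.index ≤ n}.ncard

/-- The number of characteristic subgroups of index at most `n`. -/
noncomputable def sChar (Γ : Type) [Group Γ] (n : ℕ) : ℕ :=
  {N : Subgroup Γ | N.Characteristic ∧ N.index ≠ 0 ∧ N.index ≤ n}.ncard

/-- `g` has growth type `f`: `g n ≤ f n ^ a` for every `n ≥ 1`, and `g n ≥ f n ^ b` for infinitely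
many `n`, for some real `a, b > 0`. -/
def HasGrowthType (g : ℕ → ℕ) (f : ℕ → ℝ) : Prop :=
  ∃ a b : ℝ, 0 < a ∧ 0 < b ∧ (∀ n, 1 ≤ n → (g n : ℝ) ≤ f n ^ a) ∧
    {n : ℕ | f n ^ b ≤ (g n : ℝ)}.Infinite

/-- `Γ` has the same characteristic and normal subgroup growth types. -/
def SameGrowthTypes (Γ : Type) [Group Γ] : Prop :=
  ∃ f : ℕ → ℝ, (∀ n, 0 ≤ f n) ∧ HasGrowthType (sChar Γ) f ∧ HasGrowthType (sNormal Γ) f

/-- The outer automorphism group: automorphisms modulo inner automorphisms. -/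
abbrev Out (Γ : Type) [Group Γ] : Type := MulAut Γ ⧸ (MulAut.conj : Γ →* MulAut Γ).range

lemma growth (C : ℕ) : ∀ᶠ k : ℕ in atTop, ((5 * (k + 2) : ℕ) : ℝ) ^ C < 2 ^ k := by
  have h1 := tendsto_pow_const_div_const_pow_of_one_lt C (r := (2 : ℝ)) (by norm_num)
  have h2 : (0 : ℝ) < 1 / (4 * 5 ^ C) := by positivity
  have h3 := (tendsto_order.1 h1).2 _ h2
  obtain ⟨N, hN⟩ := eventually_atTop.1 h3
  rw [eventually_atTop]
  refine ⟨N, fun k hk => ?_⟩
  have h4 := hN (k + 2) (by omega)
  rw [div_lt_div_iff₀ (by positivity) (by positivity), one_mul] at h4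
  push_cast at h4 ⊢
  have e : (2 : ℝ) ^ (k + 2) = 4 * 2 ^ k := by rw [pow_add]; ring
  rw [e] at h4
  have e2 : ((5 : ℝ) * (k + 2)) ^ C = ((k : ℝ) + 2) ^ C * 5 ^ C := by rw [mul_pow]; ring
  rw [e2]
  nlinarith [h4]

/-- There is a finitely generated group `Γ` with `Out(Γ)` finite such that no single function is
a growth type of both the characteristic and the normal subgroup growth of `Γ`. -/
theorem result : ∃ (Γ : Type) (_ : Group Γ), Group.FG Γ ∧ Finite (Out Γ) ∧ ¬ SameGrowthTypes Γ := by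
  obtain ⟨Γ, iΓ, hfg, hout, κ, hκ, hev⟩ := Pool.Agent.W5h69.Seg.main
  refine ⟨Γ, iΓ, hfg, hout, ?_⟩
  rintro ⟨f, hf, ⟨a₁, b₁, ha₁, hb₁, -, hinf⟩, ⟨a₂, b₂, ha₂, hb₂, hle, -⟩⟩
  set c := a₂ / b₁ with hc
  have hc0 : 0 < c := div_pos ha₂ hb₁
  have h1 := hκ.eventually (growth ⌈c⌉₊)
  obtain ⟨M, hM⟩ := eventually_atTop.1 (hev.and h1)
  obtain ⟨n, hn, hnM⟩ := hinf.exists_gt (max M 1)
  have hnM' : M ≤ n := ((le_max_left _ _).trans_lt hnM).le
  have hn1 : 1 ≤ n := ((le_max_right _ _).trans_lt hnM).le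
  obtain ⟨⟨h2, h3⟩, h4⟩ := hM n hnM'
  have h5 : (sNormal Γ n : ℝ) ≤ f n ^ a₂ := hle n hn1
  have h6 : f n ^ b₁ ≤ (sChar Γ n : ℝ) := hn
  have h7 : (sChar Γ n : ℝ) ≤ ((5 * (κ n + 2) : ℕ) : ℝ) := by exact_mod_cast h2
  have h8 : (2 : ℝ) ^ κ n ≤ (sNormal Γ n : ℝ) := by exact_mod_cast h3
  have h9 : f n ^ a₂ = (f n ^ b₁) ^ c := by
    rw [← Real.rpow_mul (hf n), hc, mul_div_cancel₀ _ hb₁.ne']
  have h10 : (f n ^ b₁) ^ c ≤ ((5 * (κ n + 2) : ℕ) : ℝ) ^ c :=
    Real.rpow_le_rpow (Real.rpow_nonneg (hf n) _) (h6.trans h7) hc0.le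
  have h11 : ((5 * (κ n + 2) : ℕ) : ℝ) ^ c ≤ ((5 * (κ n + 2) : ℕ) : ℝ) ^ ((⌈c⌉₊ : ℕ) : ℝ) := by
    apply Real.rpow_le_rpow_of_exponent_le _ (Nat.le_ceil c)
    have : 1 ≤ 5 * (κ n + 2) := by omega
    exact_mod_cast this
  rw [Real.rpow_natCast] at h11
  have h12 : (2 : ℝ) ^ κ n ≤ ((5 * (κ n + 2) : ℕ) : ℝ) ^ ⌈c⌉₊ :=
    h8.trans (h5.trans (h9.le.trans (h10.trans h11)))
  exact absurd h4 (not_lt.2 h12)

end Pool.Agent.W5h69.Seg.FiniteOutGrowthGap
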